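import Pool.Agent.Glaisher.Series

/-!
`G_{p-1} ≡ 1 - binom(2N, N)^{p-1} (mod p ^ 2)`, `p = 3 N + 1`.
-/

namespace Glaisher

open Finset

/-- The binomial coefficient `binom(2N, N)`, `N = (p - 1) / 3`. -/
def cc (p : ℕ) : ℕ := Nat.choose (2 * ((p - 1) / 3)) ((p - 1) / 3)

section Ring

variable {p : ℕ} [hp : Fact p.Prime]

omit hp in
theorem p_sq : ((p : ℕ) : ZMod (p ^ 2)) ^ 2 = 0 := by
  have h : ((p ^ 2 : ℕ) : ZMod (p ^ 2)) = 0 := ZMod.natCast_self _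
  push_cast at h
  exact h

omit hp in
theorem p_mul_self : ((p : ℕ) : ZMod (p ^ 2)) * ((p : ℕ) : ZMod (p ^ 2)) = 0 := by
  rw [← pow_two]; exact p_sq

theorem isUnit_int {a : ℤ} (h : ¬ (p : ℤ) ∣ a) : IsUnit (a : ZMod (p ^ 2)) := by
  have h1 : IsCoprime a ((p ^ 2 : ℕ) : ℤ) := by
    push_cast
    refine IsCoprime.pow_right ?_
    exact ((Nat.prime_iff_prime_int.mp hp.out).coprime_iff_not_dvd.mpr h).symm
  obtain ⟨u, v, huv⟩ := h1
  have h2 := congrArg (fun z : ℤ => (z : ZMod (p ^ 2))) huv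
  simp only [Int.cast_add, Int.cast_mul, Int.cast_one] at h2
  have h3 : (((p ^ 2 : ℕ) : ℤ) : ZMod (p ^ 2)) = 0 := by
    rw [Int.cast_natCast]; exact ZMod.natCast_self _
  rw [h3, mul_zero, add_zero] at h2
  exact IsUnit.of_mul_eq_one _ (by rw [mul_comm]; exact h2)

theorem isUnit_nat {a : ℕ} (h : ¬ p ∣ a) : IsUnit (a : ZMod (p ^ 2)) := by
  have := isUnit_int (p := p) (a := (a : ℤ)) (by exact_mod_cast h)
  simpa using this

/-- Fermat. -/
theorem fermat_int {a : ℤ} (h : ¬ (p : ℤ) ∣ a) :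
    ∃ y : ZMod (p ^ 2), (a : ZMod (p ^ 2)) ^ (p - 1) = 1 + (p : ZMod (p ^ 2)) * y := by
  have h1 : IsCoprime a (p : ℤ) :=
    ((Nat.prime_iff_prime_int.mp hp.out).coprime_iff_not_dvd.mpr h).symm
  have h2 := Int.ModEq.pow_card_sub_one_eq_one hp.out h1
  obtain ⟨k, hk⟩ := (Int.modEq_iff_dvd.mp h2.symm)
  refine ⟨(k : ZMod (p ^ 2)), ?_⟩
  have h3 : a ^ (p - 1) = 1 + p * k := by linarith
  have h4 := congrArg (fun z : ℤ => (z : ZMod (p ^ 2))) h3
  push_cast at h4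
  exact h4

theorem mul_pow_sub_one {a b : ℤ} (ha : ¬ (p : ℤ) ∣ a) (hb : ¬ (p : ℤ) ∣ b) :
    ((a : ZMod (p ^ 2)) * b) ^ (p - 1) - 1 =
      ((a : ZMod (p ^ 2)) ^ (p - 1) - 1) + ((b : ZMod (p ^ 2)) ^ (p - 1) - 1) := by
  obtain ⟨y, hy⟩ := fermat_int ha
  obtain ⟨z, hz⟩ := fermat_int hb
  rw [mul_pow, hy, hz]
  have := p_mul_self (p := p)
  linear_combination (y * z) * this

theorem sum_pow_sub_one {ι : Type*} (s : Finset ι) (f : ι → ℤ)
    (hf : ∀ i ∈ s, ¬ (p : ℤ) ∣ f i) :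
    ¬ (p : ℤ) ∣ ∏ i ∈ s, f i ∧
    ∑ i ∈ s, ((f i : ZMod (p ^ 2)) ^ (p - 1) - 1) =
      ((∏ i ∈ s, f i : ℤ) : ZMod (p ^ 2)) ^ (p - 1) - 1 := by
  classical
  have hpp := Nat.prime_iff_prime_int.mp hp.out
  induction s using Finset.induction_on with
  | empty =>
    refine ⟨?_, by simp⟩
    rw [Finset.prod_empty]
    exact hpp.not_dvd_one
  | insert a s ha ih =>
    obtain ⟨h1, h2⟩ := ih (fun i hi => hf i (by simp [hi]))
    have h3 := hf a (by simp)
    rw [Finset.prod_insert ha, Finset.sum_insert ha]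
    refine ⟨fun h => ?_, ?_⟩
    · rcases hpp.dvd_or_dvd h with h | h
      · exact h3 h
      · exact h1 h
    · rw [h2, Int.cast_mul, mul_pow_sub_one h3 h1]

omit hp in
theorem prod_sub_p {ι : Type*} (s : Finset ι) (a b : ι → ZMod (p ^ 2))
    (hab : ∀ i ∈ s, a i * b i = 1) :
    ∏ i ∈ s, (a i - (p : ZMod (p ^ 2))) =
      (∏ i ∈ s, a i) * (1 - (p : ZMod (p ^ 2)) * ∑ i ∈ s, b i) := by
  classical
  induction s using Finset.induction_on with
  | empty => simp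
  | insert j s hj ih =>
    rw [Finset.prod_insert hj, Finset.prod_insert hj, Finset.sum_insert hj,
      ih (fun i hi => hab i (by simp [hi]))]
    have h1 := hab j (by simp)
    have h2 := p_mul_self (p := p)
    linear_combination ((p : ZMod (p ^ 2)) * ∏ i ∈ s, a i) * h1 +
      ((∏ i ∈ s, a i) * (∑ i ∈ s, b i)) * h2

end Ring

theorem sum_inv {N : ℕ} (hN : 0 < N) [hp : Fact (3 * N + 1).Prime]
    (b : ℕ → ZMod ((3 * N + 1) ^ 2))
    (hb : ∀ j ∈ range N, (3 * ((N : ZMod ((3 * N + 1) ^ 2)) +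
      (j : ZMod ((3 * N + 1) ^ 2)) + 1)) * b j = 1) :
    ((3 * N + 1 : ℕ) : ZMod ((3 * N + 1) ^ 2)) * ∑ j ∈ range N, b j = 0 := by
  have h2 : IsUnit (2 : ZMod ((3 * N + 1) ^ 2)) := by
    have := isUnit_nat (p := 3 * N + 1) (a := 2) (fun h => by
      have := Nat.le_of_dvd (by norm_num) h; omega)
    simpa using this
  have h3 : (2 : ZMod ((3 * N + 1) ^ 2)) *
      (((3 * N + 1 : ℕ) : ZMod ((3 * N + 1) ^ 2)) * ∑ j ∈ range N, b j) = 0 := by
    have h4 : (2 : ZMod ((3 * N + 1) ^ 2)) *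
      (((3 * N + 1 : ℕ) : ZMod ((3 * N + 1) ^ 2)) * ∑ j ∈ range N, b j) =
      ∑ j ∈ range N, ((3 * N + 1 : ℕ) : ZMod ((3 * N + 1) ^ 2)) * (b j + b (N - 1 - j)) := by
      rw [← Finset.mul_sum, Finset.sum_add_distrib, Finset.sum_range_reflect]
      ring
    rw [h4]
    refine Finset.sum_eq_zero fun j hj => ?_
    have hj' : j < N := by simpa using hj
    have h5 := hb j hj
    have h6 := hb (N - 1 - j) (by simp; omega)
    have h7 : ((N - 1 - j : ℕ) : ZMod ((3 * N + 1) ^ 2)) = (N : ZMod ((3 * N + 1) ^ 2)) - 1 - j := by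
      rw [Nat.cast_sub (by omega), Nat.cast_sub (by omega), Nat.cast_one]
    rw [h7] at h6
    have h8 := p_sq (p := 3 * N + 1)
    set x := b j
    set y := b (N - 1 - j)
    push_cast at h8 ⊢
    linear_combination (3 * x * y) * h8 - ((3 * (N : ZMod ((3 * N + 1) ^ 2)) + 1) * y) * h5 -
      ((3 * (N : ZMod ((3 * N + 1) ^ 2)) + 1) * x) * h6
  exact (h2.mul_right_eq_zero).mp h3

theorem main_product {N : ℕ} (hN : 0 < N) [hp : Fact (3 * N + 1).Prime] :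
    ((∏ j ∈ range N, (3 * ((j : ℤ) + 1) - 1) : ℤ) : ZMod ((3 * N + 1) ^ 2)) =
    ((∏ j ∈ range N, (3 * ((j : ℤ) + 1)) : ℤ) : ZMod ((3 * N + 1) ^ 2)) *
      ((Nat.choose (2 * N) N : ℕ) : ZMod ((3 * N + 1) ^ 2)) := by
  have hu : ∀ j ∈ range N, IsUnit (3 * ((N : ZMod ((3 * N + 1) ^ 2)) + j + 1)) := by
    intro j hj
    have hj' : j < N := by simpa using hj
    have := isUnit_nat (p := 3 * N + 1) (a := 3 * (N + j + 1)) (fun h => by
      rcases hp.out.dvd_mul.mp h with h | h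
      · have := Nat.le_of_dvd (by norm_num) h; omega
      · have := Nat.le_of_dvd (by omega) h; omega)
    push_cast at this
    exact this
  have hb : ∀ j ∈ range N, (3 * ((N : ZMod ((3 * N + 1) ^ 2)) + j + 1)) *
      (fun j : ℕ => (3 * ((N : ZMod ((3 * N + 1) ^ 2)) + j + 1))⁻¹) j = 1 := fun j hj =>
    ZMod.mul_inv_of_unit _ (hu j hj)
  have h1 := prod_sub_p (p := 3 * N + 1) (range N)
    (fun j : ℕ => (3 * ((N : ZMod ((3 * N + 1) ^ 2)) + j + 1)))
    (fun j : ℕ => (3 * ((N : ZMod ((3 * N + 1) ^ 2)) + j + 1))⁻¹) hb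
  rw [sum_inv hN _ hb, sub_zero, mul_one] at h1
  have h2 : ((∏ j ∈ range N, (3 * ((j : ℤ) + 1) - 1) : ℤ) : ZMod ((3 * N + 1) ^ 2)) =
      ∏ j ∈ range N, (3 * ((N : ZMod ((3 * N + 1) ^ 2)) + j + 1) -
        ((3 * N + 1 : ℕ) : ZMod ((3 * N + 1) ^ 2))) := by
    push_cast
    refine Finset.prod_congr rfl fun j _ => ?_
    ring
  rw [h2, h1]
  -- factorials
  have hf : IsUnit ((N.factorial : ℕ) : ZMod ((3 * N + 1) ^ 2)) := by
    refine isUnit_nat (p := 3 * N + 1) (fun h => ?_)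
    rw [hp.out.dvd_factorial] at h
    omega
  have h3 : ∏ j ∈ range N, ((j : ZMod ((3 * N + 1) ^ 2)) + 1) =
      ((N.factorial : ℕ) : ZMod ((3 * N + 1) ^ 2)) := by
    rw [← Finset.prod_range_add_one_eq_factorial]; push_cast; rfl
  have h4 : (((2 * N).factorial : ℕ) : ZMod ((3 * N + 1) ^ 2)) =
      ((N.factorial : ℕ) : ZMod ((3 * N + 1) ^ 2)) *
        ∏ j ∈ range N, ((N : ZMod ((3 * N + 1) ^ 2)) + j + 1) := by
    rw [← Finset.prod_range_add_one_eq_factorial, two_mul, Finset.prod_range_add,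
      Finset.prod_range_add_one_eq_factorial]
    push_cast
    rfl
  have h5 : (((2 * N).factorial : ℕ) : ZMod ((3 * N + 1) ^ 2)) =
      ((Nat.choose (2 * N) N : ℕ) : ZMod ((3 * N + 1) ^ 2)) * (N.factorial : ℕ) * (N.factorial : ℕ) := by
    have := Nat.choose_mul_factorial_mul_factorial (n := 2 * N) (k := N) (by omega)
    have h6 : 2 * N - N = N := by omega
    rw [h6] at this
    rw [← this]; push_cast; ring
  have h6 : ∏ j ∈ range N, ((N : ZMod ((3 * N + 1) ^ 2)) + j + 1) =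
      ((Nat.choose (2 * N) N : ℕ) : ZMod ((3 * N + 1) ^ 2)) * (N.factorial : ℕ) := by
    refine hf.mul_left_cancel ?_
    rw [← h4, h5]; ring
  rw [Finset.prod_mul_distrib, h6]
  push_cast
  rw [Finset.prod_mul_distrib, h3]
  ring

/-- In `ZMod (p ^ 2)`. -/
theorem sum_eq {N : ℕ} (hN : 0 < N) [hp : Fact (3 * N + 1).Prime] :
    ((∑ j ∈ range N, ((3 * ((j : ℤ) + 1)) ^ (3 * N) - (3 * ((j : ℤ) + 1) - 1) ^ (3 * N)) : ℤ) :
      ZMod ((3 * N + 1) ^ 2)) =
    1 - ((Nat.choose (2 * N) N : ℕ) : ZMod ((3 * N + 1) ^ 2)) ^ (3 * N) := by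
  have hpp := Nat.prime_iff_prime_int.mp hp.out
  have h3N : 3 * N + 1 - 1 = 3 * N := by omega
  have nd : ∀ a : ℤ, 0 < a → a < 3 * N + 1 → ¬ ((3 * N + 1 : ℕ) : ℤ) ∣ a := by
    intro a h1 h2 h3
    have := Int.le_of_dvd h1 h3
    push_cast at this
    omega
  obtain ⟨hA, hA'⟩ := sum_pow_sub_one (p := 3 * N + 1) (range N) (fun j : ℕ => 3 * ((j : ℤ) + 1))
    (fun j hj => nd _ (by positivity) (by
      have : j < N := by simpa using hj
      have : (j : ℤ) + 1 ≤ N := by exact_mod_cast this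
      linarith))
  obtain ⟨hB, hB'⟩ := sum_pow_sub_one (p := 3 * N + 1) (range N)
    (fun j : ℕ => 3 * ((j : ℤ) + 1) - 1)
    (fun j hj => nd _ (by
      have : (0 : ℤ) ≤ j := by positivity
      linarith) (by
      have : j < N := by simpa using hj
      have : (j : ℤ) + 1 ≤ N := by exact_mod_cast this
      linarith))
  rw [main_product hN] at hB'
  have hC : ¬ ((3 * N + 1 : ℕ) : ℤ) ∣ ((Nat.choose (2 * N) N : ℕ) : ℤ) := by
    intro h
    have h' : (3 * N + 1) ∣ Nat.choose (2 * N) N := by exact_mod_cast h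
    have h2 : (3 * N + 1) ∣ (2 * N).factorial := by
      rw [← Nat.choose_mul_factorial_mul_factorial (n := 2 * N) (k := N) (by omega), mul_assoc]
      exact Dvd.dvd.mul_right h' _
    rw [hp.out.dvd_factorial] at h2
    omega
  have h7 := mul_pow_sub_one (p := 3 * N + 1) hA hC
  rw [Int.cast_natCast] at h7
  rw [h3N] at hA' hB' h7
  rw [h7] at hB'
  push_cast
  push_cast at hA' hB'
  rw [Finset.sum_sub_distrib] at hA' hB' ⊢
  linear_combination hA' - hB'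

/-- `G_{p-1} ≡ 1 - C^{p-1} (mod p ^ 2)`. -/
theorem glaisher_choose {p : ℕ} (hp : p.Prime) (h3 : p % 3 = 1) :
    CongSq p (glaisher (p - 1)) (1 - (cc p : ℚ) ^ (p - 1)) := by
  obtain ⟨N, hN⟩ : ∃ N, p = 3 * N + 1 := ⟨p / 3, by omega⟩
  subst hN
  have hN0 : 0 < N := by
    rcases Nat.eq_zero_or_pos N with h | h
    · subst h; exact absurd hp (by norm_num)
    · exact h
  have hev : Even N := by
    rcases Nat.even_or_odd N with h | h
    · exact h
    · exfalso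
      obtain ⟨k, rfl⟩ := h
      have h2 : 2 ∣ 3 * (2 * k + 1) + 1 := ⟨3 * k + 2, by ring⟩
      have := (Nat.prime_dvd_prime_iff_eq Nat.prime_two hp).mp h2
      omega
  have : Fact (3 * N + 1).Prime := ⟨hp⟩
  have e1 : 3 * N + 1 - 1 = 3 * N := by omega
  have e2 : cc (3 * N + 1) = Nat.choose (2 * N) N := by
    rw [cc, e1, Nat.mul_div_cancel_left _ (by norm_num)]
  rw [e1, e2]
  obtain ⟨z, hz, hz'⟩ := glaisher_congr N hN0 hev hp
  have h1 := sum_eq hN0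
  have h2 : ((((3 * N + 1) ^ 2 : ℕ) : ℤ)) ∣
      (∑ j ∈ range N, ((3 * ((j : ℤ) + 1)) ^ (3 * N) - (3 * ((j : ℤ) + 1) - 1) ^ (3 * N))) -
      (1 - ((Nat.choose (2 * N) N : ℕ) : ℤ) ^ (3 * N)) := by
    rw [← ZMod.intCast_zmod_eq_zero_iff_dvd] 
    rw [Int.cast_sub, h1]
    push_cast
    ring
  obtain ⟨w, hw⟩ := h2
  have h3 := congrArg (fun z : ℤ => (z : ℚ)) hw
  push_cast at h3
  refine ⟨z + w, PInt.add hz (PInt.int _ w), ?_⟩
  push_cast at hz' ⊢
  linear_combination hz' + h3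

end Glaisher
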