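import Pool.Agent.Glaisher.Curve

/-!
The number of primes up to `X` for which `C` has order at most `n` is `O(n² √X)`.
-/

namespace Glaisher

open Finset

/-- The number of prime factors of `m < t ^ e` which are at least `t` is less than `e`. -/
theorem card_large_factors {t m e : ℕ} (ht : 2 ≤ t) (hm0 : m ≠ 0) (hm : m < t ^ e) :
    (m.primeFactors.filter (fun q => t ≤ q)).card < e := by
  have h1 : t ^ (m.primeFactors.filter (fun q => t ≤ q)).card ≤
      ∏ q ∈ m.primeFactors.filter (fun q => t ≤ q), q := by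
    rw [← Finset.prod_const]
    exact Finset.prod_le_prod' (fun q hq => (Finset.mem_filter.mp hq).2)
  have h2 : ∏ q ∈ m.primeFactors.filter (fun q => t ≤ q), q ≤ m := by
    refine Nat.le_of_dvd (Nat.pos_of_ne_zero hm0) ?_
    refine dvd_trans ?_ (Nat.prod_primeFactors_dvd m)
    exact Finset.prod_dvd_prod_of_subset _ _ _ (Finset.filter_subset _ _)
  exact (Nat.pow_lt_pow_iff_right (by omega)).mp (lt_of_le_of_lt (h1.trans h2) hm)

theorem count_small (X n : ℕ) :
    ((Finset.range (X + 1)).filter (fun p => p.Prime ∧ p % 3 = 1 ∧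
      orderOf ((cc p : ℕ) : ZMod p) ≤ n)).card ≤ (6 * n ^ 2 + 1) * Nat.sqrt (4 * X) := by
  classical
  set R := Nat.sqrt (4 * X) with hR
  set A1 : Finset ℕ := (Finset.Icc 1 R).image (fun s => (1 + 3 * s ^ 2) / 4) with hA1
  set A2 : Finset ℕ := (Finset.Icc 2 R).biUnion (fun t => (Finset.Icc 1 n).biUnion (fun k =>
    (t ^ (6 * k) - 1).primeFactors.filter (fun q => t ≤ q))) with hA2
  have hsub : (Finset.range (X + 1)).filter (fun p => p.Prime ∧ p % 3 = 1 ∧
      orderOf ((cc p : ℕ) : ZMod p) ≤ n) ⊆ A1 ∪ A2 := by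
    intro p hp
    rw [Finset.mem_filter, Finset.mem_range] at hp
    obtain ⟨hX, hp, h3, hord⟩ := hp
    have hf : Fact p.Prime := ⟨hp⟩
    have h7 := seven_le hp h3
    obtain ⟨T, S, h, -⟩ := jacobiHyp (p := p) h3
    obtain ⟨hT, hS, hC6⟩ := cc_six_modp h3 h
    have hnat : 4 * p = T.natAbs ^ 2 + 3 * S.natAbs ^ 2 := by
      have h1 : ((4 * p : ℕ) : ℤ) = ((T.natAbs ^ 2 + 3 * S.natAbs ^ 2 : ℕ) : ℤ) := by
        push_cast
        rw [sq_abs, sq_abs]
        exact h
      exact_mod_cast h1
    have hT0 : T.natAbs ≠ 0 := by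
      intro h0
      rw [Int.natAbs_eq_zero] at h0
      exact hT (by rw [h0]; simp)
    have hS0 : S.natAbs ≠ 0 := by
      intro h0
      rw [Int.natAbs_eq_zero] at h0
      exact hS (by rw [h0]; simp)
    have hTR : T.natAbs ≤ R := by
      rw [hR, Nat.le_sqrt']; nlinarith
    have hSR : S.natAbs ≤ R := by
      rw [hR, Nat.le_sqrt']; nlinarith
    rw [Finset.mem_union]
    by_cases h1 : T.natAbs = 1
    · left
      rw [hA1, Finset.mem_image]
      refine ⟨S.natAbs, Finset.mem_Icc.mpr ⟨by omega, hSR⟩, ?_⟩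
      rw [h1] at hnat
      omega
    · right
      rw [hA2, Finset.mem_biUnion]
      refine ⟨T.natAbs, Finset.mem_Icc.mpr ⟨by omega, hTR⟩, ?_⟩
      rw [Finset.mem_biUnion]
      have hpos : 0 < orderOf ((cc p : ℕ) : ZMod p) := by
        have h0 : ((cc p : ℕ) : ZMod p) ≠ 0 := by
          intro h0
          rw [h0, zero_pow (by norm_num)] at hC6
          exact pow_ne_zero 6 hT hC6.symm
        exact orderOf_pos_iff.mpr (isOfFinOrder_iff_pow_eq_one.mpr
          ⟨p - 1, by have := hp.two_le; omega, ZMod.pow_card_sub_one_eq_one h0⟩)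
      refine ⟨orderOf ((cc p : ℕ) : ZMod p), Finset.mem_Icc.mpr ⟨hpos, hord⟩, ?_⟩
      set k := orderOf ((cc p : ℕ) : ZMod p) with hk
      have h2 : (T : ZMod p) ^ (6 * k) = 1 := by
        rw [pow_mul, ← hC6, ← pow_mul, mul_comm, pow_mul, pow_orderOf_eq_one, one_pow]
      have h4 : (T.natAbs : ZMod p) ^ (6 * k) = 1 := by
        have h5 : ((T.natAbs : ℤ) : ZMod p) ^ (6 * k) = (T : ZMod p) ^ (6 * k) := by
          rw [← Int.cast_pow, ← Int.cast_pow]
          congr 1
          rw [pow_mul, pow_mul]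
          congr 1
          have : (T.natAbs : ℤ) ^ 2 = T ^ 2 := Int.natAbs_sq T
          calc (T.natAbs : ℤ) ^ 6 = ((T.natAbs : ℤ) ^ 2) ^ 3 := by ring
            _ = (T ^ 2) ^ 3 := by rw [this]
            _ = T ^ 6 := by ring
        rw [Int.cast_natCast] at h5
        rw [h5, h2]
      have hbig : 1 < T.natAbs ^ (6 * k) := Nat.one_lt_pow (by omega) (by omega)
      have h5 : p ∣ T.natAbs ^ (6 * k) - 1 := by
        rw [← ZMod.natCast_eq_zero_iff, Nat.cast_sub hbig.le, Nat.cast_pow, h4]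
        simp
      rw [Finset.mem_filter, Nat.mem_primeFactors]
      refine ⟨⟨hp, h5, by omega⟩, ?_⟩
      by_contra hlt
      push Not at hlt
      nlinarith
  have hc1 : A1.card ≤ R := by
    refine Finset.card_image_le.trans ?_
    rw [Nat.card_Icc]; omega
  have hc2 : A2.card ≤ R * (n * (6 * n)) := by
    refine (Finset.card_biUnion_le_card_mul _ _ (n * (6 * n)) ?_).trans ?_
    · intro t ht
      rw [Finset.mem_Icc] at ht
      refine (Finset.card_biUnion_le_card_mul _ _ (6 * n) ?_).trans ?_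
      · intro k hk
        rw [Finset.mem_Icc] at hk
        have hbig : 1 < t ^ (6 * k) := Nat.one_lt_pow (by omega) (by omega)
        have := card_large_factors (t := t) (m := t ^ (6 * k) - 1) (e := 6 * k) ht.1 (by omega)
          (by omega)
        omega
      · rw [Nat.card_Icc]; simp
    · refine Nat.mul_le_mul_right _ ?_
      rw [Nat.card_Icc]; omega
  calc _ ≤ (A1 ∪ A2).card := Finset.card_le_card hsub
    _ ≤ A1.card + A2.card := Finset.card_union_le _ _
    _ ≤ R + R * (n * (6 * n)) := Nat.add_le_add hc1 hc2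
    _ = (6 * n ^ 2 + 1) * R := by ring

end Glaisher
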