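import Mathlib

/-!
# The binomial coefficient `C(2(p-1)/3, (p-1)/3)` modulo `p ^ 2`

For a prime `p ≡ 1 (mod 3)` there are integers `T, S` with `4 p = T² + 3 S²` and
`T · C(2(p-1)/3, (p-1)/3) ≡ -(T² - p) (mod p²)`.  The proof computes the cubic Jacobi sum
of the Teichmüller lift modulo `p ^ 2`.
-/

open Finset

namespace Glaisher

/-! ### Part A: binomial sums -/

/-- Partial alternating sum with a linear weight. -/
theorem linSum (r : ℕ) (m : ℕ) :
    ∑ j ∈ range (m + 1), (-1 : ℤ) ^ j * ((r : ℤ) + 1 - j) * ((2 * r + 2).choose j : ℤ) =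
      (-1) ^ m * (((r : ℤ) - m) * ((2 * r + 1).choose m : ℤ) + ((2 * r).choose m : ℤ)) := by
  induction m with
  | zero => simp
  | succ m ih =>
    rw [sum_range_succ, ih]
    have h1 : ((2 * r + 2).choose (m + 1) : ℤ) =
        ((2 * r + 1).choose m : ℤ) + ((2 * r + 1).choose (m + 1) : ℤ) := by
      exact_mod_cast Nat.choose_succ_succ (2 * r + 1) m
    have h2 : ((2 * r + 1).choose (m + 1) : ℤ) =
        ((2 * r).choose m : ℤ) + ((2 * r).choose (m + 1) : ℤ) := by
      exact_mod_cast Nat.choose_succ_succ (2 * r) m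
    rw [h1, h2]
    push_cast
    ring

/-- The weighted alternating sum `A(n) = ∑_{j<n} (-1)^j C(2n,j)/(n-j)` in a field. -/
noncomputable def altA (F : Type*) [Field F] (n : ℕ) : F :=
  ∑ j ∈ range n, (-1 : F) ^ j * ((2 * n).choose j : F) / ((n : F) - j)

/-- A harmonic sum. -/
noncomputable def harH (F : Type*) [Field F] (n : ℕ) : F :=
  ∑ i ∈ range n, 1 / ((n : F) + i + 1)

theorem altA_succ (F : Type*) [Field F] (n : ℕ) (hn : ∀ i : ℕ, 0 < i → i ≤ n + 1 → (i : F) ≠ 0) :
    ((n : F) + 1) ^ 2 * altA F (n + 1) =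
      (-1) ^ n * ((2 * n).choose n : F) - (2 * n + 2) * (2 * n + 1) * altA F n := by
  have key : ∀ j ∈ range (n + 1), ((n : F) + 1) ^ 2 *
      ((-1 : F) ^ j * ((2 * (n + 1)).choose j : F) / (((n + 1 : ℕ) : F) - j)) =
      (-1 : F) ^ j * ((n : F) + 1 - j) * ((2 * n + 2).choose j : F) +
      (-1 : F) ^ j * ((j : F) * (2 * n + 2 - j) * ((2 * n + 2).choose j : F)) /
        ((n : F) + 1 - j) := by
    intro j hj
    have hj' : j ≤ n := by simpa [Nat.lt_succ_iff] using hj
    have h0 : ((n : F) + 1 - j) ≠ 0 := by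
      have := hn (n + 1 - j) (by omega) (by omega)
      rw [Nat.cast_sub (by omega)] at this
      simpa using this
    have e : 2 * (n + 1) = 2 * n + 2 := by ring
    rw [e]
    push_cast
    field_simp
    ring
  have hlin : ∑ j ∈ range (n + 1), (-1 : F) ^ j * ((n : F) + 1 - j) *
      ((2 * n + 2).choose j : F) = (-1) ^ n * ((2 * n).choose n : F) := by
    have := congrArg (fun z : ℤ => (z : F)) (linSum n n)
    simpa using this
  have hsec : ∑ j ∈ range (n + 1), (-1 : F) ^ j * ((j : F) * (2 * n + 2 - j) *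
      ((2 * n + 2).choose j : F)) / ((n : F) + 1 - j) =
      - ((2 * n + 2) * (2 * n + 1) * altA F n) := by
    rw [sum_range_succ']
    simp only [Nat.cast_zero, zero_mul, mul_zero, zero_div, add_zero]
    unfold altA
    rw [mul_sum, ← sum_neg_distrib]
    refine sum_congr rfl fun j hj => ?_
    have hj' : j < n := by simpa using hj
    have h0 : ((n : F) - j) ≠ 0 := by
      have := hn (n - j) (by omega) (by omega)
      rwa [Nat.cast_sub (by omega)] at this
    have c1 : ((2 * n + 2).choose (j + 1) : F) * ((j : F) + 1) =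
        (2 * n + 2) * ((2 * n + 1).choose j : F) := by
      have := Nat.add_one_mul_choose_eq (2 * n + 1) j
      have := congrArg (fun z : ℕ => (z : F)) this
      push_cast at this
      rw [← this]; ring
    have c2 : ((2 * n + 1).choose j : F) * (2 * n + 1 - j) =
        (2 * n + 1) * ((2 * n).choose j : F) := by
      have := Nat.choose_mul_succ_eq (2 * n) j
      have := congrArg (fun z : ℕ => (z : F)) this
      push_cast [Nat.cast_sub (show j ≤ 2 * n + 1 by omega)] at this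
      rw [← this]; ring
    have e1 : ((n : F) + 1 - ((j + 1 : ℕ) : F)) = (n : F) - j := by push_cast; ring
    rw [e1]
    rw [div_eq_iff h0]
    have : -((2 * (n : F) + 2) * (2 * n + 1) * ((-1) ^ j * ((2 * n).choose j : F) /
        ((n : F) - j))) * ((n : F) - j) =
        -((2 * (n : F) + 2) * ((2 * n + 1) * ((2 * n).choose j : F)) * (-1) ^ j) := by
      field_simp
    rw [this, ← c2]
    have : -((2 * (n : F) + 2) * (((2 * n + 1).choose j : F) * (2 * n + 1 - j)) * (-1) ^ j) =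
        -(((2 * (n : F) + 2) * ((2 * n + 1).choose j : F)) * (2 * n + 1 - j) * (-1) ^ j) := by
      ring
    rw [this, ← c1]
    push_cast
    ring
  unfold altA at *
  rw [mul_sum, sum_congr rfl key, sum_add_distrib, hlin, hsec]
  ring

theorem harH_succ (F : Type*) [Field F] (n : ℕ)
    (hn : ∀ i : ℕ, 0 < i → i ≤ 2 * n + 2 → (i : F) ≠ 0) :
    (2 * (n : F) + 2) * (2 * n + 1) * harH F (n + 1) =
      (2 * (n : F) + 2) * (2 * n + 1) * harH F n + 1 := by
  have h1 : (2 * (n : F) + 1) ≠ 0 := by exact_mod_cast hn (2 * n + 1) (by omega) (by omega)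
  have h2 : (2 * (n : F) + 2) ≠ 0 := by exact_mod_cast hn (2 * n + 2) (by omega) (by omega)
  have h3 : ((n : F) + 1) ≠ 0 := by exact_mod_cast hn (n + 1) (by omega) (by omega)
  have a1 : harH F (n + 1) = ∑ i ∈ range n, 1 / ((n : F) + i + 2) + 1 / (2 * (n : F) + 2) := by
    unfold harH
    rw [sum_range_succ]
    congr 1
    · refine sum_congr rfl fun i _ => ?_
      push_cast; congr 1; ring
    · push_cast; congr 1; ring
  have a2 : harH F n + 1 / (2 * (n : F) + 1) =
      ∑ i ∈ range n, 1 / ((n : F) + i + 2) + 1 / ((n : F) + 1) := by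
    unfold harH
    have : 1 / (2 * (n : F) + 1) = 1 / ((n : F) + (n : ℕ) + 1) := by congr 1; ring
    rw [this, ← sum_range_succ (fun i : ℕ => 1 / ((n : F) + i + 1)) n, sum_range_succ']
    congr 1
    · refine sum_congr rfl fun i _ => ?_
      push_cast; congr 1; ring
    · simp
  have a3 : harH F (n + 1) = harH F n + 1 / (2 * (n : F) + 1) - 1 / ((n : F) + 1) +
      1 / (2 * (n : F) + 2) := by
    rw [a1, a2]; ring
  rw [a3]
  have h2' : (2 * (n : F) + 2) = 2 * ((n : F) + 1) := by ring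
  have h4 : (2 : F) ≠ 0 := by
    intro h; apply h2; rw [h2', h, zero_mul]
  rw [h2']
  field_simp
  ring

theorem altA_eq (F : Type*) [Field F] (n : ℕ)
    (hn : ∀ i : ℕ, 0 < i → i ≤ 2 * n → (i : F) ≠ 0) :
    altA F n = -((-1) ^ n * ((2 * n).choose n : F) * harH F n) := by
  induction n with
  | zero => simp [altA, harH]
  | succ n ih =>
    have ih' := ih fun i hi hi' => hn i hi (by omega)
    have h1 := altA_succ F n fun i hi hi' => hn i hi (by omega)
    have h2 := harH_succ F n fun i hi hi' => hn i hi (by omega)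
    have h3 : ((n : F) + 1) ≠ 0 := by exact_mod_cast hn (n + 1) (by omega) (by omega)
    have h4 : ((n : F) + 1) ^ 2 ≠ 0 := pow_ne_zero _ h3
    have c : ((n : F) + 1) * ((2 * (n + 1)).choose (n + 1) : F) =
        2 * (2 * n + 1) * ((2 * n).choose n : F) := by
      have := Nat.succ_mul_centralBinom_succ n
      simp only [Nat.centralBinom] at this
      exact_mod_cast congrArg (fun z : ℕ => (z : F)) this
    apply mul_left_cancel₀ h4
    rw [h1, ih']
    have : ((n : F) + 1) ^ 2 * -((-1) ^ (n + 1) * ((2 * (n + 1)).choose (n + 1) : F) *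
        harH F (n + 1)) = (-1) ^ n * ((n : F) + 1) * (((n : F) + 1) *
        ((2 * (n + 1)).choose (n + 1) : F)) * harH F (n + 1) := by
      rw [pow_succ (-1 : F)]; ring
    rw [this, c]
    have : (-1) ^ n * ((n : F) + 1) * (2 * (2 * n + 1) * ((2 * n).choose n : F)) *
        harH F (n + 1) = (-1) ^ n * ((2 * n).choose n : F) *
        ((2 * (n : F) + 2) * (2 * n + 1) * harH F (n + 1)) := by ring
    rw [this, h2]
    ring

theorem natCast_ne_zero_of_lt (p : ℕ) [Fact p.Prime] (i : ℕ) (h0 : 0 < i) (hi : i < p) :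
    (i : ZMod p) ≠ 0 := by
  intro h
  rw [ZMod.natCast_eq_zero_iff] at h
  exact absurd (Nat.le_of_dvd h0 h) (by omega)

theorem harH_zero (p N : ℕ) [Fact p.Prime] (hp : p = 3 * N + 1) (hN : 0 < N) :
    harH (ZMod p) N = 0 := by
  have h3 : (3 * (N : ZMod p) + 1) = 0 := by
    have h : ((3 * N + 1 : ℕ) : ZMod p) = ((p : ℕ) : ZMod p) := by rw [← hp]
    rw [ZMod.natCast_self p] at h
    exact_mod_cast h
  have href : harH (ZMod p) N = -harH (ZMod p) N := by
    unfold harH
    rw [← sum_range_reflect (fun i : ℕ => 1 / ((N : ZMod p) + i + 1)) N, ← sum_neg_distrib]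
    conv_rhs => rw [← sum_range_reflect]
    refine sum_congr rfl fun i hi => ?_
    have hi' : i < N := by simpa using hi
    have e : N - 1 - (N - 1 - i) = i := by omega
    simp only [e]
    have e2 : ((N - 1 - i : ℕ) : ZMod p) = (N : ZMod p) - 1 - i := by
      rw [Nat.cast_sub (by omega), Nat.cast_sub (by omega)]; simp
    rw [e2]
    have e3 : ((N : ZMod p) + (N - 1 - i) + 1) = -((N : ZMod p) + i + 1) := by
      linear_combination h3
    rw [e3, div_neg]
  have h2 : (2 : ZMod p) ≠ 0 := by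
    have := natCast_ne_zero_of_lt p 2 (by omega) (by omega)
    exact_mod_cast this
  have : 2 * harH (ZMod p) N = 0 := by linear_combination href
  exact (mul_eq_zero.mp this).resolve_left h2

theorem sigma_one (p N : ℕ) [Fact p.Prime] (hp : p = 3 * N + 1) (hN : 0 < N) (he : Even N) :
    4 * (N : ZMod p) * ∑ j ∈ range N, (-1 : ZMod p) ^ j * ((2 * N - 1).choose j : ZMod p) /
      ((N : ZMod p) - j) = -((2 * N).choose N : ZMod p) := by
  have hA : altA (ZMod p) N = 0 := by
    rw [altA_eq (ZMod p) N fun i hi hi' => natCast_ne_zero_of_lt p i hi (by omega),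
      harH_zero p N hp hN]
    ring
  have h1 : 4 * (N : ZMod p) * ∑ j ∈ range N, (-1 : ZMod p) ^ j *
      ((2 * N - 1).choose j : ZMod p) / ((N : ZMod p) - j) =
      2 * (∑ j ∈ range N, (-1 : ZMod p) ^ j * ((2 * N).choose j : ZMod p)) +
      2 * N * altA (ZMod p) N := by
    unfold altA
    rw [mul_sum, mul_sum, mul_sum, ← sum_add_distrib]
    refine sum_congr rfl fun j hj => ?_
    have hj' : j < N := by simpa using hj
    have h0 : ((N : ZMod p) - j) ≠ 0 := by
      have := natCast_ne_zero_of_lt p (N - j) (by omega) (by omega)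
      rwa [Nat.cast_sub (by omega)] at this
    have c2 : ((2 * N - 1).choose j : ZMod p) * (2 * N) =
        ((2 * N).choose j : ZMod p) * (2 * N - j) := by
      have := Nat.choose_mul_succ_eq (2 * N - 1) j
      rw [show 2 * N - 1 + 1 = 2 * N by omega] at this
      have := congrArg (fun z : ℕ => (z : ZMod p)) this
      push_cast [Nat.cast_sub (show j ≤ 2 * N by omega)] at this
      exact this
    have : 4 * (N : ZMod p) * ((-1) ^ j * ((2 * N - 1).choose j : ZMod p) / ((N : ZMod p) - j)) =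
        2 * ((-1) ^ j * (((2 * N - 1).choose j : ZMod p) * (2 * N)) / ((N : ZMod p) - j)) := by
      ring
    rw [this, c2]
    field_simp
    ring
  rw [h1, hA, mul_zero, add_zero]
  obtain ⟨M, rfl⟩ : ∃ M, N = M + 1 := ⟨N - 1, by omega⟩
  have h2 := congrArg (fun z : ℤ => (z : ZMod p))
    (Int.alternating_sum_range_choose_eq_choose (n := 2 * M + 1) (m := M))
  have h3 : ∑ j ∈ range (M + 1), (-1 : ZMod p) ^ j * ((2 * (M + 1)).choose j : ZMod p) =
      (-1) ^ M * ((2 * M + 1).choose M : ZMod p) := by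
    rw [show 2 * (M + 1) = 2 * M + 1 + 1 by ring]
    simpa using h2
  rw [h3]
  have h4 : (-1 : ZMod p) ^ M = -1 := by
    apply Odd.neg_one_pow
    rcases Nat.even_or_odd M with h | h
    · exact absurd he (by simpa [Nat.even_add_one] using h)
    · exact h
  have h5 : (2 * (M + 1)).choose (M + 1) = 2 * (2 * M + 1).choose M := by
    rw [show 2 * (M + 1) = 2 * M + 1 + 1 by ring, Nat.choose_succ_succ,
      Nat.choose_symm_half M]
    ring
  rw [h4, h5]
  push_cast
  ring

/-! ### Part B: the Teichmüller lift modulo `p ^ 2` -/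

section Teich

variable (p : ℕ) [Fact p.Prime]

/-- Reduction `ℤ/p² → ℤ/p`. -/
def red2 : ZMod (p ^ 2) →+* ZMod p := ZMod.castHom (dvd_pow_self p two_ne_zero) (ZMod p)

omit [Fact p.Prime] in
theorem psq_zero : (p : ZMod (p ^ 2)) ^ 2 = 0 := by
  have : ((p ^ 2 : ℕ) : ZMod (p ^ 2)) = 0 := ZMod.natCast_self _
  exact_mod_cast this

theorem red2_surj (x : ZMod p) : ∃ r, red2 p r = x := by
  refine ⟨((x.val : ℕ) : ZMod (p ^ 2)), ?_⟩
  rw [map_natCast, ZMod.natCast_zmod_val]

theorem red2_eq_zero (r : ZMod (p ^ 2)) (h : red2 p r = 0) :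
    (p : ZMod (p ^ 2)) ∣ r := by
  have : NeZero (p ^ 2) := ⟨pow_ne_zero _ (Fact.out : p.Prime).ne_zero⟩
  have h1 : r = ((r.val : ℕ) : ZMod (p ^ 2)) := (ZMod.natCast_zmod_val r).symm
  rw [h1, map_natCast, ZMod.natCast_eq_zero_iff] at h
  rw [h1]
  exact Nat.cast_dvd_cast h

theorem red2_p : red2 p (p : ZMod (p ^ 2)) = 0 := by
  rw [map_natCast, ZMod.natCast_self]

theorem p_mul_eq_zero (r : ZMod (p ^ 2)) (h : red2 p r = 0) :
    (p : ZMod (p ^ 2)) * r = 0 := by
  obtain ⟨s, rfl⟩ := red2_eq_zero p r h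
  rw [← mul_assoc, ← pow_two, psq_zero, zero_mul]

/-- Congruent modulo `p` elements have equal `p`-th powers modulo `p ^ 2`. -/
theorem pow_p_congr (a b : ZMod (p ^ 2)) (h : red2 p a = red2 p b) : a ^ p = b ^ p := by
  have h1 : (p : ZMod (p ^ 2)) ∣ a - b := red2_eq_zero p _ (by rw [map_sub, h, sub_self])
  have h2 := dvd_sub_pow_of_dvd_sub h1 1
  rw [pow_one] at h2
  have h3 : (p : ZMod (p ^ 2)) ^ (1 + 1) = 0 := psq_zero p
  rw [h3, zero_dvd_iff, sub_eq_zero] at h2
  exact h2

theorem isUnit_of_red2 (r : ZMod (p ^ 2)) (h : red2 p r ≠ 0) : IsUnit r := by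
  obtain ⟨s, hs⟩ := red2_surj p (red2 p r)⁻¹
  have h1 : red2 p (r * s - 1) = 0 := by
    rw [map_sub, map_mul, hs, mul_inv_cancel₀ h, map_one, sub_self]
  obtain ⟨t, ht⟩ := red2_eq_zero p _ h1
  refine IsUnit.of_mul_eq_one (s * (1 - p * t)) ?_
  have h2 : r * s = 1 + p * t := by rw [← ht]; ring
  calc r * (s * (1 - p * t)) = (r * s) * (1 - p * t) := by ring
    _ = 1 - (p : ZMod (p ^ 2)) ^ 2 * t ^ 2 := by rw [h2]; ring
    _ = 1 := by rw [psq_zero]; ring

/-- Teichmüller lift modulo `p ^ 2`. -/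
def tau (x : ZMod p) : ZMod (p ^ 2) := ((x.val : ℕ) : ZMod (p ^ 2)) ^ p

theorem tau_red (r : ZMod (p ^ 2)) : tau p (red2 p r) = r ^ p := by
  apply pow_p_congr
  rw [map_natCast, ZMod.natCast_zmod_val]

theorem red_tau (x : ZMod p) : red2 p (tau p x) = x := by
  obtain ⟨r, rfl⟩ := red2_surj p x
  rw [tau_red, map_pow, ZMod.pow_card]

theorem tau_mul (x y : ZMod p) : tau p (x * y) = tau p x * tau p y := by
  obtain ⟨r, rfl⟩ := red2_surj p x
  obtain ⟨s, rfl⟩ := red2_surj p y
  rw [← map_mul, tau_red, tau_red, tau_red, mul_pow]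

theorem tau_one : tau p 1 = 1 := by
  rw [← map_one (red2 p), tau_red, one_pow]

theorem tau_zero : tau p 0 = 0 := by
  rw [← map_zero (red2 p), tau_red, zero_pow (Fact.out : p.Prime).ne_zero]

theorem tau_pow (x : ZMod p) (n : ℕ) : tau p (x ^ n) = tau p x ^ n := by
  induction n with
  | zero => rw [pow_zero, pow_zero, tau_one]
  | succ n ih => rw [pow_succ x, tau_mul, ih, pow_succ (tau p x)]

theorem tau_pow_p (x : ZMod p) : tau p x ^ p = tau p x := by
  rw [← tau_pow, ZMod.pow_card]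

theorem tau_pow_sub_one (x : ZMod p) (hx : x ≠ 0) : tau p x ^ (p - 1) = 1 := by
  rw [← tau_pow, ZMod.pow_card_sub_one_eq_one hx, tau_one]

/-- `τ(1 - x) = (1 - τ x) ^ p`. -/
theorem tau_one_sub (x : ZMod p) : tau p (1 - x) = (1 - tau p x) ^ p := by
  rw [← tau_red, map_sub, map_one, red_tau]

/-- Orthogonality, divisible case. -/
theorem sum_tau_dvd (n : ℕ) (hn : 0 < n) (h : (p - 1) ∣ n) :
    ∑ x : ZMod p, tau p x ^ n = (p : ZMod (p ^ 2)) - 1 := by
  obtain ⟨m, rfl⟩ := h
  have h1 : ∀ x : ZMod p, tau p x ^ ((p - 1) * m) = if x = 0 then 0 else 1 := by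
    intro x
    split_ifs with hx
    · rw [hx, tau_zero, zero_pow (by omega)]
    · rw [pow_mul, tau_pow_sub_one p x hx, one_pow]
  rw [sum_congr rfl fun x _ => h1 x]
  have h2 : ∀ x : ZMod p, (if x = 0 then (0 : ZMod (p ^ 2)) else 1) =
      1 - (if x = 0 then 1 else 0) := by
    intro x; split_ifs <;> ring
  rw [sum_congr rfl fun x _ => h2 x, sum_sub_distrib, sum_ite_eq' univ (0 : ZMod p)]
  simp [ZMod.card]

/-- Orthogonality, non-divisible case. -/
theorem sum_tau_ndvd (n : ℕ) (h : ¬ (p - 1) ∣ n) :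
    ∑ x : ZMod p, tau p x ^ n = 0 := by
  obtain ⟨g, hg⟩ := IsCyclic.exists_generator (α := (ZMod p)ˣ)
  have ho : orderOf g = p - 1 := by
    rw [orderOf_eq_card_of_forall_mem_zpowers hg, Nat.card_eq_fintype_card,
      ZMod.card_units_eq_totient, Nat.totient_prime Fact.out]
  have hgn : (g : ZMod p) ^ n ≠ 1 := by
    intro h1
    apply h
    rw [← ho, orderOf_dvd_iff_pow_eq_one]
    ext
    push_cast
    exact h1
  have h1 : tau p (g : ZMod p) ^ n * ∑ x : ZMod p, tau p x ^ n =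
      ∑ x : ZMod p, tau p x ^ n := by
    rw [mul_sum]
    refine Fintype.sum_equiv (Units.mulLeft g) _ _ fun x => ?_
    rw [← mul_pow, ← tau_mul]
    rfl
  have h2 : (tau p (g : ZMod p) ^ n - 1) * ∑ x : ZMod p, tau p x ^ n = 0 := by
    rw [sub_mul, h1, one_mul, sub_self]
  have h3 : IsUnit (tau p (g : ZMod p) ^ n - 1) := by
    apply isUnit_of_red2
    rw [map_sub, map_pow, red_tau, map_one]
    exact sub_ne_zero.mpr hgn
  exact h3.mul_right_eq_zero.mp h2

end Teich

/-! ### Part C: the Jacobi sum modulo `p ^ 2` -/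

section JacobiPart

variable (p N : ℕ) [Fact p.Prime]

theorem choose_pred (k : ℕ) (hk : k < p) : ((p - 1).choose k : ZMod p) = (-1) ^ k := by
  induction k with
  | zero => simp
  | succ k ih =>
    have h1 : p.choose (k + 1) = (p - 1).choose k + (p - 1).choose (k + 1) := by
      obtain ⟨q, hq⟩ : ∃ q, p = q + 1 := ⟨p - 1, by omega⟩
      rw [hq]
      exact Nat.choose_succ_succ q k
    have h2 : ((p.choose (k + 1) : ℕ) : ZMod p) = 0 := by
      rw [ZMod.natCast_eq_zero_iff]
      exact (Fact.out : p.Prime).dvd_choose_self (by omega) hk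
    rw [h1] at h2
    push_cast at h2
    rw [ih (by omega)] at h2
    rw [pow_succ]
    linear_combination h2

theorem coef_red (k : ℕ) (hk0 : 0 < k) (hk : k < p) :
    ((p.choose k / p : ℕ) : ZMod p) * (-1) ^ k = -1 / (k : ZMod p) := by
  have hd : p ∣ p.choose k := (Fact.out : p.Prime).dvd_choose_self (by omega) hk
  have hpos : 0 < p := by omega
  have h1 : (p.choose k / p) * k = (p - 1).choose (k - 1) := by
    obtain ⟨m, hm⟩ := hd
    have h2 := Nat.add_one_mul_choose_eq (p - 1) (k - 1)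
    rw [show p - 1 + 1 = p by omega, show k - 1 + 1 = k by omega, hm] at h2
    rw [hm, Nat.mul_div_cancel_left _ hpos]
    apply Nat.eq_of_mul_eq_mul_left hpos
    rw [h2]; ring
  have hk1 : (k : ZMod p) ≠ 0 := natCast_ne_zero_of_lt p k hk0 hk
  rw [eq_div_iff hk1]
  have h3 : ((p.choose k / p : ℕ) : ZMod p) * (k : ZMod p) = (-1) ^ (k - 1) := by
    rw [← Nat.cast_mul, h1, choose_pred p (k - 1) (by omega)]
  calc ((p.choose k / p : ℕ) : ZMod p) * (-1) ^ k * (k : ZMod p)
      = (((p.choose k / p : ℕ) : ZMod p) * (k : ZMod p)) * (-1) ^ k := by ring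
    _ = (-1) ^ (k - 1) * (-1) ^ k := by rw [h3]
    _ = -1 := by
        obtain ⟨m, rfl⟩ : ∃ m, k = m + 1 := ⟨k - 1, by omega⟩
        rw [Nat.add_sub_cancel, pow_succ, ← mul_assoc, ← mul_pow]
        simp

/-- Expansion of `(1 - y) ^ p` for odd `p = q + 1`. -/
theorem one_sub_pow_p (q : ℕ) (hq : p = q + 1) (hodd : Odd p) (y : ZMod (p ^ 2)) :
    (1 - y) ^ p = 1 - y ^ p + (p : ZMod (p ^ 2)) * ∑ k ∈ range q,
      ((p.choose (k + 1) / p : ℕ) : ZMod (p ^ 2)) * (-1) ^ (k + 1) * y ^ (k + 1) := by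
  have h0 : (1 - y) ^ p = ∑ m ∈ range (q + 1 + 1), (-y) ^ m * (p.choose m : ZMod (p ^ 2)) := by
    rw [show (1 - y) = -y + 1 by ring, add_pow, hq.symm]
    refine sum_congr rfl fun m _ => ?_
    rw [one_pow, mul_one]
  rw [h0, sum_range_succ, sum_range_succ']
  have h1 : (-y) ^ (q + 1) = - y ^ p := by rw [← hq]; exact hodd.neg_pow y
  have h2 : (p.choose (q + 1) : ZMod (p ^ 2)) = 1 := by rw [← hq]; simp
  rw [h1, h2, mul_sum]
  have h3 : ∀ k ∈ range q, (-y) ^ (k + 1) * (p.choose (k + 1) : ZMod (p ^ 2)) =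
      (p : ZMod (p ^ 2)) *
        (((p.choose (k + 1) / p : ℕ) : ZMod (p ^ 2)) * (-1) ^ (k + 1) * y ^ (k + 1)) := by
    intro k hk
    have hk' : k < q := by simpa using hk
    have hd : p ∣ p.choose (k + 1) :=
      (Fact.out : p.Prime).dvd_choose_self (by omega) (by omega)
    have h4 : (p.choose (k + 1) : ZMod (p ^ 2)) =
        (p : ZMod (p ^ 2)) * ((p.choose (k + 1) / p : ℕ) : ZMod (p ^ 2)) := by
      rw [← Nat.cast_mul, Nat.mul_div_cancel' hd]
    rw [h4, neg_pow y]
    ring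
  rw [sum_congr rfl h3]
  simp only [pow_zero, Nat.choose_zero_right, Nat.cast_one, mul_one]
  ring

omit [Fact p.Prime] in
/-- First order expansion. -/
theorem add_p_pow (a h : ZMod (p ^ 2)) (m : ℕ) :
    (a + (p : ZMod (p ^ 2)) * h) ^ (m + 1) =
      a ^ (m + 1) + ((m : ZMod (p ^ 2)) + 1) * a ^ m * ((p : ZMod (p ^ 2)) * h) := by
  induction m with
  | zero => simp
  | succ m ih =>
    have hz := psq_zero p
    rw [pow_succ _ (m + 1), ih]
    push_cast
    linear_combination (((m : ZMod (p ^ 2)) + 1) * a ^ m * h ^ 2) * hz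

/-- The Jacobi sum of `τ^{2N}`. -/
def jac : ZMod (p ^ 2) := ∑ x : ZMod p, tau p x ^ (2 * N) * tau p (1 - x) ^ (2 * N)

/-- The polynomial `H`. -/
def polyH (y : ZMod (p ^ 2)) : ZMod (p ^ 2) := ∑ k ∈ range (3 * N),
      ((p.choose (k + 1) / p : ℕ) : ZMod (p ^ 2)) * (-1) ^ (k + 1) * y ^ (k + 1)

theorem jac_split (hp : p = 3 * N + 1) (hN : 0 < N) (he : Even N) :
    jac p N = ∑ x : ZMod p, tau p x ^ (2 * N) * (1 - tau p x) ^ (2 * N) +
      2 * (N : ZMod (p ^ 2)) * ((p : ZMod (p ^ 2)) * ∑ x : ZMod p, tau p x ^ (2 * N) *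
        ((1 - tau p x) ^ (2 * N - 1) * polyH p N (tau p x))) := by
  have hodd : Odd p := by
    rw [hp]
    exact (he.mul_left 3).add_one
  unfold jac
  rw [mul_sum, mul_sum, ← sum_add_distrib]
  refine sum_congr rfl fun x _ => ?_
  have h1 : tau p (1 - x) = (1 - tau p x) + p * polyH p N (tau p x) := by
    rw [tau_one_sub, one_sub_pow_p p (3 * N) hp hodd, tau_pow_p]
    rfl
  obtain ⟨M, hM⟩ : ∃ M, 2 * N = M + 1 := ⟨2 * N - 1, by omega⟩
  have hM' : (2 * (N : ZMod (p ^ 2))) = M + 1 := by exact_mod_cast congrArg Nat.cast hM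
  rw [h1, hM, add_p_pow, hM', Nat.add_sub_cancel]
  ring

theorem sum_first (hp : p = 3 * N + 1) (hN : 0 < N) (he : Even N) :
    ∑ x : ZMod p, tau p x ^ (2 * N) * (1 - tau p x) ^ (2 * N) =
      ((2 * N).choose N : ZMod (p ^ 2)) * (p - 1) := by
  have h1 : ∀ x : ZMod p, tau p x ^ (2 * N) * (1 - tau p x) ^ (2 * N) =
      ∑ j ∈ range (2 * N + 1), (-1) ^ j * ((2 * N).choose j : ZMod (p ^ 2)) *
        tau p x ^ (2 * N + j) := by
    intro x
    rw [show (1 - tau p x) = -tau p x + 1 by ring, add_pow, mul_sum]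
    refine sum_congr rfl fun j _ => ?_
    rw [one_pow, mul_one, neg_pow, pow_add]
    ring
  rw [sum_congr rfl fun x _ => h1 x, sum_comm]
  have hpm : p - 1 = 3 * N := by omega
  rw [sum_eq_single N]
  · rw [← mul_sum, sum_tau_dvd p (2 * N + N) (by omega) (by rw [hpm]; exact ⟨1, by ring⟩),
      he.neg_one_pow, one_mul]
  · intro j hj hjN
    have hj' : j < 2 * N + 1 := by simpa using hj
    rw [← mul_sum, sum_tau_ndvd p (2 * N + j), mul_zero]
    rw [hpm]
    rintro ⟨c, hc⟩
    have hc1 : c < 2 := by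
      by_contra hcc
      have : 3 * N * 2 ≤ 3 * N * c := Nat.mul_le_mul_left _ (by omega)
      omega
    interval_cases c <;> omega
  · intro h
    exact absurd (mem_range.mpr (by omega)) h

/-- The index paired with `j`. -/
def kk (j : ℕ) : ℕ := if j < N then N - j else 4 * N - j

theorem sum_second (hp : p = 3 * N + 1) (hN : 0 < N) :
    (p : ZMod (p ^ 2)) * ∑ x : ZMod p, tau p x ^ (2 * N) * ((1 - tau p x) ^ (2 * N - 1) *
        polyH p N (tau p x)) =
      (p : ZMod (p ^ 2)) * ∑ j ∈ range (2 * N), -((-1) ^ j * ((2 * N - 1).choose j : ZMod (p ^ 2)) *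
        (((p.choose (kk N j) / p : ℕ) : ZMod (p ^ 2)) * (-1) ^ (kk N j))) := by
  have hpm : p - 1 = 3 * N := by omega
  have h1 : ∀ x : ZMod p, tau p x ^ (2 * N) * ((1 - tau p x) ^ (2 * N - 1) *
      polyH p N (tau p x)) =
      ∑ j ∈ range (2 * N), ∑ k ∈ range (3 * N), ((-1) ^ j *
        ((2 * N - 1).choose j : ZMod (p ^ 2))) *
        (((p.choose (k + 1) / p : ℕ) : ZMod (p ^ 2)) * (-1) ^ (k + 1)) *
        tau p x ^ (2 * N + j + (k + 1)) := by
    intro x
    unfold polyH
    rw [show (1 - tau p x) = -tau p x + 1 by ring, add_pow,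
      show 2 * N - 1 + 1 = 2 * N by omega, sum_mul_sum, mul_sum]
    refine sum_congr rfl fun j _ => ?_
    rw [mul_sum]
    refine sum_congr rfl fun k _ => ?_
    rw [one_pow, mul_one, neg_pow (tau p x), pow_add (tau p x) (2 * N + j),
      pow_add (tau p x) (2 * N)]
    ring
  rw [sum_congr rfl fun x _ => h1 x, sum_comm, mul_sum, mul_sum]
  refine sum_congr rfl fun j hj => ?_
  have hj' : j < 2 * N := by simpa using hj
  rw [sum_comm]
  have hkk : kk N j - 1 + 1 = kk N j := by unfold kk; split_ifs <;> omega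
  rw [sum_eq_single (kk N j - 1)]
  · rw [← mul_sum, sum_tau_dvd p _ (by omega), hkk]
    · have hz := psq_zero p
      linear_combination ((-1) ^ j * ((2 * N - 1).choose j : ZMod (p ^ 2)) *
        (((p.choose (kk N j) / p : ℕ) : ZMod (p ^ 2)) * (-1) ^ (kk N j))) * hz
    · rw [hpm, hkk]
      unfold kk
      split_ifs with h
      · exact ⟨1, by omega⟩
      · exact ⟨2, by omega⟩
  · intro k hk hkj
    have hk' : k < 3 * N := by simpa using hk
    rw [← mul_sum, sum_tau_ndvd p _, mul_zero]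
    rw [hpm]
    rintro ⟨c, hc⟩
    have hc1 : c < 3 := by
      by_contra hcc
      have : 3 * N * 3 ≤ 3 * N * c := Nat.mul_le_mul_left _ (by omega)
      omega
    have hkj' : k + 1 ≠ kk N j := by omega
    unfold kk at hkj'
    split_ifs at hkj' with h <;> interval_cases c <;> omega
  · intro h
    exfalso
    apply h
    rw [mem_range]
    unfold kk
    split_ifs <;> omega

theorem red_second (hp : p = 3 * N + 1) (hN : 0 < N) :
    red2 p (∑ j ∈ range (2 * N), -((-1) ^ j * ((2 * N - 1).choose j : ZMod (p ^ 2)) *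
        (((p.choose (kk N j) / p : ℕ) : ZMod (p ^ 2)) * (-1) ^ (kk N j)))) =
      2 * ∑ j ∈ range N, (-1 : ZMod p) ^ j * ((2 * N - 1).choose j : ZMod p) /
      ((N : ZMod p) - j) := by
  have h3 : (3 * (N : ZMod p) + 1) = 0 := by
    have h : ((3 * N + 1 : ℕ) : ZMod p) = ((p : ℕ) : ZMod p) := by rw [← hp]
    rw [ZMod.natCast_self p] at h
    exact_mod_cast h
  rw [map_sum]
  have h1 : ∀ j ∈ range (2 * N), red2 p (-((-1) ^ j * ((2 * N - 1).choose j : ZMod (p ^ 2)) *
        (((p.choose (kk N j) / p : ℕ) : ZMod (p ^ 2)) * (-1) ^ (kk N j)))) =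
      (-1) ^ j * ((2 * N - 1).choose j : ZMod p) / (kk N j : ZMod p) := by
    intro j hj
    have hj' : j < 2 * N := by simpa using hj
    have hk0 : 0 < kk N j := by unfold kk; split_ifs <;> omega
    have hk1 : kk N j < p := by unfold kk; split_ifs <;> omega
    rw [map_neg, map_mul, map_mul, map_mul, map_pow, map_pow, map_neg, map_one, map_natCast,
      map_natCast, coef_red p (kk N j) hk0 hk1]
    ring
  rw [sum_congr rfl h1, show 2 * N = N + N by ring, sum_range_add, two_mul]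
  congr 1
  · refine sum_congr rfl fun j hj => ?_
    have hj' : j < N := by simpa using hj
    have : (kk N j : ZMod p) = (N : ZMod p) - j := by
      unfold kk
      rw [if_pos hj', Nat.cast_sub hj'.le]
    rw [this]
  · rw [← sum_range_reflect]
    refine sum_congr rfl fun j hj => ?_
    have hj' : j < N := by simpa using hj
    have e1 : (kk N (N + (N - 1 - j)) : ZMod p) = -((N : ZMod p) - j) := by
      unfold kk
      rw [if_neg (by omega), show 4 * N - (N + (N - 1 - j)) = 2 * N + 1 + j by omega]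
      push_cast
      linear_combination h3
    have e2 : (N + N - 1).choose (N + (N - 1 - j)) = (N + N - 1).choose j := by
      rw [show N + (N - 1 - j) = (N + N - 1) - j by omega, Nat.choose_symm (by omega)]
    have e3 : (-1 : ZMod p) ^ (N + (N - 1 - j)) = - (-1) ^ j := by
      have h4 : (-1 : ZMod p) ^ (N + (N - 1 - j)) * (-1) ^ j = -1 := by
        rw [← pow_add, show N + (N - 1 - j) + j = 2 * (N - 1) + 1 by omega, pow_succ, pow_mul]
        simp
      have h5 : ((-1 : ZMod p) ^ j) * (-1) ^ j = 1 := by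
        rw [← mul_pow]; simp
      calc (-1 : ZMod p) ^ (N + (N - 1 - j))
          = (-1 : ZMod p) ^ (N + (N - 1 - j)) * (((-1 : ZMod p) ^ j) * (-1) ^ j) := by
            rw [h5, mul_one]
        _ = ((-1 : ZMod p) ^ (N + (N - 1 - j)) * (-1) ^ j) * (-1) ^ j := by ring
        _ = - (-1) ^ j := by rw [h4]; ring
    rw [e1, e2, e3, div_neg]
    ring

/-- The Jacobi sum modulo `p ^ 2` is minus the binomial coefficient. -/
theorem jac_eq (hp : p = 3 * N + 1) (hN : 0 < N) (he : Even N) :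
    jac p N = -((2 * N).choose N : ZMod (p ^ 2)) := by
  rw [jac_split p N hp hN he, sum_first p N hp hN he, sum_second p N hp hN]
  have h1 := red_second p N hp hN
  set w := ∑ j ∈ range (2 * N), -((-1) ^ j * ((2 * N - 1).choose j : ZMod (p ^ 2)) *
        (((p.choose (kk N j) / p : ℕ) : ZMod (p ^ 2)) * (-1) ^ (kk N j))) with hw
  have h2 : (p : ZMod (p ^ 2)) * (((2 * N).choose N : ZMod (p ^ 2)) + 2 * N * w) = 0 := by
    apply p_mul_eq_zero
    rw [map_add, map_mul, map_mul, map_natCast, map_natCast, h1, map_ofNat]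
    have h3 := sigma_one p N hp hN he
    linear_combination h3
  linear_combination h2

end JacobiPart

/-! ### Part D: the norm relation and the main theorem -/

section NormPart

variable (p N : ℕ) [Fact p.Prime]

/-- Number of `x` with `(x (1 - x)) ^ N = z ^ i`. -/
def cnt (z : ZMod p) (i : ℕ) : ℕ :=
  (univ.filter fun x : ZMod p => (x * (1 - x)) ^ N = z ^ i).card

theorem sum_cnt {A : Type*} [CommRing A] (z : ZMod p) (hz : IsPrimitiveRoot z 3) (hN : 0 < N)
    (hall : ∀ y : ZMod p, y ≠ 0 → ∃ i < 3, y ^ N = z ^ i)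
    (φ : ZMod p → A) (w : A) (h0 : φ 0 = 0)
    (hφ : ∀ y : ZMod p, y ≠ 0 → ∀ i < 3, y ^ N = z ^ i → φ y = w ^ i) :
    ∑ x : ZMod p, φ (x * (1 - x)) =
      (cnt p N z 0 : A) + (cnt p N z 1 : A) * w + (cnt p N z 2 : A) * w ^ 2 := by
  have h1 : ∀ i : ℕ, (cnt p N z i : A) * w ^ i =
      ∑ x : ZMod p, if (x * (1 - x)) ^ N = z ^ i then w ^ i else 0 := by
    intro i
    unfold cnt
    rw [← sum_filter, sum_const, nsmul_eq_mul]
  have h2 : (cnt p N z 0 : A) + (cnt p N z 1 : A) * w + (cnt p N z 2 : A) * w ^ 2 =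
      ∑ i ∈ range 3, (cnt p N z i : A) * w ^ i := by
    rw [sum_range_succ, sum_range_succ, sum_range_succ, sum_range_zero]
    ring
  rw [h2, sum_congr rfl fun i _ => h1 i, sum_comm]
  refine sum_congr rfl fun x _ => ?_
  have hz0 : z ≠ 0 := hz.ne_zero (by norm_num)
  by_cases hy : x * (1 - x) = 0
  · rw [hy, h0, sum_eq_zero]
    intro i _
    rw [if_neg]
    rw [zero_pow (by omega)]
    exact (pow_ne_zero i hz0).symm
  · obtain ⟨i, hi, hyi⟩ := hall _ hy
    rw [hφ _ hy i hi hyi, sum_eq_single i]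
    · rw [if_pos hyi]
    · intro j hj hji
      rw [if_neg]
      intro h
      exact hji (hz.pow_inj (by simpa using hj) hi (h.symm.trans hyi))
    · intro h
      exact absurd (mem_range.mpr hi) h

/-- The norm form of the three counts is `p`. -/
theorem cnt_norm (hp : p = 3 * N + 1) (hN : 0 < N) : ∃ z : ZMod p, IsPrimitiveRoot z 3 ∧
    (∀ y : ZMod p, y ≠ 0 → ∃ i < 3, y ^ N = z ^ i) ∧
    (cnt p N z 0 : ℤ) ^ 2 + (cnt p N z 1 : ℤ) ^ 2 + (cnt p N z 2 : ℤ) ^ 2 -
      cnt p N z 0 * cnt p N z 1 - cnt p N z 1 * cnt p N z 2 - cnt p N z 0 * cnt p N z 2 = p := by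
  obtain ⟨g, hg⟩ := IsCyclic.exists_generator (α := (ZMod p)ˣ)
  have ho : orderOf g = p - 1 := by
    rw [orderOf_eq_card_of_forall_mem_zpowers hg, Nat.card_eq_fintype_card,
      ZMod.card_units_eq_totient, Nat.totient_prime Fact.out]
  have hgen : ∀ y : ZMod p, y ≠ 0 → ∃ a : ℕ, y = (g : ZMod p) ^ a := by
    intro y hy
    obtain ⟨a, ha⟩ := (mem_powers_iff_mem_zpowers (x := g) (y := Units.mk0 y hy)).mpr (hg _)
    refine ⟨a, ?_⟩
    have := congrArg (fun u : (ZMod p)ˣ => (u : ZMod p)) ha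
    simpa using this.symm
  have hz : IsPrimitiveRoot ((g : ZMod p) ^ N) 3 := by
    have h1 : IsPrimitiveRoot g (3 * N) := by
      have := IsPrimitiveRoot.orderOf g
      rwa [ho, show p - 1 = 3 * N by omega] at this
    have h2 := (IsPrimitiveRoot.coe_units_iff (ζ := g)).mpr h1
    exact h2.pow (by omega) (by ring)
  have hza : ∀ a : ℕ, ((g : ZMod p) ^ a) ^ N = ((g : ZMod p) ^ N) ^ (a % 3) := by
    intro a
    rw [← pow_mul, mul_comm, pow_mul]
    conv_lhs => rw [← Nat.div_add_mod a 3, pow_add, pow_mul, hz.pow_eq_one, one_pow, one_mul]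
  refine ⟨(g : ZMod p) ^ N, hz, ?_, ?_⟩
  · intro y hy
    obtain ⟨a, rfl⟩ := hgen y hy
    exact ⟨a % 3, Nat.mod_lt _ (by norm_num), hza a⟩
  · have hall : ∀ y : ZMod p, y ≠ 0 → ∃ i < 3, y ^ N = ((g : ZMod p) ^ N) ^ i := by
      intro y hy
      obtain ⟨a, rfl⟩ := hgen y hy
      exact ⟨a % 3, Nat.mod_lt _ (by norm_num), hza a⟩
    obtain ⟨χ, hχ⟩ := MulChar.exists_mulChar_orderOf (ZMod p) (n := 3) (R := ℂ)
      (by rw [ZMod.card]; exact ⟨N, by omega⟩) (Complex.isPrimitiveRoot_exp 3 (by norm_num))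
    have hχ3 : χ ^ 3 = 1 := by rw [← hχ]; exact pow_orderOf_eq_one χ
    have hχ1 : χ ≠ 1 := by
      intro h
      rw [h, orderOf_one] at hχ
      norm_num at hχ
    have hχ2 : χ * χ ≠ 1 := by
      intro h
      have h1 : χ ^ 2 = 1 := by rw [pow_two, h]
      have h2 := orderOf_dvd_of_pow_eq_one h1
      rw [hχ] at h2
      norm_num at h2
    have hw3 : χ (g : ZMod p) ^ 3 = 1 := by
      have h1 : (χ ^ 3) (g : ZMod p) = 1 := by
        rw [hχ3]
        exact MulChar.one_apply_coe g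
      rwa [MulChar.pow_apply' χ (by norm_num)] at h1
    have hw1 : χ (g : ZMod p) ≠ 1 := by
      intro h
      apply hχ1
      apply MulChar.ext
      intro u
      obtain ⟨a, ha⟩ := hgen u u.ne_zero
      rw [MulChar.one_apply_coe, ha, map_pow, h, one_pow]
    have hw : 1 + χ (g : ZMod p) + χ (g : ZMod p) ^ 2 = 0 := by
      have h1 : (χ (g : ZMod p) - 1) * (1 + χ (g : ZMod p) + χ (g : ZMod p) ^ 2) = 0 := by
        linear_combination hw3
      exact (mul_eq_zero.mp h1).resolve_left (sub_ne_zero.mpr hw1)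
    have hval : ∀ y : ZMod p, y ≠ 0 → ∀ i < 3, y ^ N = ((g : ZMod p) ^ N) ^ i →
        χ y = χ (g : ZMod p) ^ i := by
      intro y hy i hi h
      obtain ⟨a, rfl⟩ := hgen y hy
      rw [hza] at h
      have h1 := hz.pow_inj (Nat.mod_lt _ (by norm_num)) hi h
      rw [map_pow, ← h1]
      conv_lhs => rw [← Nat.div_add_mod a 3, pow_add, pow_mul, hw3, one_pow, one_mul]
    have hJ1 : jacobiSum χ χ = ∑ x : ZMod p, χ (x * (1 - x)) := by
      unfold jacobiSum
      exact sum_congr rfl fun x _ => (map_mul χ _ _).symm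
    have hJ2 : jacobiSum χ⁻¹ χ⁻¹ = ∑ x : ZMod p, χ⁻¹ (x * (1 - x)) := by
      unfold jacobiSum
      exact sum_congr rfl fun x _ => (map_mul χ⁻¹ _ _).symm
    have hS1 := sum_cnt p N ((g : ZMod p) ^ N) hz hN hall (fun y => χ y) (χ (g : ZMod p))
      (MulChar.map_zero χ) hval
    have hS2 := sum_cnt p N ((g : ZMod p) ^ N) hz hN hall (fun y => χ⁻¹ y)
      (χ (g : ZMod p) ^ 2) (MulChar.map_zero χ⁻¹) (by
        intro y hy i hi h
        simp only [MulChar.inv_apply_eq_inv']
        rw [hval y hy i hi h]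
        apply inv_eq_of_mul_eq_one_right
        rw [← mul_pow, ← pow_succ', hw3, one_pow])
    have hmul := jacobiSum_mul_jacobiSum_inv (F := ZMod p) (F' := ℂ)
      (by
        rw [ringChar.eq ℂ 0, ZMod.ringChar_zmod_n]
        exact (Fact.out : p.Prime).ne_zero.symm) hχ1 hχ1 hχ2
    rw [hJ1, hJ2, hS1, hS2, ZMod.card] at hmul
    set w := χ (g : ZMod p) with hwdef
    have hC : ((cnt p N ((g : ZMod p) ^ N) 0 : ℂ)) ^ 2 + (cnt p N ((g : ZMod p) ^ N) 1 : ℂ) ^ 2 +
        (cnt p N ((g : ZMod p) ^ N) 2 : ℂ) ^ 2 -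
        (cnt p N ((g : ZMod p) ^ N) 0 : ℂ) * (cnt p N ((g : ZMod p) ^ N) 1 : ℂ) -
        (cnt p N ((g : ZMod p) ^ N) 1 : ℂ) * (cnt p N ((g : ZMod p) ^ N) 2 : ℂ) -
        (cnt p N ((g : ZMod p) ^ N) 0 : ℂ) * (cnt p N ((g : ZMod p) ^ N) 2 : ℂ) = (p : ℂ) := by
      have hw2 : w ^ 2 = -1 - w := by linear_combination hw
      have hw5 : w * w = -1 - w := by rw [← hw2]; ring
      rw [← hmul, hw2]
      generalize (cnt p N ((g : ZMod p) ^ N) 0 : ℂ) = a
      generalize (cnt p N ((g : ZMod p) ^ N) 1 : ℂ) = b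
      generalize (cnt p N ((g : ZMod p) ^ N) 2 : ℂ) = c
      have e : (a + b * w + c * (-1 - w)) * (a + b * (-1 - w) + c * (-1 - w) ^ 2) =
          (a - c + (b - c) * w) * (a - b + (c - b) * w) := by
        linear_combination ((a - c + (b - c) * w) * c) * hw5
      rw [e]
      linear_combination (-(b - c) * (c - b)) * hw5
    exact_mod_cast hC

end NormPart

/-! ### Part E: assembly -/

theorem red2_choose_ne_zero (p N : ℕ) [Fact p.Prime] (hp : p = 3 * N + 1) :
    red2 p ((2 * N).choose N : ZMod (p ^ 2)) ≠ 0 := by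
  rw [map_natCast]
  intro h
  rw [ZMod.natCast_eq_zero_iff] at h
  have h1 : p ∣ (2 * N).factorial := by
    rw [← Nat.choose_mul_factorial_mul_factorial (show N ≤ 2 * N by omega)]
    exact Dvd.dvd.mul_right (Dvd.dvd.mul_right h _) _
  have h2 := ((Fact.out : p.Prime).dvd_factorial).mp h1
  omega

theorem jac_counts (p N : ℕ) [Fact p.Prime] (hN : 0 < N)
    (z : ZMod p) (hz : IsPrimitiveRoot z 3)
    (hall : ∀ y : ZMod p, y ≠ 0 → ∃ i < 3, y ^ N = z ^ i) :
    jac p N = (cnt p N z 0 : ZMod (p ^ 2)) + (cnt p N z 1 : ZMod (p ^ 2)) * tau p z ^ 2 +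
      (cnt p N z 2 : ZMod (p ^ 2)) * (tau p z ^ 2) ^ 2 := by
  have h1 : jac p N = ∑ x : ZMod p, (fun y => tau p y ^ (2 * N)) (x * (1 - x)) := by
    unfold jac
    refine sum_congr rfl fun x _ => ?_
    rw [← mul_pow, ← tau_mul]
  rw [h1]
  refine sum_cnt p N z hz hN hall (fun y => tau p y ^ (2 * N)) (tau p z ^ 2) ?_ ?_
  · simp only [tau_zero]
    exact zero_pow (by omega)
  · intro y _ i _ h
    rw [show 2 * N = N * 2 by ring, pow_mul, ← tau_pow, h, tau_pow, ← pow_mul, ← pow_mul,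
      mul_comm]

/-- The binomial coefficient `C(2(p-1)/3, (p-1)/3)` modulo `p ^ 2` for `p ≡ 1 (mod 3)`. -/
theorem jacobi_main (p : ℕ) [Fact p.Prime] (h3 : p % 3 = 1) : ∃ T S : ℤ,
    4 * (p : ℤ) = T ^ 2 + 3 * S ^ 2 ∧
    (T : ZMod (p ^ 2)) * ((Nat.choose (2 * ((p - 1) / 3)) ((p - 1) / 3) : ℕ) : ZMod (p ^ 2)) =
      -((T : ZMod (p ^ 2)) ^ 2 - p) := by
  have hpr : p.Prime := Fact.out
  have hp2 : 2 ≤ p := hpr.two_le
  set N := (p - 1) / 3 with hNdef
  have hp : p = 3 * N + 1 := by omega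
  have hN : 0 < N := by omega
  have hne2 : p ≠ 2 := by omega
  have hodd : p % 2 = 1 := Nat.odd_iff.mp (hpr.odd_of_ne_two hne2)
  have he : Even N := by
    rw [Nat.even_iff]
    omega
  obtain ⟨z, hz, hall, hnorm⟩ := cnt_norm p N hp hN
  have hJ := jac_counts p N hN z hz hall
  rw [jac_eq p N hp hN he] at hJ
  have hnormR := congrArg (fun k : ℤ => (k : ZMod (p ^ 2))) hnorm
  push_cast at hnormR
  have hZ3 : tau p z ^ 3 = 1 := by rw [← tau_pow, hz.pow_eq_one, tau_one]
  have hZ : tau p z ^ 2 + tau p z + 1 = 0 := by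
    have hu : IsUnit (tau p z - 1) := by
      apply isUnit_of_red2
      rw [map_sub, red_tau, map_one]
      exact sub_ne_zero.mpr (hz.ne_one (by norm_num))
    apply hu.mul_right_eq_zero.mp
    linear_combination hZ3
  refine ⟨2 * (cnt p N z 0 : ℤ) - cnt p N z 1 - cnt p N z 2,
    (cnt p N z 1 : ℤ) - cnt p N z 2, ?_, ?_⟩
  · rw [← hnorm]; ring
  · push_cast
    have hu := isUnit_of_red2 p _ (red2_choose_ne_zero p N hp)
    have hpz := psq_zero p
    generalize (cnt p N z 0 : ZMod (p ^ 2)) = a at *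
    generalize (cnt p N z 1 : ZMod (p ^ 2)) = b at *
    generalize (cnt p N z 2 : ZMod (p ^ 2)) = c at *
    generalize ((2 * N).choose N : ZMod (p ^ 2)) = C at *
    generalize tau p z = Z at *
    have hJ' : -C = a + b * Z ^ 2 + c * Z := by
      rw [hJ]
      linear_combination (c * Z) * hZ3
    have hprod : C * (a + b * Z + c * Z ^ 2) = -(p : ZMod (p ^ 2)) := by
      linear_combination (-(a + b * Z + c * Z ^ 2)) * hJ' -
        (b ^ 2 + c ^ 2 + b * c * Z) * hZ3 - (a * b + a * c + b * c) * hZ - hnormR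
    have hsq : (a + b * Z + c * Z ^ 2) ^ 2 = 0 := by
      apply (hu.pow 2).mul_right_eq_zero.mp
      calc C ^ 2 * (a + b * Z + c * Z ^ 2) ^ 2 = (C * (a + b * Z + c * Z ^ 2)) ^ 2 := by ring
        _ = (p : ZMod (p ^ 2)) ^ 2 := by rw [hprod]; ring
        _ = 0 := hpz
    linear_combination hsq - hprod -
      ((a + b * Z + c * Z ^ 2) + (2 * a - b - c)) * hJ' -
      (b + c) * ((a + b * Z + c * Z ^ 2) + (2 * a - b - c)) * hZ

end Glaisher
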