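import Mathlib

/-!
A root of unity which is a root of a non-zero polynomial of degree at most `3` over
`ℚ(√-3)` has order dividing `12` or `18`.
-/

namespace Glaisher

open IntermediateField

theorem totient_le_six {k : ℕ} (hk : 0 < k) (h3 : 3 ∣ k) (h : k.totient ≤ 6) :
    k ∣ 12 ∨ k ∣ 18 := by
  have hd : ∀ d, d ∣ k → d.totient ≤ 6 := fun d hd =>
    (Nat.le_of_dvd (Nat.totient_pos.mpr hk) (Nat.totient_dvd_of_dvd hd)).trans h
  have h8 : ¬ 8 ∣ k := by
    intro h8
    have : 24 ∣ k := by
      have : Nat.Coprime 3 8 := by decide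
      exact this.mul_dvd_of_dvd_of_dvd h3 h8
    have := hd 24 this
    revert this; decide
  have h27 : ¬ 27 ∣ k := by
    intro h27
    have := hd 27 h27
    revert this; decide
  have h36 : ¬ 36 ∣ k := by
    intro h36
    have := hd 36 h36
    revert this; decide
  have hprime : ∀ q : ℕ, q.Prime → q ∣ k → q = 2 ∨ q = 3 := by
    intro q hq hqk
    by_contra hne
    push Not at hne
    have h5 : 5 ≤ q := by
      have h2 := hq.two_le
      by_contra hlt
      push Not at hlt
      interval_cases q <;> simp_all (config := { decide := true })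
    have hcop : Nat.Coprime 3 q := by
      rw [Nat.coprime_primes Nat.prime_three hq]; exact fun h => hne.2 h.symm
    have h3q := hd (3 * q) (hcop.mul_dvd_of_dvd_of_dvd h3 hqk)
    rw [Nat.totient_mul hcop, Nat.totient_prime Nat.prime_three, Nat.totient_prime hq] at h3q
    omega
  -- write `k = 2 ^ a * 3 ^ b`
  have hk36 : k ∣ 36 := by
    rw [← Nat.factorization_le_iff_dvd hk.ne' (by norm_num)]
    intro q
    by_cases hq : q.Prime
    · by_cases hqk : q ∣ k
      · rcases hprime q hq hqk with rfl | rfl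
        · have h1 : k.factorization 2 ≤ 2 := by
            by_contra hlt
            push Not at hlt
            exact h8 ((Nat.pow_dvd_pow 2 hlt).trans (Nat.ordProj_dvd k 2))
          have h2 : (36 : ℕ).factorization 2 = 2 := by
            have : (36 : ℕ) = 2 ^ 2 * 3 ^ 2 := by norm_num
            rw [this, Nat.factorization_mul (by norm_num) (by norm_num),
              Nat.Prime.factorization_pow Nat.prime_two, Nat.Prime.factorization_pow Nat.prime_three]
            simp
          rw [h2]; exact h1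
        · have h1 : k.factorization 3 ≤ 2 := by
            by_contra hlt
            push Not at hlt
            exact h27 ((Nat.pow_dvd_pow 3 hlt).trans (Nat.ordProj_dvd k 3))
          have h2 : (36 : ℕ).factorization 3 = 2 := by
            have : (36 : ℕ) = 2 ^ 2 * 3 ^ 2 := by norm_num
            rw [this, Nat.factorization_mul (by norm_num) (by norm_num),
              Nat.Prime.factorization_pow Nat.prime_two, Nat.Prime.factorization_pow Nat.prime_three]
            simp
          rw [h2]; exact h1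
      · rw [Nat.factorization_eq_zero_of_not_dvd hqk]; exact Nat.zero_le _
    · rw [Nat.factorization_eq_zero_of_not_prime _ hq]; exact Nat.zero_le _
  have hle : k ≤ 36 := Nat.le_of_dvd (by norm_num) hk36
  interval_cases k <;> revert h36 hk36 <;> decide

/-- `θ` is irrational. -/
theorem lin_indep {θ : ℂ} (hθ : θ ^ 2 = -3) {b c : ℚ} (h : (b : ℂ) + c * θ = 0) :
    b = 0 ∧ c = 0 := by
  have h1 : (b : ℂ) ^ 2 + 3 * (c : ℂ) ^ 2 = 0 := by
    linear_combination (b - (c : ℂ) * θ) * h + (c : ℂ) ^ 2 * hθ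
  have h2 : b ^ 2 + 3 * c ^ 2 = 0 := by exact_mod_cast h1
  have hb : b ^ 2 = 0 := by nlinarith [sq_nonneg b, sq_nonneg c]
  have hc : c ^ 2 = 0 := by nlinarith [sq_nonneg b, sq_nonneg c]
  exact ⟨pow_eq_zero_iff two_ne_zero |>.mp hb, pow_eq_zero_iff two_ne_zero |>.mp hc⟩

theorem tower {θ : ℂ} (hθ : θ ^ 2 = -3) {m : ℕ} (hm : 0 < m) {ζ : ℂ} (hζ : IsPrimitiveRoot ζ m)
    (b c : Fin 4 → ℚ) (hne : ∃ i, b i ≠ 0 ∨ c i ≠ 0)
    (h0 : ∑ i : Fin 4, ((b i : ℂ) + (c i : ℂ) * θ) * ζ ^ (i : ℕ) = 0) : m ∣ 12 ∨ m ∣ 18 := by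
  classical
  set K : IntermediateField ℚ ℂ := ℚ⟮θ⟯ with hK
  have hθK : θ ∈ K := IntermediateField.mem_adjoin_simple_self ℚ θ
  -- degree of `K`
  have hθpoly : Polynomial.aeval θ (Polynomial.X ^ 2 + Polynomial.C 3 : Polynomial ℚ) = 0 := by
    simp [hθ]
  have hθmonic : (Polynomial.X ^ 2 + Polynomial.C 3 : Polynomial ℚ).Monic :=
    Polynomial.monic_X_pow_add_C 3 (by norm_num)
  have hθint : IsIntegral ℚ θ := ⟨_, hθmonic, hθpoly⟩
  have hKfin : FiniteDimensional ℚ K := IntermediateField.adjoin.finiteDimensional hθint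
  have hKrank : Module.finrank ℚ K ≤ 2 := by
    rw [hK, IntermediateField.adjoin.finrank hθint]
    refine (Polynomial.natDegree_le_of_dvd (minpoly.dvd ℚ θ hθpoly) hθmonic.ne_zero).trans ?_
    rw [Polynomial.natDegree_X_pow_add_C]
  -- the polynomial over `K`
  set θK : K := ⟨θ, hθK⟩ with hθK'
  set f : Polynomial K := ∑ i : Fin 4, Polynomial.C ((algebraMap ℚ K (b i)) +
    (algebraMap ℚ K (c i)) * θK) * Polynomial.X ^ (i : ℕ) with hf
  have hcoe : ∀ i, (((algebraMap ℚ K (b i)) + (algebraMap ℚ K (c i)) * θK : K) : ℂ) =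
      (b i : ℂ) + (c i : ℂ) * θ := by
    intro i
    simp [hθK']
  have hfaeval : Polynomial.aeval ζ f = 0 := by
    rw [hf, map_sum]
    simp only [map_mul, Polynomial.aeval_C, map_pow, Polynomial.aeval_X]
    rw [← h0]
    refine Finset.sum_congr rfl fun i _ => ?_
    rw [← hcoe i]
    rfl
  have hfne : f ≠ 0 := by
    obtain ⟨i, hi⟩ := hne
    intro h
    have h1 := congrArg (fun q => Polynomial.coeff q (i : ℕ)) h
    simp only [hf, Polynomial.finsetSum_coeff, Polynomial.coeff_C_mul, Polynomial.coeff_X_pow,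
      Polynomial.coeff_zero] at h1
    rw [Finset.sum_eq_single i] at h1
    · rw [if_pos rfl, mul_one] at h1
      have h2 := congrArg (fun z : K => (z : ℂ)) h1
      simp only [hcoe i] at h2
      have h3 := lin_indep hθ (b := b i) (c := c i) (by simpa using h2)
      rcases hi with hi | hi
      · exact hi h3.1
      · exact hi h3.2
    · intro j _ hj
      rw [if_neg (fun h => hj (Fin.ext h.symm)), mul_zero]
    · intro h; exact absurd (Finset.mem_univ i) h
  have hfdeg : f.natDegree ≤ 3 := by
    rw [hf]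
    refine Polynomial.natDegree_sum_le_of_forall_le _ _ fun i _ => ?_
    refine (Polynomial.natDegree_C_mul_X_pow_le _ _).trans ?_
    have := i.2
    omega
  have hζint : IsIntegral K ζ := by
    have h1 : IsIntegral ℤ ζ := hζ.isIntegral hm
    exact (h1.tower_top : IsIntegral K ζ)
  set L : IntermediateField K ℂ := K⟮ζ⟯ with hL
  have hLfin : FiniteDimensional K L := IntermediateField.adjoin.finiteDimensional hζint
  have hLrank : Module.finrank K L ≤ 3 := by
    rw [hL, IntermediateField.adjoin.finrank hζint]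
    exact (Polynomial.natDegree_le_of_dvd (minpoly.dvd K ζ hfaeval) hfne).trans hfdeg
  have hrank : Module.finrank ℚ L ≤ 6 := by
    rw [← Module.finrank_mul_finrank ℚ K L]
    calc Module.finrank ℚ K * Module.finrank K L ≤ 2 * 3 := Nat.mul_le_mul hKrank hLrank
      _ = 6 := by norm_num
  have hfinQ : FiniteDimensional ℚ L := FiniteDimensional.trans ℚ K L
  -- a primitive `lcm 3 m`-th root
  set ω : ℂ := (θ - 1) / 2 with hω
  have hω1 : ω ^ 2 + ω + 1 = 0 := by rw [hω]; linear_combination hθ / 4
  have hω3 : IsPrimitiveRoot ω 3 := by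
    refine IsPrimitiveRoot.mk_of_lt ω (by norm_num) (by linear_combination (ω - 1) * hω1) ?_
    intro l hl0 hl3
    interval_cases l
    · intro h; rw [pow_one] at h; rw [h] at hω1; norm_num at hω1
    · intro h
      have h2 : ω = -2 := by linear_combination hω1 - h
      rw [h2] at h; norm_num at h
  have hprim := hω3.pow_mul_pow_lcm hζ (by norm_num) hm.ne'
  set k := Nat.lcm 3 m with hk
  set μ : ℂ := ω ^ (3 / Nat.factorizationLCMLeft 3 m) * ζ ^ (m / Nat.factorizationLCMRight 3 m)
    with hμ
  have hk0 : 0 < k := Nat.lcm_pos (by norm_num) hm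
  have hωL : ω ∈ L := by
    have h1 : (algebraMap K ℂ ((θK - 1) / 2)) ∈ L := L.algebraMap_mem _
    have h2 : (algebraMap K ℂ ((θK - 1) / 2)) = ω := by
      rw [hω]; simp [hθK']; rfl
    rw [← h2]; exact h1
  have hζL : ζ ∈ L := IntermediateField.mem_adjoin_simple_self K ζ
  have hμL : μ ∈ L := mul_mem (pow_mem hωL _) (pow_mem hζL _)
  have hmin : (minpoly ℚ μ).natDegree = k.totient := by
    rw [← Polynomial.cyclotomic_eq_minpoly_rat hprim hk0, Polynomial.natDegree_cyclotomic]
  have hmin2 : (minpoly ℚ μ).natDegree ≤ 6 := by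
    have h1 : minpoly ℚ (⟨μ, hμL⟩ : L) = minpoly ℚ μ := by
      have := minpoly.algebraMap_eq (A := ℚ) (B := L) (B' := ℂ)
        (FaithfulSMul.algebraMap_injective L ℂ) (⟨μ, hμL⟩ : L)
      rw [← this]; rfl
    rw [← h1]
    exact (minpoly.natDegree_le (A := ℚ) (⟨μ, hμL⟩ : L)).trans hrank
  rw [hmin] at hmin2
  rcases totient_le_six hk0 (Nat.dvd_lcm_left 3 m) hmin2 with h | h
  · left; exact (Nat.dvd_lcm_right 3 m).trans h
  · right; exact (Nat.dvd_lcm_right 3 m).trans h

end Glaisher
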