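import Pool.Agent.Glaisher.Order
import Pool.Agent.Glaisher.Tower
import Pool.Agent.Glaisher.Jacobi

/-!
Primes on a plane curve of degree at most three.
-/

namespace Glaisher

open Finset

theorem seven_le {p : ℕ} (hp : p.Prime) (h3 : p % 3 = 1) : 7 ≤ p := by
  have h2 := hp.two_le
  by_contra hlt
  push Not at hlt
  interval_cases p <;> simp_all (config := { decide := true })

theorem jacobiHyp {p : ℕ} [Fact p.Prime] (h3 : p % 3 = 1) : JacobiHyp p := by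
  obtain ⟨T, S, h1, h2⟩ := jacobi_main p h3
  exact ⟨T, S, h1, h2⟩

section ModP

variable {p : ℕ} [hp : Fact p.Prime]

/-- reduction modulo `p` -/
noncomputable def red (p : ℕ) : ZMod (p ^ 2) →+* ZMod p :=
  ZMod.castHom (dvd_pow_self p two_ne_zero) (ZMod p)

theorem red_eq_one {x : ZMod (p ^ 2)} (h : red p x = 1) : ∃ y, x = 1 + (p : ZMod (p ^ 2)) * y := by
  obtain ⟨n, rfl⟩ := ZMod.intCast_surjective x
  rw [map_intCast] at h
  have h1 : ((n - 1 : ℤ) : ZMod p) = 0 := by push_cast; rw [h]; ring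
  rw [ZMod.intCast_zmod_eq_zero_iff_dvd] at h1
  obtain ⟨m, hm⟩ := h1
  refine ⟨(m : ZMod (p ^ 2)), ?_⟩
  have h2 : n = 1 + p * m := by linarith
  rw [h2]; push_cast; ring

theorem isUnit_cc (h3 : p % 3 = 1) : IsUnit ((cc p : ℕ) : ZMod (p ^ 2)) := by
  have h7 := seven_le hp.out h3
  refine isUnit_nat fun h => ?_
  have h2 : p ∣ (2 * ((p - 1) / 3)).factorial := by
    rw [← Nat.choose_mul_factorial_mul_factorial (n := 2 * ((p - 1) / 3)) (k := (p - 1) / 3)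
      (by omega), mul_assoc]
    exact Dvd.dvd.mul_right h _
  rw [hp.out.dvd_factorial] at h2
  omega

theorem orderOf_pos_cc (h3 : p % 3 = 1) : 0 < orderOf ((cc p : ℕ) : ZMod (p ^ 2)) := by
  obtain ⟨u, hu⟩ := isUnit_cc h3
  rw [← hu, orderOf_units]
  have : NeZero (p ^ 2) := ⟨pow_ne_zero 2 hp.out.ne_zero⟩
  exact orderOf_pos u

theorem cc_six_modp (h3 : p % 3 = 1) {T S : ℤ} (h : 4 * (p : ℤ) = T ^ 2 + 3 * S ^ 2) :
    (T : ZMod p) ≠ 0 ∧ (S : ZMod p) ≠ 0 ∧ ((cc p : ℕ) : ZMod p) ^ 6 = (T : ZMod p) ^ 6 := by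
  have h7 := seven_le hp.out h3
  obtain ⟨hT, hS⟩ := not_dvd_of_rep h h7
  have hT' : (T : ZMod p) ≠ 0 := by rwa [Ne, ZMod.intCast_zmod_eq_zero_iff_dvd]
  have hS' : (S : ZMod p) ≠ 0 := by rwa [Ne, ZMod.intCast_zmod_eq_zero_iff_dvd]
  refine ⟨hT', hS', ?_⟩
  obtain ⟨D⟩ := exists_data h h7
  have hc := cc_pow_six (jacobiHyp h3) h7 h D
  have h1 := congrArg (red p) D.uT
  simp only [map_mul, map_sub, map_pow, map_intCast, map_natCast, CharP.cast_eq_zero, sub_zero] at h1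
  have h2 : red p D.u = (T : ZMod p) := by
    refine mul_right_cancel₀ hT' ?_
    rw [h1]; ring
  have h4 := congrArg (red p) hc
  simp only [map_pow, map_natCast, h2] at h4
  exact h4

/-- If `C ^ k = 1` modulo `p` then it holds modulo `p ^ 2`, or `p` divides the order of `C`. -/
theorem lift_order (h3 : p % 3 = 1) {k : ℕ} (hk : ((cc p : ℕ) : ZMod p) ^ k = 1) :
    ((cc p : ℕ) : ZMod (p ^ 2)) ^ k = 1 ∨ p ≤ orderOf ((cc p : ℕ) : ZMod (p ^ 2)) := by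
  set n := orderOf ((cc p : ℕ) : ZMod (p ^ 2)) with hn
  have hn0 : 0 < n := orderOf_pos_cc h3
  by_cases hpn : p ∣ n
  · right; exact Nat.le_of_dvd hn0 hpn
  · left
    obtain ⟨y, hy⟩ := red_eq_one (p := p) (x := ((cc p : ℕ) : ZMod (p ^ 2)) ^ k)
      (by rw [map_pow, map_natCast]; exact hk)
    have hpp := p_mul_self (p := p)
    have h1 : (((cc p : ℕ) : ZMod (p ^ 2)) ^ k) ^ p = 1 := by
      rw [hy]
      have h2 := one_sub_pow_nil (-((p : ZMod (p ^ 2)) * y)) (by linear_combination y ^ 2 * hpp) p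
      have h4 : (1 - -((p : ZMod (p ^ 2)) * y)) = 1 + (p : ZMod (p ^ 2)) * y := by ring
      rw [h4] at h2
      rw [h2]
      linear_combination y * hpp
    have h2 : (((cc p : ℕ) : ZMod (p ^ 2)) ^ k) ^ n = 1 := by
      rw [← pow_mul, mul_comm, pow_mul, hn, pow_orderOf_eq_one, one_pow]
    have h5 : orderOf (((cc p : ℕ) : ZMod (p ^ 2)) ^ k) ∣ Nat.gcd p n :=
      Nat.dvd_gcd (orderOf_dvd_of_pow_eq_one h1) (orderOf_dvd_of_pow_eq_one h2)
    have h6 : Nat.gcd p n = 1 := (Nat.Prime.coprime_iff_not_dvd hp.out).mpr hpn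
    rw [h6, Nat.dvd_one] at h5
    exact orderOf_eq_one_iff.mp h5

end ModP

/-- The conclusion of the resultant bound. -/
def ResB (g : Polynomial ℤ) : Prop :=
  ∃ K : ℝ, 1 < K ∧ ∀ (m : ℕ), 0 < m →
    (∀ ζ : ℂ, IsPrimitiveRoot ζ m → Polynomial.aeval ζ g ≠ 0) →
    ∀ (p : ℕ) [Fact p.Prime] (t : ZMod p), orderOf t = m →
      (g.map (Int.castRingHom (ZMod p))).eval t = 0 → (p : ℝ) ≤ K ^ m

/-- `p` is a Cosgrave-Dilcher prime. -/
def CD (p : ℕ) : Prop := ∃ x : ℤ, (p : ℤ) ^ 2 = 3 * x ^ 2 + 3 * x + 1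

open Polynomial in
/-- `∑ b_i X^i`. -/
noncomputable def pol (b : Fin 4 → ℤ) : Polynomial ℤ := ∑ i : Fin 4, Polynomial.C (b i) * X ^ (i : ℕ)

theorem curve_core (b c : Fin 4 → ℤ) (hne : ∃ i, b i ≠ 0 ∨ c i ≠ 0)
    (hres : ResB (pol b ^ 2 + 3 * pol c ^ 2)) :
    ∃ δ : ℝ, 0 < δ ∧ ∀ p : ℕ, p.Prime → p % 3 = 1 → ∀ T S : ℤ,
      4 * (p : ℤ) = T ^ 2 + 3 * S ^ 2 →
      ((pol b ^ 2 + 3 * pol c ^ 2).map (Int.castRingHom (ZMod p))).eval (T : ZMod p) = 0 →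
      CD p ∨ δ * Real.log p ≤ orderOf ((cc p : ℕ) : ZMod (p ^ 2)) := by
  obtain ⟨K, hK1, hK⟩ := hres
  have hlogK : 0 < Real.log K := Real.log_pos hK1
  refine ⟨min 1 (1 / (6 * Real.log K)), lt_min one_pos (by positivity), ?_⟩
  intro p hp h3 T S hTS hg
  have : Fact p.Prime := ⟨hp⟩
  have h7 := seven_le hp h3
  obtain ⟨hT, hS, hC6⟩ := cc_six_modp h3 hTS
  set n := orderOf ((cc p : ℕ) : ZMod (p ^ 2)) with hn
  have hn0 : 0 < n := orderOf_pos_cc h3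
  have hlogp : 0 ≤ Real.log p := Real.log_nonneg (by exact_mod_cast hp.one_lt.le)
  have hlogpp : Real.log p ≤ p := (Real.log_le_sub_one_of_pos (by exact_mod_cast hp.pos)).trans
    (by linarith)
  -- if `p ≤ n` we are done
  have hbig : p ≤ n → min 1 (1 / (6 * Real.log K)) * Real.log p ≤ n := by
    intro h
    calc min 1 (1 / (6 * Real.log K)) * Real.log p ≤ 1 * Real.log p :=
          mul_le_mul_of_nonneg_right (min_le_left _ _) hlogp
      _ ≤ p := by linarith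
      _ ≤ n := by exact_mod_cast h
  -- `T ^ (6 n) = 1` modulo `p`
  have hT6n : (T : ZMod p) ^ (6 * n) = 1 := by
    rw [pow_mul, ← hC6, ← pow_mul, mul_comm, pow_mul]
    have h1 : ((cc p : ℕ) : ZMod p) ^ n = 1 := by
      have h2 := congrArg (red p) (pow_orderOf_eq_one ((cc p : ℕ) : ZMod (p ^ 2)))
      rw [map_pow, map_natCast, map_one] at h2
      exact h2
    rw [h1, one_pow]
  set m := orderOf (T : ZMod p) with hm
  have hmdvd : m ∣ 6 * n := orderOf_dvd_of_pow_eq_one hT6n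
  have hm0 : 0 < m := Nat.pos_of_dvd_of_pos hmdvd (by omega)
  have hmle : m ≤ 6 * n := Nat.le_of_dvd (by omega) hmdvd
  by_cases hroot : ∀ ζ : ℂ, IsPrimitiveRoot ζ m →
      Polynomial.aeval ζ (pol b ^ 2 + 3 * pol c ^ 2) ≠ 0
  · right
    have h1 := hK m hm0 hroot p (T : ZMod p) hm.symm hg
    have h2 : (p : ℝ) ≤ K ^ (6 * n) := h1.trans (pow_le_pow_right₀ hK1.le hmle)
    have h4 : Real.log p ≤ (6 * n : ℕ) * Real.log K := by
      rw [← Real.log_pow]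
      exact Real.log_le_log (by exact_mod_cast hp.pos) h2
    calc min 1 (1 / (6 * Real.log K)) * Real.log p ≤ (1 / (6 * Real.log K)) * Real.log p :=
          mul_le_mul_of_nonneg_right (min_le_right _ _) hlogp
      _ ≤ (1 / (6 * Real.log K)) * ((6 * n : ℕ) * Real.log K) :=
          mul_le_mul_of_nonneg_left h4 (by positivity)
      _ = n := by push_cast; field_simp
  · push Not at hroot
    obtain ⟨ζ, hζ, hζ0⟩ := hroot
    -- `θ = √3 i`
    obtain ⟨θ, hθ⟩ : ∃ θ : ℂ, θ ^ 2 = -3 := ⟨Complex.I * (Real.sqrt 3 : ℝ), by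
      rw [mul_pow, Complex.I_sq, ← Complex.ofReal_pow, Real.sq_sqrt (by norm_num)]; norm_num⟩
    have haev : ∀ e : Fin 4 → ℤ, Polynomial.aeval ζ (pol e) = ∑ i : Fin 4, (e i : ℂ) * ζ ^ (i : ℕ) := by
      intro e
      simp [pol]
    have hprod : (Polynomial.aeval ζ (pol b) + θ * Polynomial.aeval ζ (pol c)) *
        (Polynomial.aeval ζ (pol b) - θ * Polynomial.aeval ζ (pol c)) = 0 := by
      have h1 : Polynomial.aeval ζ (pol b ^ 2 + 3 * pol c ^ 2) =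
          Polynomial.aeval ζ (pol b) ^ 2 + 3 * Polynomial.aeval ζ (pol c) ^ 2 := by
        rw [map_add, map_pow, map_mul, map_pow, map_ofNat]
      rw [h1] at hζ0
      linear_combination hζ0 - (Polynomial.aeval ζ (pol c)) ^ 2 * hθ
    have hm1218 : m ∣ 12 ∨ m ∣ 18 := by
      have hne' : ∃ i, ((b i : ℚ)) ≠ 0 ∨ ((c i : ℚ)) ≠ 0 := by
        obtain ⟨i, hi⟩ := hne
        exact ⟨i, by rcases hi with hi | hi <;> [left; right] <;> exact_mod_cast hi⟩
      rcases mul_eq_zero.mp hprod with h1 | h1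
      · refine tower hθ hm0 hζ (fun i => (b i : ℚ)) (fun i => (c i : ℚ)) hne' ?_
        rw [haev, haev, Finset.mul_sum, ← Finset.sum_add_distrib] at h1
        rw [← h1]
        refine Finset.sum_congr rfl fun i _ => ?_
        push_cast; ring
      · refine tower (θ := -θ) (by rw [neg_sq]; exact hθ) hm0 hζ (fun i => (b i : ℚ))
          (fun i => (c i : ℚ)) hne' ?_
        rw [haev, haev, Finset.mul_sum, ← Finset.sum_sub_distrib] at h1
        rw [← h1]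
        refine Finset.sum_congr rfl fun i _ => ?_
        push_cast; ring
    have hfin : ((cc p : ℕ) : ZMod p) ^ 12 = 1 ∨ ((cc p : ℕ) : ZMod p) ^ 18 = 1 := by
      rcases hm1218 with h1 | h1
      · left
        have : (T : ZMod p) ^ 12 = 1 := orderOf_dvd_iff_pow_eq_one.mp h1
        calc ((cc p : ℕ) : ZMod p) ^ 12 = (((cc p : ℕ) : ZMod p) ^ 6) ^ 2 := by ring
          _ = 1 := by rw [hC6, ← pow_mul]; exact this
      · right
        have : (T : ZMod p) ^ 18 = 1 := orderOf_dvd_iff_pow_eq_one.mp h1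
        calc ((cc p : ℕ) : ZMod p) ^ 18 = (((cc p : ℕ) : ZMod p) ^ 6) ^ 3 := by ring
          _ = 1 := by rw [hC6, ← pow_mul]; exact this
    rcases hfin with h1 | h1
    · rcases lift_order h3 h1 with h2 | h2
      · left; exact (order_iff (jacobiHyp h3) h7 h3).mp (Or.inl h2)
      · right; exact hbig h2
    · rcases lift_order h3 h1 with h2 | h2
      · left; exact (order_iff (jacobiHyp h3) h7 h3).mp (Or.inr (Or.inl h2))
      · right; exact hbig h2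

/-- the two coefficient vectors attached to a cubic polynomial -/
def bvec (a : ℕ → ℕ → ℤ) : Fin 4 → ℤ :=
  ![9 * a 0 0, 9 * a 1 0, 9 * a 2 0 - 3 * a 0 2, 9 * a 3 0 - 3 * a 1 2]

def cvec (a : ℕ → ℕ → ℤ) : Fin 4 → ℤ :=
  ![0, -3 * a 0 1, -3 * a 1 1, a 0 3 - 3 * a 2 1]

theorem eval_pol {R : Type*} [CommRing R] (b : Fin 4 → ℤ) (x : R) :
    ((pol b).map (Int.castRingHom R)).eval x =
      (b 0 : R) + b 1 * x + b 2 * x ^ 2 + b 3 * x ^ 3 := by
  simp [pol, Fin.sum_univ_four]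

/-- value of the cubic at a point of the line -/
theorem cubic_on_line {p : ℕ} [hp : Fact p.Prime] (a : ℕ → ℕ → ℤ) (t s : ZMod p)
    (hs : s ≠ 0) (h : t ^ 2 + 3 * s ^ 2 = 0)
    (hF : ∑ i ∈ range 4, ∑ j ∈ range (4 - i), (a i j : ZMod p) * t ^ i * s ^ j = 0) :
    ((pol (bvec a) ^ 2 + 3 * pol (cvec a) ^ 2).map (Int.castRingHom (ZMod p))).eval t = 0 := by
  obtain ⟨si, hsi⟩ : ∃ si : ZMod p, s * si = 1 := ⟨s⁻¹, mul_inv_cancel₀ hs⟩
  have hθ : (t * si) ^ 2 = -3 := by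
    linear_combination si ^ 2 * h - 3 * (s * si + 1) * hsi
  obtain ⟨θ, hθe⟩ : ∃ θ : ZMod p, θ = t * si := ⟨_, rfl⟩
  rw [← hθe] at hθ
  have hts : t = θ * s := by rw [hθe]; linear_combination (-t) * hsi
  rw [Polynomial.map_add, Polynomial.map_mul, Polynomial.map_pow, Polynomial.map_pow,
    Polynomial.eval_add, Polynomial.eval_mul, Polynomial.eval_pow, Polynomial.eval_pow,
    eval_pol, eval_pol]
  have e3 : ((3 : Polynomial ℤ).map (Int.castRingHom (ZMod p))).eval t = 3 := by simp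
  rw [e3]
  have hF' : (a 0 0 : ZMod p) + a 0 1 * s + a 0 2 * s ^ 2 + a 0 3 * s ^ 3 + a 1 0 * t +
      a 1 1 * t * s + a 1 2 * t * s ^ 2 + a 2 0 * t ^ 2 + a 2 1 * t ^ 2 * s + a 3 0 * t ^ 3 = 0 := by
    rw [← hF]; simp [Finset.sum_range_succ]; ring
  have b0 : ((bvec a 0 : ℤ) : ZMod p) = 9 * a 0 0 := by simp [bvec]
  have b1 : ((bvec a 1 : ℤ) : ZMod p) = 9 * a 1 0 := by simp [bvec]
  have b2 : ((bvec a 2 : ℤ) : ZMod p) = 9 * a 2 0 - 3 * a 0 2 := by simp [bvec]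
  have b3 : ((bvec a 3 : ℤ) : ZMod p) = 9 * a 3 0 - 3 * a 1 2 := by simp [bvec]
  have c0 : ((cvec a 0 : ℤ) : ZMod p) = 0 := by simp [cvec]
  have c1 : ((cvec a 1 : ℤ) : ZMod p) = -3 * a 0 1 := by simp [cvec]
  have c2 : ((cvec a 2 : ℤ) : ZMod p) = -3 * a 1 1 := by simp [cvec]
  have c3 : ((cvec a 3 : ℤ) : ZMod p) = a 0 3 - 3 * a 2 1 := by simp [cvec]
  rw [b0, b1, b2, b3, c0, c1, c2, c3]
  rw [hts] at hF' ⊢
  obtain ⟨P0, hP0⟩ : ∃ P0 : ZMod p, P0 = 9 * a 0 0 + 9 * a 1 0 * (θ * s) +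
      (9 * a 2 0 - 3 * a 0 2) * (θ * s) ^ 2 + (9 * a 3 0 - 3 * a 1 2) * (θ * s) ^ 3 := ⟨_, rfl⟩
  obtain ⟨P1, hP1⟩ : ∃ P1 : ZMod p, P1 = 0 + -3 * a 0 1 * (θ * s) +
      (-3 * a 1 1) * (θ * s) ^ 2 + (a 0 3 - 3 * a 2 1) * (θ * s) ^ 3 := ⟨_, rfl⟩
  have key : P0 + θ * P1 = 0 := by
    rw [hP0, hP1]
    linear_combination 9 * hF' + (-3 * a 0 2 * s ^ 2 - 3 * a 1 2 * θ * s ^ 3 - 3 * a 0 1 * s -
      3 * a 1 1 * θ * s ^ 2 + a 0 3 * (θ ^ 2 - 3) * s ^ 3 - 3 * a 2 1 * θ ^ 2 * s ^ 3) * hθ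
  rw [← hP0, ← hP1]
  linear_combination (P0 - θ * P1) * key + P1 ^ 2 * hθ

/-- the vectors vanish only for multiples of `T ^ 2 + 3 S ^ 2` -/
theorem vec_zero (a : ℕ → ℕ → ℤ) (h : ∀ i, bvec a i = 0 ∧ cvec a i = 0) :
    a 0 0 = 0 ∧ a 1 0 = 0 ∧ a 0 1 = 0 ∧ a 1 1 = 0 ∧ a 0 2 = 3 * a 2 0 ∧ a 1 2 = 3 * a 3 0 ∧
      a 0 3 = 3 * a 2 1 := by
  have h0 := h 0
  have h1 := h 1
  have h2 := h 2
  have h3 := h 3
  simp [bvec, cvec] at h0 h1 h2 h3
  refine ⟨h0, h1.1, h1.2, h2.2, ?_, ?_, ?_⟩ <;> linarith [h2.1, h3.1, h3.2]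

/-- value of the cubic polynomial -/
def cubic (a : ℕ → ℕ → ℤ) (T S : ℤ) : ℤ :=
  ∑ i ∈ range 4, ∑ j ∈ range (4 - i), a i j * T ^ i * S ^ j

theorem cubic_nonzero_vec (hres : ∀ g : Polynomial ℤ, ResB g) (a : ℕ → ℕ → ℤ)
    (hne : ∃ i, bvec a i ≠ 0 ∨ cvec a i ≠ 0) :
    ∃ δ : ℝ, 0 < δ ∧ ∀ p : ℕ, p.Prime → p % 3 = 1 → ∀ T S : ℤ,
      4 * (p : ℤ) = T ^ 2 + 3 * S ^ 2 → cubic a T S = 0 →
      CD p ∨ δ * Real.log p ≤ orderOf ((cc p : ℕ) : ZMod (p ^ 2)) := by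
  obtain ⟨δ, hδ, h⟩ := curve_core (bvec a) (cvec a) hne (hres _)
  refine ⟨δ, hδ, fun p hp h3 T S hTS hF => h p hp h3 T S hTS ?_⟩
  have : Fact p.Prime := ⟨hp⟩
  obtain ⟨hT, hS, -⟩ := cc_six_modp h3 hTS
  refine cubic_on_line a (T : ZMod p) (S : ZMod p) hS ?_ ?_
  · have e := congrArg (fun z : ℤ => (z : ZMod p)) hTS
    push_cast at e
    rw [← e]; simp
  · have e := congrArg (fun z : ℤ => (z : ZMod p)) hF
    rw [cubic] at e
    push_cast at e
    exact e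

theorem cubic_curve (hres : ∀ g : Polynomial ℤ, ResB g) (a : ℕ → ℕ → ℤ)
    (ha : ∃ i j, i + j ≤ 3 ∧ a i j ≠ 0) :
    ∃ δ : ℝ, 0 < δ ∧ ∀ p : ℕ, p.Prime → p % 3 = 1 → ∀ T S : ℤ,
      4 * (p : ℤ) = T ^ 2 + 3 * S ^ 2 → cubic a T S = 0 →
      CD p ∨ δ * Real.log p ≤ orderOf ((cc p : ℕ) : ZMod (p ^ 2)) := by
  by_cases hne : ∃ i, bvec a i ≠ 0 ∨ cvec a i ≠ 0
  · exact cubic_nonzero_vec hres a hne
  · push Not at hne
    obtain ⟨h00, h10, h01, h11, h02, h12, h03⟩ := vec_zero a hne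
    set a' : ℕ → ℕ → ℤ := fun i j =>
      if i = 0 ∧ j = 0 then a 2 0 else if i = 0 ∧ j = 1 then a 2 1 else
        if i = 1 ∧ j = 0 then a 3 0 else 0 with ha'
    have hne' : ∃ i, bvec a' i ≠ 0 ∨ cvec a' i ≠ 0 := by
      by_contra hcon
      push Not at hcon
      obtain ⟨g00, g10, g01, -, -, -, -⟩ := vec_zero a' hcon
      have e20 : a 2 0 = 0 := by simpa [ha'] using g00
      have e21 : a 2 1 = 0 := by simpa [ha'] using g01
      have e30 : a 3 0 = 0 := by simpa [ha'] using g10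
      obtain ⟨i, j, hij, haij⟩ := ha
      apply haij
      have hi : i ≤ 3 := by omega
      have hj : j ≤ 3 := by omega
      interval_cases i <;> interval_cases j <;> omega
    obtain ⟨δ, hδ, h⟩ := cubic_nonzero_vec hres a' hne'
    refine ⟨δ, hδ, fun p hp h3 T S hTS hF => h p hp h3 T S hTS ?_⟩
    have hp0 : (4 * (p : ℤ)) ≠ 0 := by have := hp.pos; positivity
    have h1 : 4 * (p : ℤ) * cubic a' T S = 0 := by
      rw [← hF, hTS]
      simp [cubic, ha', Finset.sum_range_succ, h00, h10, h01, h11, h02, h12, h03]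
      ring
    exact (mul_eq_zero.mp h1).resolve_left hp0

open Polynomial in
/-- a bivariate polynomial of total degree at most three is a cubic -/
theorem evalEval_eq_cubic (F : ℤ[X][X]) (hdeg : ∀ i j, 3 < i + j → (F.coeff i).coeff j = 0)
    (T S : ℤ) : F.evalEval S T = cubic (fun i j => (F.coeff i).coeff j) T S := by
  have h1 : F.natDegree < 4 := by
    by_contra hcon
    push Not at hcon
    have h2 : F.coeff F.natDegree = 0 := by
      ext j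
      rw [coeff_zero]
      exact hdeg _ _ (by omega)
    have h3 : F = 0 := by
      rw [← leadingCoeff_eq_zero]; exact h2
    rw [h3, natDegree_zero] at hcon
    omega
  have h2 : ∀ i, (F.coeff i).natDegree ≤ 3 - i ∧ (3 < i → F.coeff i = 0) := by
    intro i
    constructor
    · rw [natDegree_le_iff_coeff_eq_zero]
      intro j hj
      exact hdeg i j (by omega)
    · intro hi
      ext j
      rw [coeff_zero]
      exact hdeg i j (by omega)
  rw [evalEval, eval_eq_sum_range' h1, eval_finsetSum, cubic]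
  refine Finset.sum_congr rfl fun i hi => ?_
  have hi' : i < 4 := by simpa using hi
  rw [eval_mul, eval_pow, eval_C, eval_eq_sum_range' (n := 4 - i) (by have := (h2 i).1; omega),
    Finset.sum_mul]
  refine Finset.sum_congr rfl fun j _ => ?_
  ring

open Polynomial in
/-- **Curves of degree at most three.** -/
theorem curve_three (hres : ∀ g : Polynomial ℤ, ResB g) (F : ℤ[X][X]) (hF : F ≠ 0)
    (hdeg : ∀ i j, 3 < i + j → (F.coeff i).coeff j = 0) :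
    ∃ δ : ℝ, 0 < δ ∧ ∀ p : ℕ, p.Prime → p % 3 = 1 → ∀ T S : ℤ,
      4 * (p : ℤ) = T ^ 2 + 3 * S ^ 2 → F.evalEval S T = 0 →
      CD p ∨ δ * Real.log p ≤ orderOf ((cc p : ℕ) : ZMod (p ^ 2)) := by
  have ha : ∃ i j, i + j ≤ 3 ∧ (F.coeff i).coeff j ≠ 0 := by
    by_contra hcon
    push Not at hcon
    apply hF
    ext i j
    rw [coeff_zero, coeff_zero]
    by_cases h : i + j ≤ 3
    · exact hcon i j h
    · exact hdeg i j (by omega)
  obtain ⟨δ, hδ, h⟩ := cubic_curve hres (fun i j => (F.coeff i).coeff j) ha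
  refine ⟨δ, hδ, fun p hp h3 T S hTS hev => h p hp h3 T S hTS ?_⟩
  rw [← evalEval_eq_cubic F hdeg]; exact hev

end Glaisher
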