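import Mathlib

/-!
# Orders of `T` modulo `p = (T² + 3 S²)/4` on plane curves

`curve_order`: for a nonzero `F` with integer coefficients there is `c > 0` such that, for every
prime `p ≡ 1 (mod 3)` and all integers `T, S` with `4 p = T² + 3 S²` and `F(T, S) = 0`, the order
`m` of `T` modulo `p` satisfies `φ(lcm(m, 3)) ≤ 2 deg F` or `m ≥ c log p`.
-/

open Finset Polynomial

namespace Glaisher

/-! ### Restriction of a plane curve to a line through the origin -/

/-- The polynomial `F(X, s X)`. -/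
noncomputable def lineP {R : Type*} [CommRing R] (s : R) (F : MvPolynomial (Fin 2) ℤ) : R[X] :=
  MvPolynomial.aeval ![X, C s * X] F

theorem lineP_eval {R : Type*} [CommRing R] (s t : R) (F : MvPolynomial (Fin 2) ℤ) :
    (lineP s F).eval t = MvPolynomial.aeval ![t, s * t] F := by
  unfold lineP
  induction F using MvPolynomial.induction_on with
  | C a => simp
  | add p q hp hq => rw [map_add, map_add, eval_add, hp, hq]
  | mul_X p i hp =>
    rw [map_mul, map_mul, eval_mul, hp, MvPolynomial.aeval_X, MvPolynomial.aeval_X]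
    fin_cases i <;> simp

theorem lineP_mul {R : Type*} [CommRing R] (s : R) (F G : MvPolynomial (Fin 2) ℤ) :
    lineP s (F * G) = lineP s F * lineP s G := by
  unfold lineP
  rw [map_mul]

theorem lineP_add {R : Type*} [CommRing R] (s : R) (F G : MvPolynomial (Fin 2) ℤ) :
    lineP s (F + G) = lineP s F + lineP s G := by
  unfold lineP
  rw [map_add]

theorem lineP_natDegree {R : Type*} [CommRing R] (s : R) (F : MvPolynomial (Fin 2) ℤ) :
    (lineP s F).natDegree ≤ F.totalDegree := by
  unfold lineP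
  rw [MvPolynomial.aeval_def, MvPolynomial.eval₂_eq']
  refine natDegree_sum_le_of_forall_le _ _ fun d hd => ?_
  have h1 : d 0 + d 1 ≤ F.totalDegree := by
    have := MvPolynomial.le_totalDegree hd
    rw [Finsupp.sum_fintype _ _ (fun _ => rfl)] at this
    simpa [Fin.sum_univ_two] using this
  refine le_trans ?_ h1
  rw [Fin.prod_univ_two]
  simp only [Matrix.cons_val_zero, Matrix.cons_val_one]
  refine (natDegree_mul_le).trans ?_
  have h2 : ((algebraMap ℤ R[X]) (MvPolynomial.coeff d F)).natDegree = 0 := by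
    simp
  rw [h2, zero_add]
  refine (natDegree_mul_le).trans ?_
  refine add_le_add (natDegree_X_pow_le _) ?_
  rw [mul_pow, ← C_pow]
  exact (natDegree_C_mul_le _ _).trans (natDegree_X_pow_le _)

theorem lineP_X0 {R : Type*} [CommRing R] (s : R) :
    lineP s (MvPolynomial.X 0) = X := by
  unfold lineP
  rw [MvPolynomial.aeval_X]
  rfl

theorem lineP_X1 {R : Type*} [CommRing R] (s : R) :
    lineP s (MvPolynomial.X 1) = C s * X := by
  unfold lineP
  rw [MvPolynomial.aeval_X]
  rfl

theorem fin2_cases (i : Fin 2) : i = 0 ∨ i = 1 := by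
  fin_cases i
  · exact Or.inl rfl
  · exact Or.inr rfl

theorem lineP_split (F : MvPolynomial (Fin 2) ℤ) : ∃ (k : ℕ) (A B : ℤ[X]),
    ∀ (R : Type) [CommRing R] (s : R), 3 * s ^ 2 = -1 →
      (3 : R[X]) ^ k * lineP s F =
        A.map (Int.castRingHom R) + C s * B.map (Int.castRingHom R) := by
  induction F using MvPolynomial.induction_on with
  | C a =>
    refine ⟨0, C a, 0, fun R _ s _ => ?_⟩
    simp [lineP]
  | add p q hp hq =>
    obtain ⟨k, A, B, h⟩ := hp
    obtain ⟨k', A', B', h'⟩ := hq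
    refine ⟨k + k', 3 ^ k' * A + 3 ^ k * A', 3 ^ k' * B + 3 ^ k * B', fun R _ s hs => ?_⟩
    have e := h R s hs
    have e' := h' R s hs
    rw [lineP_add]
    simp only [Polynomial.map_add, Polynomial.map_mul, Polynomial.map_pow, Polynomial.map_ofNat]
    linear_combination (3 : R[X]) ^ k' * e + (3 : R[X]) ^ k * e'
  | mul_X p i hp =>
    obtain ⟨k, A, B, h⟩ := hp
    rcases fin2_cases i with rfl | rfl
    · refine ⟨k, A * X, B * X, fun R _ s hs => ?_⟩
      have e := h R s hs
      rw [lineP_mul, lineP_X0]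
      simp only [Polynomial.map_mul, Polynomial.map_X]
      linear_combination X * e
    · refine ⟨k + 1, -(X * B), 3 * X * A, fun R _ s hs => ?_⟩
      have e := h R s hs
      have hs' : (3 : R[X]) * C s ^ 2 = -1 := by
        rw [← C_pow, ← C_ofNat, ← C_mul, hs]
        simp
      rw [lineP_mul, lineP_X1]
      simp only [Polynomial.map_mul, Polynomial.map_X, Polynomial.map_neg,
        Polynomial.map_ofNat]
      linear_combination (3 * C s * X) * e + (B.map (Int.castRingHom R)) * X * hs'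

/-! ### Resultants with cyclotomic polynomials -/

/-- Sum of the absolute values of the coefficients. -/
noncomputable def len (G : ℤ[X]) : ℕ := ∑ i ∈ range (G.natDegree + 1), (G.coeff i).natAbs

theorem norm_eval_le (G : ℤ[X]) (z : ℂ) (hz : ‖z‖ = 1) :
    ‖(G.map (Int.castRingHom ℂ)).eval z‖ ≤ len G := by
  rw [eval_map, eval₂_eq_sum_range]
  refine (norm_sum_le _ _).trans ?_
  unfold len
  push_cast
  refine sum_le_sum fun i _ => ?_
  rw [norm_mul, norm_pow, hz, one_pow, mul_one]
  simp

theorem res_eq (G : ℤ[X]) (m : ℕ) :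
    ((resultant (cyclotomic m ℤ) G : ℤ) : ℂ) =
      ((cyclotomic m ℂ).roots.map (G.map (Int.castRingHom ℂ)).eval).prod := by
  have h1 := resultant_map_map (cyclotomic m ℤ) G (cyclotomic m ℤ).natDegree G.natDegree
    (Int.castRingHom ℂ)
  rw [map_cyclotomic] at h1
  have h2 : (cyclotomic m ℤ).natDegree = (cyclotomic m ℂ).natDegree := by
    rw [natDegree_cyclotomic, natDegree_cyclotomic]
  have h3 := resultant_eq_prod_eval (cyclotomic m ℂ) (G.map (Int.castRingHom ℂ)) G.natDegree
    natDegree_map_le (IsAlgClosed.splits _)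
  rw [(cyclotomic.monic m ℂ).leadingCoeff, one_pow, one_mul] at h3
  rw [← h3, ← h2, h1]
  simp

theorem norm_multiset_prod_le (s : Multiset ℂ) (L : ℝ) (h0 : 0 ≤ L) (h : ∀ z ∈ s, ‖z‖ ≤ L) :
    ‖s.prod‖ ≤ L ^ s.card := by
  induction s using Multiset.induction_on with
  | empty => simp
  | cons a s ih =>
    rw [Multiset.prod_cons, norm_mul, Multiset.card_cons, pow_succ, mul_comm]
    refine mul_le_mul (ih fun z hz => h z (Multiset.mem_cons_of_mem hz))
      (h a (Multiset.mem_cons_self a s)) (norm_nonneg _) (pow_nonneg h0 _)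

theorem res_bound (G : ℤ[X]) (m : ℕ) (hm : 0 < m) :
    ((resultant (cyclotomic m ℤ) G).natAbs : ℝ) ≤ (len G : ℝ) ^ m.totient := by
  have h1 : ((resultant (cyclotomic m ℤ) G).natAbs : ℝ) =
      ‖((resultant (cyclotomic m ℤ) G : ℤ) : ℂ)‖ := by
    rw [Complex.norm_intCast, Nat.cast_natAbs]
    simp
  rw [h1, res_eq]
  refine (norm_multiset_prod_le _ (len G) (Nat.cast_nonneg _) ?_).trans ?_
  · intro z hz
    rw [Multiset.mem_map] at hz
    obtain ⟨η, hη, rfl⟩ := hz
    apply norm_eval_le
    have h2 : IsPrimitiveRoot η m := by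
      have : NeZero (m : ℂ) := ⟨by exact_mod_cast hm.ne'⟩
      exact isRoot_cyclotomic_iff.mp ((mem_roots (cyclotomic_ne_zero m ℂ)).mp hη)
    exact h2.norm'_eq_one hm.ne'
  · rw [Multiset.card_map]
    have h3 : (cyclotomic m ℂ).roots.card = m.totient := by
      rw [← natDegree_cyclotomic m ℂ]
      exact (IsAlgClosed.splits (cyclotomic m ℂ)).natDegree_eq_card_roots.symm
    rw [h3]

theorem res_zero (G : ℤ[X]) (m : ℕ) (hm : 0 < m) (h : resultant (cyclotomic m ℤ) G = 0) :
    ∃ η : ℂ, IsPrimitiveRoot η m ∧ (G.map (Int.castRingHom ℂ)).eval η = 0 := by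
  have h1 := res_eq G m
  rw [h, Int.cast_zero] at h1
  have h2 := Multiset.prod_eq_zero_iff.mp h1.symm
  rw [Multiset.mem_map] at h2
  obtain ⟨η, hη, h3⟩ := h2
  refine ⟨η, ?_, h3⟩
  have : NeZero (m : ℂ) := ⟨by exact_mod_cast hm.ne'⟩
  exact isRoot_cyclotomic_iff.mp ((mem_roots (cyclotomic_ne_zero m ℂ)).mp hη)

/-- If `t` is a primitive `m`-th root of unity modulo `p` and `G(t) = 0` modulo `p`, then
either `p` is at most `len G ^ φ(m)` or `G` vanishes at a complex primitive `m`-th root of
unity. -/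
theorem res_main (G : ℤ[X]) (m p : ℕ) [Fact p.Prime] (hm : 0 < m) (t : ZMod p)
    (ht : IsPrimitiveRoot t m) (hG : (G.map (Int.castRingHom (ZMod p))).eval t = 0) :
    (p : ℝ) ≤ (len G : ℝ) ^ m.totient ∨
      ∃ η : ℂ, IsPrimitiveRoot η m ∧ (G.map (Int.castRingHom ℂ)).eval η = 0 := by
  by_cases h0 : resultant (cyclotomic m ℤ) G = 0
  · exact Or.inr (res_zero G m hm h0)
  · left
    obtain ⟨a, b, _, _, hab⟩ := exists_mul_add_mul_eq_C_resultant (cyclotomic m ℤ) G
      (le_refl _) (le_refl _) (Or.inl (by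
        rw [natDegree_cyclotomic]
        exact (Nat.totient_pos.mpr hm).ne'))
    have h1 := congrArg (fun P : ℤ[X] => (P.map (Int.castRingHom (ZMod p))).eval t) hab
    simp only [Polynomial.map_add, Polynomial.map_mul, eval_add, eval_mul, hG, zero_mul,
      add_zero, map_C, eval_C, map_cyclotomic] at h1
    have h2 : (cyclotomic m (ZMod p)).eval t = 0 := ht.isRoot_cyclotomic hm
    rw [h2, zero_mul] at h1
    have h3 : ((resultant (cyclotomic m ℤ) G : ℤ) : ZMod p) = 0 := by
      simpa using h1.symm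
    rw [ZMod.intCast_zmod_eq_zero_iff_dvd] at h3
    have h4 : p ≤ (resultant (cyclotomic m ℤ) G).natAbs := by
      apply Nat.le_of_dvd (Int.natAbs_pos.mpr h0)
      have := Int.natAbs_dvd_natAbs.mpr h3
      simpa using this
    refine le_trans ?_ (res_bound G m hm)
    exact_mod_cast h4

/-! ### The degree bound -/

theorem lineP_map {R S : Type*} [CommRing R] [CommRing S] (f : R →+* S) (s : R)
    (F : MvPolynomial (Fin 2) ℤ) : (lineP s F).map f = lineP (f s) F := by
  induction F using MvPolynomial.induction_on with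
  | C a => simp [lineP]
  | add p q hp hq => rw [lineP_add, lineP_add, Polynomial.map_add, hp, hq]
  | mul_X p i hp =>
    rw [lineP_mul, lineP_mul, Polynomial.map_mul, hp]
    rcases fin2_cases i with rfl | rfl
    · rw [lineP_X0, lineP_X0, map_X]
    · rw [lineP_X1, lineP_X1, Polynomial.map_mul, map_C, map_X]

theorem omega_prim (s : ℂ) (hs : 3 * s ^ 2 = -1) : IsPrimitiveRoot ((-1 + 3 * s) / 2) 3 := by
  have h1 : ((-1 + 3 * s) / 2) ^ 2 + (-1 + 3 * s) / 2 + 1 = 0 := by
    linear_combination (3 / 4) * hs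
  have h3 : ((-1 + 3 * s) / 2) ^ 3 = 1 := by
    linear_combination ((-1 + 3 * s) / 2 - 1) * h1
  have hne : (-1 + 3 * s) / 2 ≠ 1 := by
    intro h
    rw [h] at h1
    norm_num at h1
  have ho : orderOf ((-1 + 3 * s) / 2) = 3 := orderOf_eq_prime h3 hne
  rw [← ho]
  exact IsPrimitiveRoot.orderOf _

theorem deg_bound (s : ℂ) (hs : 3 * s ^ 2 = -1) (F : MvPolynomial (Fin 2) ℤ)
    (hF : lineP s F ≠ 0) (m : ℕ) (hm : 0 < m) (η : ℂ) (hη : IsPrimitiveRoot η m)
    (h0 : (lineP s F).eval η = 0) : (Nat.lcm m 3).totient ≤ 2 * F.totalDegree := by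
  have hsint : IsIntegral ℚ s := by
    refine ⟨X ^ 2 + C (1 / 3 : ℚ), monic_X_pow_add_C _ (by norm_num), ?_⟩
    simp only [eval₂_add, eval₂_X_pow, eval₂_C]
    have : (algebraMap ℚ ℂ) (1 / 3) = 1 / 3 := by simp
    rw [this]
    linear_combination (1 / 3) * hs
  let K := IntermediateField.adjoin ℚ {s}
  have hKfin : FiniteDimensional ℚ K := IntermediateField.adjoin.finiteDimensional hsint
  have hKrank : Module.finrank ℚ K ≤ 2 := by
    rw [IntermediateField.adjoin.finrank hsint]
    have h1 : minpoly ℚ s ∣ X ^ 2 + C (1 / 3 : ℚ) := by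
      apply minpoly.dvd
      simp only [map_add, map_pow, aeval_X, aeval_C]
      have : (algebraMap ℚ ℂ) (1 / 3) = 1 / 3 := by simp
      rw [this]
      linear_combination (1 / 3) * hs
    have h2 := natDegree_le_of_dvd h1 (monic_X_pow_add_C _ (by norm_num)).ne_zero
    rwa [natDegree_X_pow_add_C] at h2
  let s' : K := ⟨s, IntermediateField.mem_adjoin_simple_self ℚ s⟩
  have hs' : algebraMap K ℂ s' = s := rfl
  have hmapP : (lineP s' F).map (algebraMap K ℂ) = lineP s F := by
    rw [lineP_map, hs']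
  have hP0 : lineP s' F ≠ 0 := by
    intro h
    apply hF
    rw [← hmapP, h, Polynomial.map_zero]
  have hroot : aeval η (lineP s' F) = 0 := by
    rw [aeval_def, ← eval_map, hmapP, h0]
  have hηint : IsIntegral K η := by
    have := hη.isIntegral hm
    exact (this.tower_top : IsIntegral K η)
  let E := IntermediateField.adjoin K {η}
  have hEfin : FiniteDimensional K E := IntermediateField.adjoin.finiteDimensional hηint
  have hErank : Module.finrank K E ≤ F.totalDegree := by
    rw [IntermediateField.adjoin.finrank hηint]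
    exact (natDegree_le_of_dvd (minpoly.dvd K η hroot) hP0).trans (lineP_natDegree _ _)
  have hfin : FiniteDimensional ℚ E := FiniteDimensional.trans ℚ K E
  have hrank : Module.finrank ℚ E ≤ 2 * F.totalDegree := by
    rw [← Module.finrank_mul_finrank ℚ K E]
    exact Nat.mul_le_mul hKrank hErank
  have hω := omega_prim s hs
  have hμ := hη.pow_mul_pow_lcm hω hm.ne' (by norm_num)
  set μ := η ^ (m / m.factorizationLCMLeft 3) *
    ((-1 + 3 * s) / 2) ^ (3 / m.factorizationLCMRight 3) with hμdef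
  have hωE : ((-1 + 3 * s) / 2) ∈ E := by
    have h1 : (algebraMap K ℂ ((-1 + 3 * s') / 2)) ∈ E := E.algebraMap_mem _
    have h2 : algebraMap K ℂ ((-1 + 3 * s') / 2) = (-1 + 3 * s) / 2 := by
      rw [map_div₀, map_add, map_mul, map_neg, map_one, hs', map_ofNat, map_ofNat]
    rwa [h2] at h1
  have hμE : μ ∈ E :=
    E.mul_mem (pow_mem (IntermediateField.mem_adjoin_simple_self K η) _)
      (pow_mem hωE _)
  have hdeg := minpoly.natDegree_le (A := ℚ) (⟨μ, hμE⟩ : E)
  have hmin : minpoly ℚ (⟨μ, hμE⟩ : E) = minpoly ℚ μ := by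
    have := minpoly.algebraMap_eq (A := ℚ) (B := E) (B' := ℂ)
      (algebraMap E ℂ).injective ⟨μ, hμE⟩
    rw [← this]
    rfl
  rw [hmin] at hdeg
  have hl : 0 < Nat.lcm m 3 := Nat.lcm_pos hm (by norm_num)
  rw [← cyclotomic_eq_minpoly_rat hμ hl, natDegree_cyclotomic] at hdeg
  exact hdeg.trans hrank

/-! ### Removing the factors `X² + 3Y²` -/

/-- The norm form `X² + 3Y²`. -/
noncomputable def normM : MvPolynomial (Fin 2) ℤ :=
  MvPolynomial.X 0 ^ 2 + 3 * MvPolynomial.X 1 ^ 2

theorem div_normM (F : MvPolynomial (Fin 2) ℤ) : ∃ (Q : MvPolynomial (Fin 2) ℤ) (A B : ℤ[X]),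
    F = normM * Q + aeval (MvPolynomial.X 1 : MvPolynomial (Fin 2) ℤ) A +
      MvPolynomial.X 0 * aeval (MvPolynomial.X 1 : MvPolynomial (Fin 2) ℤ) B := by
  induction F using MvPolynomial.induction_on with
  | C a =>
    refine ⟨0, C a, 0, ?_⟩
    simp
  | add p q hp hq =>
    obtain ⟨Q, A, B, h⟩ := hp
    obtain ⟨Q', A', B', h'⟩ := hq
    refine ⟨Q + Q', A + A', B + B', ?_⟩
    rw [map_add, map_add]
    linear_combination h + h'
  | mul_X p i hp =>
    obtain ⟨Q, A, B, h⟩ := hp
    rcases fin2_cases i with rfl | rfl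
    · refine ⟨Q * MvPolynomial.X 0 + aeval (MvPolynomial.X 1 : MvPolynomial (Fin 2) ℤ) B,
        -(3 * X ^ 2 * B), A, ?_⟩
      simp only [map_neg, map_mul, map_pow, aeval_X, map_ofNat]
      unfold normM at *
      linear_combination (MvPolynomial.X 0 : MvPolynomial (Fin 2) ℤ) * h
    · refine ⟨Q * MvPolynomial.X 1, X * A, X * B, ?_⟩
      simp only [map_mul, aeval_X]
      linear_combination (MvPolynomial.X 1 : MvPolynomial (Fin 2) ℤ) * h

theorem aeval_normM {R : Type*} [CommRing R] (x y : R) :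
    MvPolynomial.aeval ![x, y] normM = x ^ 2 + 3 * y ^ 2 := by
  unfold normM
  simp

theorem aeval_aeval {R : Type*} [CommRing R] (x y : R) (A : ℤ[X]) :
    MvPolynomial.aeval ![x, y] (aeval (MvPolynomial.X 1 : MvPolynomial (Fin 2) ℤ) A) =
      (A.map (Int.castRingHom R)).eval y := by
  induction A using Polynomial.induction_on' with
  | add p q hp hq => rw [map_add, map_add, hp, hq, Polynomial.map_add, eval_add]
  | monomial n a => simp

theorem s_props (s : ℂ) (hs : 3 * s ^ 2 = -1) : s ≠ 0 ∧ (starRingEnd ℂ) s = -s := by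
  have hs0 : s ≠ 0 := by
    intro h
    rw [h] at hs
    norm_num at hs
  refine ⟨hs0, ?_⟩
  have h1 : 3 * ((starRingEnd ℂ) s) ^ 2 = -1 := by
    have := congrArg (starRingEnd ℂ) hs
    rwa [map_mul, map_pow, map_neg, map_one, map_ofNat] at this
  have h2 : ((starRingEnd ℂ) s - s) * ((starRingEnd ℂ) s + s) = 0 := by
    linear_combination (1 / 3) * h1 - (1 / 3) * hs
  rcases mul_eq_zero.mp h2 with h | h
  · exfalso
    have h3 : (starRingEnd ℂ) s = s := sub_eq_zero.mp h
    rw [Complex.conj_eq_iff_real] at h3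
    obtain ⟨r, rfl⟩ := h3
    have h4 : 3 * r ^ 2 = -1 := by exact_mod_cast hs
    nlinarith [sq_nonneg r]
  · exact eq_neg_of_add_eq_zero_left h

theorem lineP_conj (s : ℂ) (hs : 3 * s ^ 2 = -1) (F : MvPolynomial (Fin 2) ℤ) :
    lineP s F = 0 ↔ lineP (-s) F = 0 := by
  have h1 := lineP_map (starRingEnd ℂ) s F
  rw [(s_props s hs).2] at h1
  rw [← h1, Polynomial.map_eq_zero]

theorem dvd_of_lineP (s : ℂ) (hs : 3 * s ^ 2 = -1) (F : MvPolynomial (Fin 2) ℤ)
    (hF : lineP s F = 0) : ∃ Q, F = normM * Q := by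
  obtain ⟨Q, A, B, h⟩ := div_normM F
  have hs0 := (s_props s hs).1
  have key : ∀ r : ℂ, 3 * r ^ 2 = -1 → lineP r F = 0 → ∀ t : ℂ,
      (A.map (Int.castRingHom ℂ)).eval t + (t / r) * (B.map (Int.castRingHom ℂ)).eval t = 0 := by
    intro r hr hrF t
    have hr0 := (s_props r hr).1
    have h1 : (lineP r F).eval (t / r) = 0 := by rw [hrF, eval_zero]
    rw [lineP_eval, h, map_add, map_add, map_mul, map_mul, aeval_normM, aeval_aeval,
      aeval_aeval, MvPolynomial.aeval_X] at h1
    have h2 : r * (t / r) = t := by field_simp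
    rw [h2] at h1
    have h3 : (t / r) ^ 2 + 3 * t ^ 2 = 0 := by
      field_simp
      linear_combination t ^ 2 * hr
    rw [h3, zero_mul, zero_add] at h1
    exact h1
  have k1 := key s hs hF
  have k2 := key (-s) (by linear_combination hs) ((lineP_conj s hs F).mp hF)
  have hA : A = 0 := by
    have : A.map (Int.castRingHom ℂ) = 0 := by
      apply Polynomial.funext
      intro t
      rw [eval_zero]
      have e : t / -s = -(t / s) := by rw [div_neg]
      have h1 := k1 t
      have h2 := k2 t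
      rw [e] at h2
      linear_combination (1 / 2) * h1 + (1 / 2) * h2
    exact (Polynomial.map_eq_zero_iff (RingHom.injective_int _)).mp this
  have hB : B = 0 := by
    have : X * B.map (Int.castRingHom ℂ) = 0 := by
      apply Polynomial.funext
      intro t
      rw [eval_zero, eval_mul, eval_X]
      have h1 := k1 t
      rw [hA, Polynomial.map_zero, eval_zero, zero_add, div_mul_eq_mul_div,
        div_eq_zero_iff] at h1
      exact h1.resolve_right hs0
    have h2 := (mul_eq_zero.mp this).resolve_left X_ne_zero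
    exact (Polynomial.map_eq_zero_iff (RingHom.injective_int _)).mp h2
  refine ⟨Q, ?_⟩
  rw [h, hA, hB]
  simp

theorem normM_totalDegree : 0 < normM.totalDegree := by
  rw [Nat.pos_iff_ne_zero]
  intro h
  rw [MvPolynomial.totalDegree_eq_zero_iff_eq_C] at h
  have h1 := aeval_normM (1 : ℤ) 0
  have h2 := aeval_normM (0 : ℤ) 0
  rw [h] at h1 h2
  simp only [MvPolynomial.aeval_C] at h1 h2
  rw [h1] at h2
  norm_num at h2

theorem normM_ne_zero : normM ≠ 0 := by
  intro h
  have := normM_totalDegree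
  rw [h] at this
  simp at this

theorem strip (s : ℂ) (hs : 3 * s ^ 2 = -1) (n : ℕ) : ∀ F : MvPolynomial (Fin 2) ℤ, F ≠ 0 →
    F.totalDegree ≤ n → ∃ (j : ℕ) (L : MvPolynomial (Fin 2) ℤ), F = normM ^ j * L ∧
      lineP s L ≠ 0 ∧ L.totalDegree ≤ F.totalDegree := by
  induction n with
  | zero =>
    intro F hF hn
    refine ⟨0, F, by simp, ?_, le_refl _⟩
    intro h
    obtain ⟨Q, hQ⟩ := dvd_of_lineP s hs F h
    have hQ0 : Q ≠ 0 := by
      rintro rfl
      exact hF (by rw [hQ, mul_zero])
    have h1 := MvPolynomial.totalDegree_mul_of_isDomain normM_ne_zero hQ0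
    rw [← hQ] at h1
    have := normM_totalDegree
    omega
  | succ n ih =>
    intro F hF hn
    by_cases h : lineP s F = 0
    · obtain ⟨Q, hQ⟩ := dvd_of_lineP s hs F h
      have hQ0 : Q ≠ 0 := by
        rintro rfl
        exact hF (by rw [hQ, mul_zero])
      have h1 := MvPolynomial.totalDegree_mul_of_isDomain normM_ne_zero hQ0
      rw [← hQ] at h1
      have h2 := normM_totalDegree
      obtain ⟨j, L, hL, hL1, hL2⟩ := ih Q hQ0 (by omega)
      refine ⟨j + 1, L, ?_, hL1, by omega⟩
      rw [hQ]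
      nth_rewrite 1 [hL]
      ring
    · exact ⟨0, F, by simp, h, le_refl _⟩

/-! ### The order of `T` modulo `p` on a plane curve -/

theorem exists_s : ∃ s : ℂ, 3 * s ^ 2 = -1 := by
  obtain ⟨z, hz⟩ := IsAlgClosed.exists_pow_nat_eq (-1 / 3 : ℂ) (n := 2) (by norm_num)
  exact ⟨z, by rw [hz]; ring⟩

/-- On the curve `F(T,S) = 0` the order `m` of `T` modulo `p = (T²+3S²)/4` satisfies
`φ(lcm(m,3)) ≤ 2 deg F`, or it is at least `c log p`. -/
theorem curve_order (F : MvPolynomial (Fin 2) ℤ) (hF : F ≠ 0) : ∃ c : ℝ, 0 < c ∧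
    ∀ p : ℕ, ∀ _ : Fact p.Prime, p % 3 = 1 → ∀ T S : ℤ, 4 * (p : ℤ) = T ^ 2 + 3 * S ^ 2 →
      MvPolynomial.eval ![T, S] F = 0 →
      (Nat.lcm (orderOf (T : ZMod p)) 3).totient ≤ 2 * F.totalDegree ∨
        c * Real.log p ≤ orderOf (T : ZMod p) := by
  obtain ⟨s, hs⟩ := exists_s
  obtain ⟨j, L, hFL, hL0, hLd⟩ := strip s hs _ F hF le_rfl
  obtain ⟨k, A, B, hsplit⟩ := lineP_split L
  set G : ℤ[X] := 3 * A ^ 2 + B ^ 2 with hG
  set Λ : ℝ := max 2 (len G) with hΛ
  have hΛ2 : 2 ≤ Λ := le_max_left _ _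
  have hlog : 0 < Real.log Λ := Real.log_pos (by linarith)
  refine ⟨1 / Real.log Λ, by positivity, ?_⟩
  intro p hp h3 T S hTS hzero
  have hpr : p.Prime := hp.out
  have hp5 : 5 ≤ p := by
    have := hpr.two_le
    have h4 : p ≠ 4 := by rintro rfl; exact absurd hpr (by norm_num)
    omega
  -- `T` is a unit modulo `p`
  have hTS' : (T : ZMod p) ^ 2 + 3 * (S : ZMod p) ^ 2 = 0 := by
    have := congrArg (fun z : ℤ => (z : ZMod p)) hTS
    push_cast at this
    rw [ZMod.natCast_self, mul_zero] at this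
    exact this.symm
  have hT0 : (T : ZMod p) ≠ 0 := by
    intro h
    have h30 : (3 : ZMod p) ≠ 0 := by
      intro h3z
      have : ((3 : ℕ) : ZMod p) = 0 := by exact_mod_cast h3z
      rw [ZMod.natCast_eq_zero_iff] at this
      have := Nat.le_of_dvd (by norm_num) this
      omega
    rw [h] at hTS'
    have hS0 : (S : ZMod p) = 0 := by
      have : (3 : ZMod p) * (S : ZMod p) ^ 2 = 0 := by linear_combination hTS'
      exact pow_eq_zero_iff (two_ne_zero) |>.mp ((mul_eq_zero.mp this).resolve_left h30)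
    rw [ZMod.intCast_zmod_eq_zero_iff_dvd] at h hS0
    obtain ⟨a, ha⟩ := h
    obtain ⟨b, hb⟩ := hS0
    rw [ha, hb] at hTS
    have h5 : 4 * (p : ℤ) = p * (p * (a ^ 2 + 3 * b ^ 2)) := by
      rw [hTS]; ring
    have hp0 : (p : ℤ) ≠ 0 := by exact_mod_cast hpr.ne_zero
    have h6 : (4 : ℤ) = p * (a ^ 2 + 3 * b ^ 2) := by
      apply mul_left_cancel₀ hp0
      rw [← h5]; ring
    have h7 : (p : ℤ) ∣ 4 := ⟨_, h6⟩
    have h8 := Int.le_of_dvd (by norm_num) h7
    omega
  set t : ZMod p := (T : ZMod p) with ht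
  set m := orderOf t with hm
  have hmpos : 0 < m := by
    rw [hm, orderOf_pos_iff, isOfFinOrder_iff_pow_eq_one]
    exact ⟨p - 1, by omega, ZMod.pow_card_sub_one_eq_one hT0⟩
  have hprim : IsPrimitiveRoot t m := IsPrimitiveRoot.orderOf t
  -- the point lies on `L = 0`
  have hLzero : MvPolynomial.eval ![T, S] L = 0 := by
    rw [hFL, map_mul, map_pow] at hzero
    have h1 : MvPolynomial.eval ![T, S] normM = T ^ 2 + 3 * S ^ 2 := by
      unfold normM
      simp
    rw [h1, ← hTS] at hzero
    have h2 : (4 * (p : ℤ)) ^ j ≠ 0 := by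
      apply pow_ne_zero
      have : (p : ℤ) ≠ 0 := by exact_mod_cast hpr.ne_zero
      positivity
    exact (mul_eq_zero.mp hzero).resolve_left h2
  have hLp : MvPolynomial.aeval ![t, (S : ZMod p)] L = 0 := by
    have h1 := congrArg (fun z : ℤ => (z : ZMod p)) hLzero
    simp only [Int.cast_zero] at h1
    rw [← h1]
    have h2 := MvPolynomial.eval₂_comp_left (Int.castRingHom (ZMod p)) (RingHom.id ℤ) ![T, S] L
    rw [MvPolynomial.aeval_def]
    have h3 : (Int.castRingHom (ZMod p)) (MvPolynomial.eval ![T, S] L) =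
        ((MvPolynomial.eval ![T, S] L : ℤ) : ZMod p) := rfl
    rw [← h3]
    unfold MvPolynomial.eval
    rw [MvPolynomial.coe_eval₂Hom, h2]
    congr 1
    funext i
    rcases fin2_cases i with rfl | rfl <;> simp [ht]
  have hsp : 3 * ((S : ZMod p) / t) ^ 2 = -1 := by
    field_simp
    linear_combination hTS'
  have hPp : (lineP ((S : ZMod p) / t) L).eval t = 0 := by
    rw [lineP_eval, div_mul_cancel₀ _ hT0, hLp]
  have hGp : (G.map (Int.castRingHom (ZMod p))).eval t = 0 := by
    have h1 := congrArg (fun P : (ZMod p)[X] => P.eval t) (hsplit (ZMod p) _ hsp)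
    simp only [eval_mul, hPp, mul_zero, eval_add, eval_C] at h1
    rw [hG]
    simp only [Polynomial.map_add, Polynomial.map_mul, Polynomial.map_pow, Polynomial.map_ofNat,
      eval_add, eval_mul, eval_pow, eval_ofNat]
    generalize eval t (A.map (Int.castRingHom (ZMod p))) = a at *
    generalize eval t (B.map (Int.castRingHom (ZMod p))) = b at *
    generalize (S : ZMod p) / t = r at *
    linear_combination (-3 * (a - r * b)) * h1 + b ^ 2 * hsp
  rcases res_main G m p hmpos t hprim hGp with hle | ⟨η, hη, hη0⟩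
  · right
    have h1 : (p : ℝ) ≤ Λ ^ m := by
      refine hle.trans ?_
      calc (len G : ℝ) ^ m.totient ≤ Λ ^ m.totient :=
            pow_le_pow_left₀ (Nat.cast_nonneg _) (le_max_right _ _) _
        _ ≤ Λ ^ m := pow_le_pow_right₀ (by linarith) (Nat.totient_le m)
    have hp0 : (0 : ℝ) < p := by exact_mod_cast hpr.pos
    have h2 : Real.log p ≤ m * Real.log Λ := by
      have := Real.log_le_log hp0 h1
      rwa [Real.log_pow] at this
    rw [one_div, inv_mul_le_iff₀ hlog]
    linarith
  · left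
    have h1 := hsplit ℂ s hs
    have h2 := hsplit ℂ (-s) (by linear_combination hs)
    have h3 : (lineP s L).eval η = 0 ∨ (lineP (-s) L).eval η = 0 := by
      have e1 := congrArg (fun P : ℂ[X] => P.eval η) h1
      have e2 := congrArg (fun P : ℂ[X] => P.eval η) h2
      simp only [eval_mul, eval_add, eval_C, eval_pow, eval_ofNat] at e1 e2
      rw [hG] at hη0
      simp only [Polynomial.map_add, Polynomial.map_mul, Polynomial.map_pow,
        Polynomial.map_ofNat, eval_add, eval_mul, eval_pow, eval_ofNat] at hη0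
      generalize eval η (A.map (Int.castRingHom ℂ)) = a at *
      generalize eval η (B.map (Int.castRingHom ℂ)) = b at *
      have e3 : ((3 : ℂ) ^ k * eval η (lineP s L)) * ((3 : ℂ) ^ k * eval η (lineP (-s) L)) = 0 := by
        rw [e1, e2]
        linear_combination (1 / 3) * hη0 - (1 / 3) * b ^ 2 * hs
      have h30 : (3 : ℂ) ^ k ≠ 0 := pow_ne_zero _ (by norm_num)
      rcases mul_eq_zero.mp e3 with h | h
      · exact Or.inl ((mul_eq_zero.mp h).resolve_left h30)
      · exact Or.inr ((mul_eq_zero.mp h).resolve_left h30)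
    have h4 : (Nat.lcm m 3).totient ≤ 2 * L.totalDegree := by
      rcases h3 with h | h
      · exact deg_bound s hs L hL0 m hmpos η hη h
      · exact deg_bound (-s) (by linear_combination hs) L
          (fun h' => hL0 ((lineP_conj s hs L).mpr h')) m hmpos η hη h
    omega

end Glaisher
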