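import Mathlib

/-!
Glaisher numbers, and congruences modulo `p ^ 2` between rational numbers whose
denominator is prime to `p`.
-/

namespace Glaisher

open PowerSeries

/-- The Glaisher numbers: `∑ G_n x^n / n! = (3/2) / (e^x + e^(-x) + 1)`. -/
noncomputable def glaisher (n : ℕ) : ℚ :=
  (n.factorial : ℚ) * PowerSeries.coeff n
    (PowerSeries.C (3 / 2 : ℚ) *
      (PowerSeries.exp ℚ + PowerSeries.evalNegHom (PowerSeries.exp ℚ) + 1)⁻¹)

/-- `r ≡ s (mod p ^ 2)` for rational numbers: `r - s = p ^ 2 * z` for a rational `z`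
whose denominator is prime to `p`. -/
def CongSq (p : ℕ) (r s : ℚ) : Prop :=
  ∃ z : ℚ, z.den.Coprime p ∧ r - s = (p : ℚ) ^ 2 * z

end Glaisher
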