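import Pool.Agent.Glaisher.Curve
import Pool.Agent.Glaisher.CurveOrder

/-!
Polynomial families of primes: only finitely many members of a polynomial family
`4 p = f(t)² + 3 g(t)²` have bounded order of the binomial coefficient modulo `p²`.
-/

namespace Glaisher

open Finset Polynomial

/-! ### Divisibility at infinitely many integers -/

theorem small_ratio (R B : ℤ[X]) (h : R.degree < B.degree) :
    ∃ N : ℕ, ∀ t : ℤ, (N : ℤ) ≤ t → B.eval t ∣ R.eval t → R.eval t = 0 := by
  have h1 : (R.map (Int.castRingHom ℝ)).degree < (B.map (Int.castRingHom ℝ)).degree := by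
    rw [degree_map_eq_of_injective (RingHom.injective_int _),
      degree_map_eq_of_injective (RingHom.injective_int _)]
    exact h
  have h2 := Polynomial.div_tendsto_atTop_zero_of_degree_lt _ _ h1
  have h3 := h2.eventually (Metric.ball_mem_nhds (0 : ℝ) one_pos)
  rw [Filter.eventually_atTop] at h3
  obtain ⟨x0, hx0⟩ := h3
  obtain ⟨N, hN⟩ := exists_nat_ge x0
  refine ⟨N, fun t ht hd => ?_⟩
  have h4 := hx0 (t : ℝ) (hN.trans (by exact_mod_cast ht))
  have e1 : (R.map (Int.castRingHom ℝ)).eval (t : ℝ) = ((R.eval t : ℤ) : ℝ) := by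
    rw [eval_intCast_map]
    simp
  have e2 : (B.map (Int.castRingHom ℝ)).eval (t : ℝ) = ((B.eval t : ℤ) : ℝ) := by
    rw [eval_intCast_map]
    simp
  rw [dist_zero_right, e1, e2, norm_div] at h4
  by_contra hR0
  have hB0 : B.eval t ≠ 0 := by
    intro hB0
    rw [hB0, zero_dvd_iff] at hd
    exact hR0 hd
  have hBpos : 0 < ‖((B.eval t : ℤ) : ℝ)‖ := by
    rw [norm_pos_iff]
    exact_mod_cast hB0
  rw [div_lt_one hBpos, Real.norm_eq_abs, Real.norm_eq_abs] at h4
  have h5 : |R.eval t| < |B.eval t| := by exact_mod_cast h4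
  exact hR0 (Int.eq_zero_of_abs_lt_dvd ((abs_dvd _ _).mpr hd) h5)

theorem poly_dvd_of_infinite (A B : ℤ[X]) (hB : B ≠ 0) (S : Set ℤ) (hS : S.Infinite)
    (h : ∀ t ∈ S, B.eval t ∣ A.eval t) :
    B.map (Int.castRingHom ℚ) ∣ A.map (Int.castRingHom ℚ) := by
  set A' := A.map (Int.castRingHom ℚ) with hA'
  set B' := B.map (Int.castRingHom ℚ) with hB'
  have hB0 : B' ≠ 0 := by
    rw [hB', Ne, Polynomial.map_eq_zero_iff (RingHom.injective_int _)]
    exact hB
  have hdiv : B' * (A' / B') + A' % B' = A' := EuclideanDomain.div_add_mod A' B'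
  obtain ⟨b1, hb1, h1⟩ := IsLocalization.integerNormalization_spec
    (nonZeroDivisors ℤ) (A' / B')
  obtain ⟨b2, hb2, h2⟩ := IsLocalization.integerNormalization_spec
    (nonZeroDivisors ℤ) (A' % B')
  set q' := IsLocalization.integerNormalization (nonZeroDivisors ℤ) (A' / B') with hq'
  set r' := IsLocalization.integerNormalization (nonZeroDivisors ℤ) (A' % B') with hr'
  have hb1' : b1 ≠ 0 := nonZeroDivisors.ne_zero hb1
  have hb2' : b2 ≠ 0 := nonZeroDivisors.ne_zero hb2
  have e1 : q'.map (Int.castRingHom ℚ) = C (b1 : ℚ) * (A' / B') := by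
    have : q'.map (algebraMap ℤ ℚ) = q'.map (Int.castRingHom ℚ) := rfl
    rw [← this, h1, zsmul_eq_mul]
    simp
  have e2 : r'.map (Int.castRingHom ℚ) = C (b2 : ℚ) * (A' % B') := by
    have : r'.map (algebraMap ℤ ℚ) = r'.map (Int.castRingHom ℚ) := rfl
    rw [← this, h2, zsmul_eq_mul]
    simp
  have hZ : C (b1 * b2) * A = B * (C b2 * q') + C b1 * r' := by
    apply Polynomial.map_injective (Int.castRingHom ℚ) (RingHom.injective_int _)
    simp only [Polynomial.map_mul, Polynomial.map_add, map_C, e1, e2]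
    rw [← hA', ← hB']
    simp only [Int.coe_castRingHom, map_mul]
    linear_combination (-(C (b1 : ℚ) * C (b2 : ℚ))) * hdiv
  have hr : r'.degree < B.degree := by
    have h3 : (r'.map (Int.castRingHom ℚ)).degree < B'.degree := by
      rw [e2, degree_C_mul (by exact_mod_cast hb2')]
      exact EuclideanDomain.mod_lt A' hB0
    rwa [degree_map_eq_of_injective (RingHom.injective_int _), hB',
      degree_map_eq_of_injective (RingHom.injective_int _)] at h3
  set R := C b1 * r' with hR
  have hRdeg : R.degree < B.degree := by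
    rw [hR, degree_C_mul hb1']
    exact hr
  have hRdvd : ∀ t ∈ S, B.eval t ∣ R.eval t := by
    intro t ht
    have h3 := congrArg (Polynomial.eval t) hZ
    rw [eval_mul, eval_add, eval_mul] at h3
    have h4 : R.eval t = eval t (C (b1 * b2)) * eval t A - eval t B * eval t (C b2 * q') := by
      rw [h3]; ring
    rw [h4]
    exact dvd_sub ((h t ht).mul_left _) (Dvd.intro _ rfl)
  have hR0 : R = 0 := by
    by_contra hne
    obtain ⟨N1, hN1⟩ := small_ratio R B hRdeg
    have hcomp : (R.comp (-X)).degree < (B.comp (-X)).degree := by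
      rw [degree_eq_natDegree (by
          intro h0
          apply hne
          have : (R.comp (-X)).comp (-X) = R := by rw [comp_assoc]; simp
          rw [← this, h0, zero_comp]),
        degree_eq_natDegree (by
          intro h0
          apply hB
          have : (B.comp (-X)).comp (-X) = B := by rw [comp_assoc]; simp
          rw [← this, h0, zero_comp]), natDegree_comp, natDegree_comp]
      simp only [natDegree_neg, natDegree_X, mul_one]
      rw [← degree_eq_natDegree hne, ← degree_eq_natDegree hB]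
      exact hRdeg
    obtain ⟨N2, hN2⟩ := small_ratio _ _ hcomp
    apply hS
    refine ((Set.finite_Icc (-(N2 : ℤ)) N1).union (R.rootSet_finite ℤ)).subset ?_
    intro t ht
    by_cases h5 : t ∈ Set.Icc (-(N2 : ℤ)) N1
    · exact Or.inl h5
    · right
      rw [mem_rootSet]
      refine ⟨hne, ?_⟩
      rw [coe_aeval_eq_eval]
      rw [Set.mem_Icc, not_and_or, not_le, not_le] at h5
      rcases h5 with h5 | h5
      · have h6 := hN2 (-t) (by omega)
        simp only [eval_comp, eval_neg, eval_X, neg_neg] at h6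
        exact h6 (hRdvd t ht)
      · exact hN1 t h5.le (hRdvd t ht)
  have hr0 : A' % B' = 0 := by
    have h3 : r' = 0 := by
      rw [hR] at hR0
      exact (mul_eq_zero.mp hR0).resolve_left (by simpa using hb1')
    rw [h3, Polynomial.map_zero] at e2
    exact (mul_eq_zero.mp e2.symm).resolve_left (by
      rw [C_eq_zero]
      exact_mod_cast hb2')
  rw [hr0, add_zero] at hdiv
  exact ⟨A' / B', hdiv.symm⟩

/-! ### Second order expansion -/

theorem add_pow_second {R : Type*} [CommRing R] (a b : R) (n : ℕ) :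
    ∃ c, (a + b) ^ (n + 1) = a ^ (n + 1) + (n + 1) * a ^ n * b + c * b ^ 2 := by
  induction n with
  | zero => exact ⟨0, by simp⟩
  | succ n ih =>
    obtain ⟨c, hc⟩ := ih
    refine ⟨(n + 1) * a ^ n + c * a + c * b, ?_⟩
    rw [pow_succ, hc]
    push_cast
    ring

theorem second_order {R : Type*} [CommRing R] (a b : R) (n : ℕ) :
    ∃ c, (a + b) ^ (n + 2) - (n + 2) * (a * b) * (a + b) ^ n = a ^ (n + 2) + c * b ^ 2 := by
  obtain ⟨c, hc⟩ := add_pow_second a b (n + 1)
  obtain ⟨d, hd⟩ : ∃ d, (a + b) ^ n = a ^ n + d * b := by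
    rcases n with _ | n
    · exact ⟨0, by simp⟩
    · obtain ⟨e, he⟩ := add_pow_second a b n
      exact ⟨(n + 1) * a ^ n + e * b, by rw [he]; ring⟩
  refine ⟨c - (n + 2) * a * d, ?_⟩
  rw [show n + 2 = n + 1 + 1 by ring, hc, hd]
  push_cast
  ring

/-- No polynomials `α, β` of equal positive degree with `β² ∣ α^(n+2) - 1`. -/
theorem no_poly (α β : ℂ[X]) (n : ℕ) (hdeg : α.natDegree = β.natDegree) (hpos : 0 < α.natDegree)
    (h : β ^ 2 ∣ α ^ (n + 2) - 1) : False := by
  have hcop : IsCoprime β α := by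
    obtain ⟨q, hq⟩ := h
    exact ⟨-(β * q), α ^ (n + 1), by
      have e : α ^ (n + 2) = α ^ (n + 1) * α := pow_succ _ _
      rw [e] at hq
      linear_combination hq⟩
  have hder : β ∣ derivative (α ^ (n + 2) - 1) := by
    obtain ⟨q, hq⟩ := h
    rw [hq, derivative_mul, derivative_pow]
    refine ⟨C 2 * derivative β * q + β * derivative q, ?_⟩
    simp
    ring
  rw [derivative_sub, derivative_one, sub_zero, derivative_pow] at hder
  have h1 : β ∣ derivative α := by
    have h2 : IsCoprime β (C (((n + 2 : ℕ) : ℂ)) * α ^ (n + 2 - 1)) := by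
      apply IsCoprime.mul_right
      · have hne : ((n + 2 : ℕ) : ℂ) ≠ 0 := by exact_mod_cast (Nat.succ_ne_zero (n + 1))
        exact ⟨0, C (((n + 2 : ℕ) : ℂ))⁻¹, by rw [zero_mul, zero_add, ← C_mul,
          inv_mul_cancel₀ hne, C_1]⟩
      · exact hcop.pow_right
    exact h2.dvd_of_dvd_mul_left hder
  have h3 : derivative α ≠ 0 := by
    intro h0
    have := derivative_eq_zero.mp h0
    omega
  have h4 := natDegree_le_of_dvd h1 h3
  have h5 := natDegree_derivative_lt hpos.ne'
  omega

/-- Polynomial families contain only finitely many primes with bounded order. -/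
theorem families (f g : ℤ[X]) (hfg : 0 < f.natDegree ∨ 0 < g.natDegree) (n : ℕ) :
    {t : ℤ | ∃ p : ℕ, p.Prime ∧ p % 3 = 1 ∧ 4 * (p : ℤ) = (f.eval t) ^ 2 + 3 * (g.eval t) ^ 2 ∧
      orderOf ((cc p : ℕ) : ZMod (p ^ 2)) ≤ n}.Finite := by
  by_contra hinf
  rw [← Set.Infinite] at hinf
  -- the exponent
  set k : ℕ := 6 * (n + 1).factorial with hk
  have hfac : 0 < (n + 1).factorial := Nat.factorial_pos _
  obtain ⟨M, hM⟩ : ∃ M, k = M + 2 := ⟨k - 2, by omega⟩
  set Q : ℤ[X] := f ^ 2 + 3 * g ^ 2 with hQ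
  set A : ℤ[X] := 4 * f ^ (M + 2) - (M + 2) * Q * f ^ M - 4 with hA
  have key : ∀ t ∈ {t : ℤ | ∃ p : ℕ, p.Prime ∧ p % 3 = 1 ∧
      4 * (p : ℤ) = (f.eval t) ^ 2 + 3 * (g.eval t) ^ 2 ∧
      orderOf ((cc p : ℕ) : ZMod (p ^ 2)) ≤ n}, (Q ^ 2).eval t ∣ (16 * A).eval t := by
    rintro t ⟨p, hp, h3, h4, hord⟩
    have : Fact p.Prime := ⟨hp⟩
    have h7 := seven_le hp h3
    obtain ⟨D⟩ := exists_data h4 h7
    have hc := cc_pow_six (jacobiHyp h3) h7 h4 D
    have hn0 := orderOf_pos_cc (p := p) h3
    have hdvd : orderOf ((cc p : ℕ) : ZMod (p ^ 2)) ∣ (n + 1).factorial :=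
      Nat.dvd_factorial hn0 (by omega)
    have hu : D.u ^ (M + 2) = 1 := by
      rw [← hM, hk, pow_mul, ← hc, ← pow_mul, mul_comm, pow_mul,
        orderOf_dvd_iff_pow_eq_one.mp hdvd, one_pow]
    obtain ⟨c, hc2⟩ := second_order D.u D.v M
    rw [D.add, D.uv, D.v2, mul_zero, add_zero, hu] at hc2
    have hQt : Q.eval t = 4 * (p : ℤ) := by
      rw [hQ, h4]
      simp
    have hAt : A.eval t = 4 * ((f.eval t) ^ (M + 2) - (M + 2) * p * (f.eval t) ^ M - 1) := by
      rw [hA]
      simp only [eval_sub, eval_mul, eval_pow, eval_add, hQt, eval_natCast, eval_ofNat]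
      ring
    have hz : (((f.eval t) ^ (M + 2) - (M + 2) * p * (f.eval t) ^ M - 1 : ℤ) :
        ZMod (p ^ 2)) = 0 := by
      push_cast
      rw [hc2]
      ring
    rw [ZMod.intCast_zmod_eq_zero_iff_dvd] at hz
    obtain ⟨e, he⟩ := hz
    rw [eval_mul, eval_pow, hQt, hAt, he]
    refine ⟨4 * e, ?_⟩
    push_cast
    simp
    ring
  have hQ0 : Q ≠ 0 := by
    intro h0
    have h1 : ∀ x : ℤ, (f.eval x) ^ 2 + 3 * (g.eval x) ^ 2 = 0 := by
      intro x
      have := congrArg (fun q => Polynomial.eval x q) h0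
      simpa [hQ] using this
    have hf : f = 0 := by
      apply Polynomial.funext
      intro x
      have h2 : (f.eval x) ^ 2 = 0 := by
        nlinarith [h1 x, sq_nonneg (f.eval x), sq_nonneg (g.eval x)]
      rw [eval_zero]
      exact pow_eq_zero_iff two_ne_zero |>.mp h2
    have hg : g = 0 := by
      apply Polynomial.funext
      intro x
      have h2 : (g.eval x) ^ 2 = 0 := by
        nlinarith [h1 x, sq_nonneg (f.eval x), sq_nonneg (g.eval x)]
      rw [eval_zero]
      exact pow_eq_zero_iff two_ne_zero |>.mp h2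
    rw [hf, hg] at hfg
    simp at hfg
  have hdQ := poly_dvd_of_infinite (16 * A) (Q ^ 2) (pow_ne_zero 2 hQ0) _ hinf key
  have hdC : (Q.map (Int.castRingHom ℂ)) ^ 2 ∣ 16 * A.map (Int.castRingHom ℂ) := by
    have h1 := Polynomial.map_dvd (algebraMap ℚ ℂ) hdQ
    rw [Polynomial.map_map, Polynomial.map_map] at h1
    have e : (algebraMap ℚ ℂ).comp (Int.castRingHom ℚ) = Int.castRingHom ℂ := by
      ext; simp
    rw [e] at h1
    simpa using h1
  obtain ⟨s, hs⟩ := exists_s
  obtain ⟨hs0, hsc⟩ := s_props s hs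
  set fc := f.map (Int.castRingHom ℂ) with hfc
  set gc := g.map (Int.castRingHom ℂ) with hgc
  set α : ℂ[X] := C (1 / 2) * (fc + C (3 * s) * gc) with hα
  set β : ℂ[X] := C (1 / 2) * (fc - C (3 * s) * gc) with hβ
  have hhalf : (2 : ℂ[X]) * C (1 / 2) = 1 := by
    rw [← C_ofNat, ← C_mul]
    norm_num
  have hs2 : (C (3 * s) : ℂ[X]) ^ 2 = -3 := by
    rw [← C_pow]
    have : (3 * s) ^ 2 = -3 := by linear_combination 3 * hs
    rw [this, C_neg, C_ofNat]
  have hadd : α + β = fc := by
    rw [hα, hβ]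
    linear_combination fc * hhalf
  have hsub : α - β = C (3 * s) * gc := by
    rw [hα, hβ]
    linear_combination (C (3 * s) * gc) * hhalf
  have hQc : Q.map (Int.castRingHom ℂ) = 4 * (α * β) := by
    have : 4 * (α * β) = (α + β) ^ 2 - (α - β) ^ 2 := by ring
    rw [this, hadd, hsub, hQ]
    simp only [Polynomial.map_add, Polynomial.map_mul, Polynomial.map_pow, Polynomial.map_ofNat,
      ← hfc, ← hgc]
    linear_combination (gc ^ 2) * hs2
  obtain ⟨c, hc⟩ := second_order α β M
  have hAc : A.map (Int.castRingHom ℂ) = 4 * (α ^ (M + 2) - 1) + (4 * c) * β ^ 2 := by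
    rw [hA]
    simp only [Polynomial.map_sub, Polynomial.map_add, Polynomial.map_mul, Polynomial.map_pow,
      Polynomial.map_ofNat, Polynomial.map_natCast, hQc, ← hfc]
    rw [← hadd]
    linear_combination 4 * hc
  have hβd : β ^ 2 ∣ α ^ (M + 2) - 1 := by
    have h1 : β ^ 2 ∣ 16 * A.map (Int.castRingHom ℂ) := by
      refine dvd_trans ?_ hdC
      rw [hQc]
      exact ⟨16 * α ^ 2, by ring⟩
    obtain ⟨d, hd⟩ := h1
    rw [hAc] at hd
    refine ⟨C (1 / 64) * (d - 64 * c), ?_⟩
    have h64 : (64 : ℂ[X]) * C (1 / 64) = 1 := by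
      rw [← C_ofNat, ← C_mul]
      norm_num
    linear_combination C (1 / 64) * hd - (α ^ (M + 2) - 1) * h64
  have hconj : α.map (starRingEnd ℂ) = β := by
    have hreal : ∀ q : ℤ[X], (q.map (Int.castRingHom ℂ)).map (starRingEnd ℂ) =
        q.map (Int.castRingHom ℂ) := by
      intro q
      rw [Polynomial.map_map]
      congr 1
      ext
      simp
    rw [hα, hβ]
    simp only [Polynomial.map_mul, Polynomial.map_add, map_C, hfc, hgc, hreal]
    have e1 : (starRingEnd ℂ) (1 / 2) = 1 / 2 := by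
      rw [map_div₀, map_one, map_ofNat]
    have e2 : (starRingEnd ℂ) (3 * s) = -(3 * s) := by
      rw [map_mul, hsc, map_ofNat]; ring
    rw [e1, e2, C_neg]
    ring
  have hdeg : α.natDegree = β.natDegree := by
    rw [← hconj, natDegree_map_eq_of_injective (starRingEnd ℂ).injective]
  have hpos : 0 < α.natDegree := by
    rw [Nat.pos_iff_ne_zero]
    intro h0
    have hb0 : β.natDegree = 0 := hdeg ▸ h0
    have h1 : fc.natDegree = 0 := by
      rw [← hadd]
      have := natDegree_add_le α β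
      omega
    have h2 : gc.natDegree = 0 := by
      have h3 : gc = C ((3 * s)⁻¹) * (α - β) := by
        rw [hsub, ← mul_assoc, ← C_mul, inv_mul_cancel₀ (by simpa using hs0), C_1, one_mul]
      rw [h3]
      have h4 := natDegree_C_mul_le ((3 * s)⁻¹) (α - β)
      have h5 := natDegree_sub_le α β
      omega
    rw [hfc, natDegree_map_eq_of_injective (RingHom.injective_int _)] at h1
    rw [hgc, natDegree_map_eq_of_injective (RingHom.injective_int _)] at h2
    omega
  exact no_poly α β M hdeg hpos hβd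

end Glaisher
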