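import Pool.Agent.Glaisher.Curve

/-!
Consequences for the Glaisher numbers: the value of `G_{p-1}` modulo `p ^ 2`, the criterion by
orders, and the classification of the primes for which `C` has small order.
-/

namespace Glaisher

open Finset

/-- For integers, `CongSq` is the usual congruence. -/
theorem congSq_int {p : ℕ} (_hp : p.Prime) {a b : ℤ} :
    CongSq p (a : ℚ) (b : ℚ) ↔ (a : ZMod (p ^ 2)) = (b : ZMod (p ^ 2)) := by
  have key : (a : ZMod (p ^ 2)) = (b : ZMod (p ^ 2)) ↔ (p : ℤ) ^ 2 ∣ a - b := by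
    have h := ZMod.intCast_zmod_eq_zero_iff_dvd (a - b) (p ^ 2)
    rw [Int.cast_sub, sub_eq_zero] at h
    rw [h]
    push_cast
    rfl
  rw [key]
  constructor
  · rintro ⟨z, hz, h⟩
    have hden : (z.den : ℚ) ≠ 0 := by exact_mod_cast z.den_nz
    have h1 : ((a - b : ℤ) : ℚ) * z.den = (p : ℚ) ^ 2 * z.num := by
      have h2 : z * z.den = z.num := Rat.mul_den_eq_num z
      push_cast
      rw [h, mul_assoc, h2]
    have h3 : (a - b) * (z.den : ℤ) = (p : ℤ) ^ 2 * z.num := by exact_mod_cast h1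
    have h4 : IsCoprime ((p : ℤ) ^ 2) (z.den : ℤ) := by
      refine IsCoprime.pow_left ?_
      exact (Nat.isCoprime_iff_coprime.mpr hz).symm
    exact h4.dvd_of_dvd_mul_right ⟨z.num, h3⟩
  · rintro ⟨k, hk⟩
    refine ⟨(k : ℚ), by simp, ?_⟩
    have := congrArg (fun z : ℤ => (z : ℚ)) hk
    push_cast at this
    exact this

theorem CongSq.trans' {p : ℕ} {r s t : ℚ} (h1 : CongSq p r s) (h2 : CongSq p s t) :
    CongSq p r t := by
  obtain ⟨z, hz, h⟩ := h1
  obtain ⟨w, hw, h'⟩ := h2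
  exact ⟨z + w, PInt.add hz hw, by linear_combination h + h'⟩

theorem CongSq.symm' {p : ℕ} {r s : ℚ} (h1 : CongSq p r s) : CongSq p s r := by
  obtain ⟨z, hz, h⟩ := h1
  exact ⟨-z, PInt.neg hz, by linear_combination -h⟩

theorem CongSq.mul_int {p : ℕ} {r s : ℚ} (a : ℤ) (h1 : CongSq p r s) :
    CongSq p ((a : ℚ) * r) ((a : ℚ) * s) := by
  obtain ⟨z, hz, h⟩ := h1
  exact ⟨a * z, PInt.mul (PInt.int p a) hz, by linear_combination (a : ℚ) * h⟩

/-- `p ^ 2` divides `G_{p-1}` if and only if `C ^ (p - 1) ≡ 1` modulo `p ^ 2`. -/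
theorem q1_iff_pow {p : ℕ} (hp : p.Prime) (h3 : p % 3 = 1) :
    CongSq p (glaisher (p - 1)) 0 ↔ ((cc p : ℕ) : ZMod (p ^ 2)) ^ (p - 1) = 1 := by
  have h := glaisher_choose hp h3
  have h0 : (1 - (cc p : ℚ) ^ (p - 1)) = ((1 - (cc p : ℤ) ^ (p - 1) : ℤ) : ℚ) := by push_cast; rfl
  have h1 := congSq_int hp (a := 1 - (cc p : ℤ) ^ (p - 1)) (b := 0)
  rw [← h0] at h1
  push_cast at h1
  rw [sub_eq_zero] at h1
  constructor
  · intro h2
    exact (h1.mp (h.symm'.trans' h2)).symm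
  · intro h2
    exact h.trans' (h1.mpr h2.symm)

/-- Evaluation of `G_{p-1}` modulo `p ^ 2`. -/
theorem eval_main {p : ℕ} (hp : p.Prime) (h3 : p % 3 = 1) {T S : ℤ}
    (h : 4 * (p : ℤ) = T ^ 2 + 3 * S ^ 2) :
    CongSq p ((T : ℚ) ^ 2 * glaisher (p - 1)) ((T : ℚ) ^ 2 - (T : ℚ) ^ (p + 1) - p) := by
  have hf : Fact p.Prime := ⟨hp⟩
  have h7 := seven_le hp h3
  have h6 : 6 ∣ p - 1 := by
    rcases hp.eq_two_or_odd with h2 | h2
    · omega
    · omega
  have e1 := cc_pow (jacobiHyp h3) h7 h6 h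
  have e2 := (glaisher_choose hp h3).mul_int (T ^ 2)
  push_cast at e2
  refine e2.trans' ?_
  have e3 := congSq_int hp (a := T ^ 2 * (1 - (cc p : ℤ) ^ (p - 1))) (b := T ^ 2 - T ^ (p + 1) - p)
  push_cast at e3
  rw [e3]
  linear_combination -e1

theorem q1_iff_dvd {p : ℕ} (hp : p.Prime) (h3 : p % 3 = 1) {T S : ℤ}
    (h : 4 * (p : ℤ) = T ^ 2 + 3 * S ^ 2) :
    CongSq p (glaisher (p - 1)) 0 ↔ (p : ℤ) ^ 2 ∣ T ^ (p + 1) + p - T ^ 2 := by
  have hf : Fact p.Prime := ⟨hp⟩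
  have h7 := seven_le hp h3
  have h6 : 6 ∣ p - 1 := by
    rcases hp.eq_two_or_odd with h2 | h2
    · omega
    · omega
  have e1 := cc_pow (jacobiHyp h3) h7 h6 h
  have hT := isUnit_int (not_dvd_of_rep h h7).1
  have e2 := ZMod.intCast_zmod_eq_zero_iff_dvd (T ^ (p + 1) + p - T ^ 2) (p ^ 2)
  push_cast at e2
  rw [q1_iff_pow hp h3, ← e2]
  constructor
  · intro h1
    rw [h1] at e1
    linear_combination -e1
  · intro h1
    refine (hT.pow 2).mul_left_cancel ?_
    rw [e1]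
    linear_combination h1

/-- `p ^ 2` divides `G_{p-1}` if and only if `C` has the same order modulo `p` and `p ^ 2`. -/
theorem q1_iff_order {p : ℕ} (hp : p.Prime) (h3 : p % 3 = 1) :
    CongSq p (glaisher (p - 1)) 0 ↔
      orderOf ((cc p : ℕ) : ZMod (p ^ 2)) = orderOf ((cc p : ℕ) : ZMod p) := by
  have hf : Fact p.Prime := ⟨hp⟩
  rw [q1_iff_pow hp h3]
  have hunit : ((cc p : ℕ) : ZMod p) ≠ 0 := by
    have h := (isUnit_cc (p := p) h3).map (red p)
    rw [map_natCast] at h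
    exact h.ne_zero
  constructor
  · intro h
    apply Nat.dvd_antisymm
    · apply orderOf_dvd_of_pow_eq_one
      rcases lift_order h3 (pow_orderOf_eq_one ((cc p : ℕ) : ZMod p)) with h1 | h1
      · exact h1
      · exfalso
        have h2 := Nat.le_of_dvd (by have := hp.two_le; omega) (orderOf_dvd_of_pow_eq_one h)
        have := hp.two_le
        omega
    · apply orderOf_dvd_of_pow_eq_one
      have h2 := congrArg (red p) (pow_orderOf_eq_one ((cc p : ℕ) : ZMod (p ^ 2)))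
      rw [map_pow, map_natCast, map_one] at h2
      exact h2
  · intro h
    apply orderOf_dvd_iff_pow_eq_one.mp
    rw [h]
    exact orderOf_dvd_of_pow_eq_one (ZMod.pow_card_sub_one_eq_one hunit)

/-- For a prime `p = 3 x ^ 2 + 3 x + 1` one has `G_{p-1} ≡ -p` modulo `p ^ 2`. -/
theorem cuban {p : ℕ} (hp : p.Prime) (h : ∃ x : ℤ, (p : ℤ) = 3 * x ^ 2 + 3 * x + 1) :
    CongSq p (glaisher (p - 1)) (-(p : ℚ)) ∧ ¬ CongSq p (glaisher (p - 1)) 0 := by
  obtain ⟨x, hx⟩ := h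
  have h3 : p % 3 = 1 := by
    have h1 : (p : ℤ) % 3 = 1 := by
      rw [hx, show 3 * x ^ 2 + 3 * x + 1 = 1 + 3 * (x ^ 2 + x) by ring, Int.add_mul_emod_self_left]
      rfl
    omega
  have hrep : 4 * (p : ℤ) = 1 ^ 2 + 3 * (2 * x + 1) ^ 2 := by rw [hx]; ring
  have e1 := eval_main hp h3 hrep
  have e2 : CongSq p (glaisher (p - 1)) (-(p : ℚ)) := by
    have e3 : ((1 : ℤ) : ℚ) ^ 2 * glaisher (p - 1) = glaisher (p - 1) := by simp
    have e4 : ((1 : ℤ) : ℚ) ^ 2 - ((1 : ℤ) : ℚ) ^ (p + 1) - p = -(p : ℚ) := by simp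
    rwa [e3, e4] at e1
  refine ⟨e2, fun h0 => ?_⟩
  have e5 := (q1_iff_dvd hp h3 hrep).mp h0
  have e6 : (1 : ℤ) ^ (p + 1) + p - 1 ^ 2 = p := by simp
  rw [e6] at e5
  have h7 := seven_le hp h3
  have h8 := Int.le_of_dvd (by exact_mod_cast hp.pos) e5
  have h9 : (7 : ℤ) ≤ p := by exact_mod_cast h7
  nlinarith

/-- The order of `C` modulo `p ^ 2` never divides `18`. -/
theorem ne_eighteen {p : ℕ} (hp : p.Prime) (h3 : p % 3 = 1) :
    ((cc p : ℕ) : ZMod (p ^ 2)) ^ 18 ≠ 1 := by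
  have hf : Fact p.Prime := ⟨hp⟩
  have h7 := seven_le hp h3
  intro h1
  obtain ⟨T, S, h, hC⟩ := jacobiHyp (p := p) h3
  obtain ⟨D⟩ := exists_data h h7
  have hc := cc_pow_six (jacobiHyp h3) h7 h D
  refine case_eighteen h h7 D ?_
  have : D.u ^ 18 = (D.u ^ 6) ^ 3 := by ring
  rw [this, ← hc, ← pow_mul]; exact h1

/-- `C ^ 12 = 1` for the Cosgrave-Dilcher primes, and conversely. -/
theorem twelve_iff {p : ℕ} (hp : p.Prime) (h3 : p % 3 = 1) :
    ((cc p : ℕ) : ZMod (p ^ 2)) ^ 12 = 1 ↔ CD p := by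
  have hf : Fact p.Prime := ⟨hp⟩
  have h7 := seven_le hp h3
  constructor
  · intro h
    exact (order_iff (jacobiHyp h3) h7 h3).mp (Or.inl h)
  · rintro ⟨x, hx⟩
    obtain ⟨T, S, h, hC⟩ := jacobiHyp (p := p) h3
    obtain ⟨D⟩ := exists_data h h7
    have hc := cc_pow_six (jacobiHyp h3) h7 h D
    have := u12_of_pell h h7 D (Q := 2 * x + 1) (by rw [hx]; ring)
    have e : ((cc p : ℕ) : ZMod (p ^ 2)) ^ 12 = (((cc p : ℕ) : ZMod (p ^ 2)) ^ 6) ^ 2 := by ring
    rw [e, hc, ← pow_mul]; exact this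

/-- Classification of the solutions of Q1 for which `C` has small order modulo `p`. -/
theorem small_order {p : ℕ} (hp : p.Prime) (h3 : p % 3 = 1) :
    (CongSq p (glaisher (p - 1)) 0 ∧ (orderOf ((cc p : ℕ) : ZMod p) ∣ 12 ∨
      orderOf ((cc p : ℕ) : ZMod p) ∣ 18 ∨ orderOf ((cc p : ℕ) : ZMod p) ∣ 24)) ↔ CD p := by
  have hf : Fact p.Prime := ⟨hp⟩
  have h7 := seven_le hp h3
  constructor
  · rintro ⟨h0, h1⟩
    rw [← (q1_iff_order hp h3).mp h0] at h1
    refine (order_iff (jacobiHyp h3) h7 h3).mp ?_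
    simpa only [orderOf_dvd_iff_pow_eq_one] using h1
  · intro h0
    have h1 := (twelve_iff hp h3).mpr h0
    have h2 : ((cc p : ℕ) : ZMod p) ^ 12 = 1 := by
      have h4 := congrArg (red p) h1
      rw [map_pow, map_natCast, map_one] at h4
      exact h4
    refine ⟨?_, Or.inl (orderOf_dvd_of_pow_eq_one h2)⟩
    rw [q1_iff_order hp h3]
    have hsmall : orderOf ((cc p : ℕ) : ZMod (p ^ 2)) ∣ 12 := orderOf_dvd_of_pow_eq_one h1
    apply Nat.dvd_antisymm
    · apply orderOf_dvd_of_pow_eq_one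
      rcases lift_order h3 (pow_orderOf_eq_one ((cc p : ℕ) : ZMod p)) with h5 | h5
      · exact h5
      · -- `p` is `7` or `11`
        exfalso
        have h6 := Nat.le_of_dvd (by norm_num) hsmall
        obtain ⟨x, hx⟩ := h0
        have h8 : p = 7 := by
          have : p ≤ 12 := h5.trans h6
          interval_cases p <;> simp_all (config := { decide := true })
        rw [h8] at hx
        have h9 : (x - 4) * (x + 5) = -4 := by push_cast at hx; linarith
        have h10 : x ≤ 4 := by nlinarith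
        have h11 : -5 ≤ x := by nlinarith
        interval_cases x <;> omega
    · apply orderOf_dvd_of_pow_eq_one
      have h2 := congrArg (red p) (pow_orderOf_eq_one ((cc p : ℕ) : ZMod (p ^ 2)))
      rw [map_pow, map_natCast, map_one] at h2
      exact h2

end Glaisher
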