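import Pool.Agent.Glaisher.Curve
import Pool.Agent.Glaisher.CurveOrder

/-!
# Primes on a plane curve and the order of the binomial coefficient modulo `p²`
-/

namespace Glaisher

open Finset

theorem totient_lcm_six (m : ℕ) : (Nat.lcm m 6).totient = (Nat.lcm m 3).totient := by
  have h : Nat.lcm m 6 = Nat.lcm (Nat.lcm m 3) 2 := by
    rw [Nat.lcm_assoc]
    rfl
  rw [h]
  rcases Nat.even_or_odd (Nat.lcm m 3) with h2 | h2
  · rw [Nat.lcm_eq_left (even_iff_two_dvd.mp h2)]
  · have hc : Nat.Coprime (Nat.lcm m 3) 2 := Nat.coprime_two_right.mpr h2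
    rw [hc.lcm_eq_mul, Nat.totient_mul hc, Nat.totient_two, mul_one]

/-- Primes on a plane curve of degree at most three are Cosgrave-Dilcher primes or have large
order; on curves of larger degree the order may also belong to an explicit finite set. -/
theorem no_family (F : MvPolynomial (Fin 2) ℤ) (hF : F ≠ 0) : ∃ c : ℝ, 0 < c ∧
    ∀ p : ℕ, p.Prime → p % 3 = 1 → ∀ T S : ℤ, 4 * (p : ℤ) = T ^ 2 + 3 * S ^ 2 →
      MvPolynomial.eval ![T, S] F = 0 →
      CD p ∨ c * Real.log p ≤ orderOf ((cc p : ℕ) : ZMod (p ^ 2)) ∨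
        (4 ≤ F.totalDegree ∧
          (Nat.lcm (orderOf ((cc p : ℕ) : ZMod (p ^ 2))) 6).totient ≤ 2 * F.totalDegree) := by
  obtain ⟨c, hc, h⟩ := curve_order F hF
  refine ⟨min 1 (c / 6), lt_min one_pos (by positivity), ?_⟩
  intro p hp h3 T S hTS hzero
  have hfact : Fact p.Prime := ⟨hp⟩
  have h7 := seven_le hp h3
  obtain ⟨hT, hS, hC6⟩ := cc_six_modp h3 hTS
  set n := orderOf ((cc p : ℕ) : ZMod (p ^ 2)) with hn
  have hn0 : 0 < n := orderOf_pos_cc h3
  have hlogp : 0 ≤ Real.log p := Real.log_nonneg (by exact_mod_cast hp.one_lt.le)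
  have hlogpp : Real.log p ≤ p := (Real.log_le_sub_one_of_pos (by exact_mod_cast hp.pos)).trans
    (by linarith)
  have hbig : p ≤ n → min 1 (c / 6) * Real.log p ≤ n := by
    intro h
    calc min 1 (c / 6) * Real.log p ≤ 1 * Real.log p :=
          mul_le_mul_of_nonneg_right (min_le_left _ _) hlogp
      _ ≤ p := by linarith
      _ ≤ n := by exact_mod_cast h
  have hT6n : (T : ZMod p) ^ (6 * n) = 1 := by
    rw [pow_mul, ← hC6, ← pow_mul, mul_comm, pow_mul]
    have h1 : ((cc p : ℕ) : ZMod p) ^ n = 1 := by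
      have h2 := congrArg (red p) (pow_orderOf_eq_one ((cc p : ℕ) : ZMod (p ^ 2)))
      rw [map_pow, map_natCast, map_one] at h2
      exact h2
    rw [h1, one_pow]
  set m := orderOf (T : ZMod p) with hm
  have hmle : m ≤ 6 * n := Nat.le_of_dvd (by omega) (orderOf_dvd_of_pow_eq_one hT6n)
  have hm0 : 0 < m := Nat.pos_of_dvd_of_pos (orderOf_dvd_of_pow_eq_one hT6n) (by omega)
  -- powers of `C` and of `T`
  have hpow : ∀ k, (T : ZMod p) ^ (6 * k) = 1 → ((cc p : ℕ) : ZMod (p ^ 2)) ^ (6 * k) = 1 ∨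
      p ≤ n := by
    intro k hk
    apply lift_order h3
    rw [pow_mul, hC6, ← pow_mul, hk]
  rcases h p hfact h3 T S hTS hzero with h1 | h1
  · by_cases hd : 4 ≤ F.totalDegree
    · -- the general bound
      obtain ⟨k, hk⟩ : ∃ k, Nat.lcm m 6 = 6 * k := Nat.dvd_lcm_right m 6
      have hTk : (T : ZMod p) ^ (6 * k) = 1 := by
        rw [← hk]
        exact orderOf_dvd_iff_pow_eq_one.mp (Nat.dvd_lcm_left m 6)
      rcases hpow k hTk with h2 | h2
      · right; right
        refine ⟨hd, ?_⟩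
        rw [← hk] at h2
        have h4 : Nat.lcm n 6 ∣ Nat.lcm m 6 :=
          Nat.lcm_dvd (orderOf_dvd_of_pow_eq_one h2) (Nat.dvd_lcm_right m 6)
        have h5 : (Nat.lcm m 6).totient ≤ 2 * F.totalDegree := by
          rw [totient_lcm_six]; exact h1
        refine le_trans (Nat.le_of_dvd ?_ (Nat.totient_dvd_of_dvd h4)) h5
        exact Nat.totient_pos.mpr (Nat.lcm_pos hm0 (by norm_num))
      · right; left; exact hbig h2
    · -- degree at most three
      rw [← hm] at h1
      have h6 : (Nat.lcm m 3).totient ≤ 6 := by omega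
      have hl := totient_le_six (Nat.lcm_pos hm0 (by norm_num)) (Nat.dvd_lcm_right m 3) h6
      have hfin : ((cc p : ℕ) : ZMod (p ^ 2)) ^ 12 = 1 ∨ ((cc p : ℕ) : ZMod (p ^ 2)) ^ 18 = 1 ∨
          p ≤ n := by
        rcases hl with hl | hl
        · rcases hpow 2 (orderOf_dvd_iff_pow_eq_one.mp
            ((Nat.dvd_lcm_left m 3).trans hl)) with h2 | h2
          · exact Or.inl h2
          · exact Or.inr (Or.inr h2)
        · rcases hpow 3 (orderOf_dvd_iff_pow_eq_one.mp
            ((Nat.dvd_lcm_left m 3).trans hl)) with h2 | h2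
          · exact Or.inr (Or.inl h2)
          · exact Or.inr (Or.inr h2)
      rcases hfin with h2 | h2 | h2
      · left; exact (order_iff (jacobiHyp h3) h7 h3).mp (Or.inl h2)
      · left; exact (order_iff (jacobiHyp h3) h7 h3).mp (Or.inr (Or.inl h2))
      · right; left; exact hbig h2
  · right; left
    calc min 1 (c / 6) * Real.log p ≤ (c / 6) * Real.log p :=
          mul_le_mul_of_nonneg_right (min_le_right _ _) hlogp
      _ = (c * Real.log p) / 6 := by ring
      _ ≤ (m : ℝ) / 6 := by linarith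
      _ ≤ n := by
        have : (m : ℝ) ≤ 6 * n := by exact_mod_cast hmle
        linarith

end Glaisher
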