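import Pool.Agent.Glaisher.PellDiv

/-!
Parametrization of the Pell conic by `u`: `X = (u + u⁻¹) / 2`, `Y = (u - u⁻¹) / (2 √d)`.
-/

namespace Glaisher

open Polynomial

/-- `u ^ m f((u + u⁻¹) / 2)` as a polynomial in `u`. -/
noncomputable def hat1 (f : ℚ[X]) (m : ℕ) : ℂ[X] :=
  ∑ i ∈ Finset.range (m + 1), C ((f.coeff i : ℂ) / 2 ^ i) * ((X ^ 2 + 1) ^ i * X ^ (m - i))

theorem natDegree_aux (i k : ℕ) : ((X ^ 2 + 1 : ℂ[X]) ^ i * X ^ k).natDegree ≤ 2 * i + k := by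
  refine natDegree_mul_le.trans ?_
  have h1 : ((X ^ 2 + 1 : ℂ[X]) ^ i).natDegree ≤ i * 2 := by
    refine natDegree_pow_le.trans ?_
    have : (X ^ 2 + 1 : ℂ[X]).natDegree ≤ 2 := by
      have e : (X ^ 2 + 1 : ℂ[X]) = X ^ 2 + C 1 := by simp
      rw [e, natDegree_X_pow_add_C]
    exact Nat.mul_le_mul_left i this
  rw [natDegree_X_pow]
  omega

theorem hat1_natDegree (f : ℚ[X]) (m : ℕ) : (hat1 f m).natDegree ≤ 2 * m := by
  refine natDegree_sum_le_of_forall_le _ _ fun i hi => ?_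
  have hi' : i ≤ m := by simpa [Nat.lt_succ_iff] using hi
  refine (natDegree_C_mul_le _ _).trans ((natDegree_aux _ _).trans ?_)
  omega

theorem hat1_coeff_top (f : ℚ[X]) (m : ℕ) : (hat1 f m).coeff (2 * m) = (f.coeff m : ℂ) / 2 ^ m := by
  rw [hat1, finsetSum_coeff, Finset.sum_range_succ, Finset.sum_eq_zero, zero_add]
  · rw [coeff_C_mul, Nat.sub_self, pow_zero, mul_one]
    have e : (X ^ 2 + 1 : ℂ[X]) = X ^ 2 + C 1 := by simp
    have hm : ((X ^ 2 + 1 : ℂ[X]) ^ m).Monic := by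
      rw [e]; exact (monic_X_pow_add_C 1 (by norm_num)).pow m
    have hd : ((X ^ 2 + 1 : ℂ[X]) ^ m).natDegree = 2 * m := by
      rw [e, natDegree_pow, natDegree_X_pow_add_C]; ring
    have := hm.coeff_natDegree
    rw [hd] at this
    rw [this, mul_one]
  · intro i hi
    have hi' : i < m := by simpa using hi
    have h0 : ((X ^ 2 + 1 : ℂ[X]) ^ i * X ^ (m - i)).coeff (2 * m) = 0 := by
      refine coeff_eq_zero_of_natDegree_lt (lt_of_le_of_lt (natDegree_aux _ _) ?_)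
      omega
    rw [coeff_C_mul, h0, mul_zero]

theorem hat1_coeff_zero (f : ℚ[X]) (m : ℕ) : (hat1 f m).coeff 0 = (f.coeff m : ℂ) / 2 ^ m := by
  rw [coeff_zero_eq_eval_zero, hat1, eval_finsetSum, Finset.sum_range_succ, Finset.sum_eq_zero,
    zero_add]
  · simp
  · intro i hi
    have hi' : i < m := by simpa using hi
    have : m - i ≠ 0 := by omega
    simp [this]

theorem hat1_eval (f : ℚ[X]) (m : ℕ) (hf : f.natDegree ≤ m) (u : ℂ) (hu : u ≠ 0) :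
    (hat1 f m).eval u = u ^ m * aeval ((u + u⁻¹) / 2) f := by
  rw [aeval_eq_sum_range' (n := m + 1) (by omega), Finset.mul_sum, hat1, eval_finsetSum]
  refine Finset.sum_congr rfl fun i hi => ?_
  have hi' : i ≤ m := by simpa [Nat.lt_succ_iff] using hi
  obtain ⟨k, hk⟩ : ∃ k, m = i + k := ⟨m - i, by omega⟩
  subst hk
  have e1 : i + k - i = k := by omega
  have e2 : (u + u⁻¹) / 2 = (u ^ 2 + 1) / (2 * u) := by field_simp
  rw [e1, e2]
  simp only [eval_mul, eval_C, eval_pow, eval_add, eval_X, eval_one, Algebra.smul_def,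
    eq_ratCast, div_pow, mul_pow, pow_add]
  field_simp

theorem hat1_conj (f : ℚ[X]) (m : ℕ) : (hat1 f m).map (starRingEnd ℂ) = hat1 f m := by
  rw [hat1, Polynomial.map_sum]
  refine Finset.sum_congr rfl fun i _ => ?_
  have h2 : (starRingEnd ℂ) 2 = 2 := map_ofNat _ 2
  simp [Polynomial.map_mul, Polynomial.map_pow, h2]

/-- The polynomial `u ^ m z`. -/
noncomputable def hat {d : ℕ} (s : ℝ) (z : PA d) (m : ℕ) : ℂ[X] :=
  hat1 z.re m + C (1 / (2 * (s : ℂ))) * ((X ^ 2 - 1) * hat1 z.im (m - 1))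

theorem natDegree_aux2 (f : ℚ[X]) {m : ℕ} (hm : 1 ≤ m) (c : ℂ) :
    (C c * ((X ^ 2 - 1) * hat1 f (m - 1))).natDegree ≤ 2 * m := by
  refine (natDegree_C_mul_le _ _).trans (natDegree_mul_le.trans ?_)
  have e : (X ^ 2 - 1 : ℂ[X]) = X ^ 2 - C 1 := by simp
  rw [e, natDegree_X_pow_sub_C]
  have := hat1_natDegree f (m - 1)
  omega

theorem hat_natDegree {d : ℕ} (s : ℝ) (z : PA d) {m : ℕ} (hm : 1 ≤ m) :
    (hat s z m).natDegree ≤ 2 * m := by
  refine (natDegree_add_le _ _).trans (max_le (hat1_natDegree _ _) (natDegree_aux2 _ hm _))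

theorem hat_coeff_top {d : ℕ} (s : ℝ) (z : PA d) {m : ℕ} (hm : 1 ≤ m) :
    (hat s z m).coeff (2 * m) = ((z.re.coeff m : ℂ) + (z.im.coeff (m - 1) : ℂ) / s) / 2 ^ m := by
  obtain ⟨k, rfl⟩ : ∃ k, m = k + 1 := ⟨m - 1, by omega⟩
  have e1 : k + 1 - 1 = k := by omega
  rw [hat, coeff_add, hat1_coeff_top, coeff_C_mul, sub_mul, coeff_sub, one_mul, e1]
  have e2 : 2 * (k + 1) = 2 * k + 2 := by ring
  have h1 : (X ^ 2 * hat1 z.im k).coeff (2 * (k + 1)) = (hat1 z.im k).coeff (2 * k) := by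
    rw [e2, mul_comm, coeff_mul_X_pow]
  have h2 : (hat1 z.im k).coeff (2 * (k + 1)) = 0 :=
    coeff_eq_zero_of_natDegree_lt (lt_of_le_of_lt (hat1_natDegree _ _) (by omega))
  rw [h1, h2, hat1_coeff_top, pow_succ]
  by_cases hs : (s : ℂ) = 0
  · simp [hs]
  · field_simp
    ring

theorem hat_coeff_zero {d : ℕ} (s : ℝ) (z : PA d) {m : ℕ} (hm : 1 ≤ m) :
    (hat s z m).coeff 0 = ((z.re.coeff m : ℂ) - (z.im.coeff (m - 1) : ℂ) / s) / 2 ^ m := by
  obtain ⟨k, rfl⟩ : ∃ k, m = k + 1 := ⟨m - 1, by omega⟩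
  have e1 : k + 1 - 1 = k := by omega
  rw [hat, coeff_add, hat1_coeff_zero, coeff_C_mul, mul_coeff_zero, hat1_coeff_zero, e1]
  have h1 : (X ^ 2 - 1 : ℂ[X]).coeff 0 = -1 := by simp
  rw [h1, pow_succ]
  by_cases hs : (s : ℂ) = 0
  · simp [hs]
  · field_simp
    ring

theorem hat_eval {d : ℕ} {s : ℝ} (hs : s ≠ 0) (z : PA d) {m : ℕ} (hm : 1 ≤ m)
    (hre : z.re.natDegree ≤ m) (him : z.im.natDegree ≤ m - 1) (u : ℂ) (hu : u ≠ 0) :
    (hat s z m).eval u = u ^ m * (aeval ((u + u⁻¹) / 2) z.re +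
      aeval ((u + u⁻¹) / 2) z.im * ((u - u⁻¹) / (2 * s))) := by
  obtain ⟨k, rfl⟩ : ∃ k, m = k + 1 := ⟨m - 1, by omega⟩
  have e1 : k + 1 - 1 = k := by omega
  rw [e1] at him
  have hs' : (s : ℂ) ≠ 0 := by exact_mod_cast hs
  rw [hat, eval_add, hat1_eval _ _ hre u hu, eval_mul, eval_C, eval_mul, e1,
    hat1_eval _ _ him u hu]
  simp only [eval_sub, eval_pow, eval_X, eval_one]
  have e2 : (u - u⁻¹) / (2 * (s : ℂ)) = (u ^ 2 - 1) / (2 * s * u) := by field_simp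
  rw [e2, pow_succ]
  field_simp

theorem hat_conj {d : ℕ} (s : ℝ) (z : PA d) (m : ℕ) :
    (hat s z m).map (starRingEnd ℂ) = hat s z m := by
  rw [hat, Polynomial.map_add, Polynomial.map_mul, Polynomial.map_mul, hat1_conj, hat1_conj, map_C]
  have h2 : (starRingEnd ℂ) 2 = 2 := map_ofNat _ 2
  have h1 : (starRingEnd ℂ) (1 / (2 * (s : ℂ))) = 1 / (2 * s) := by
    simp [h2]
  rw [h1]
  simp

end Glaisher
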