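import Mathlib

/-!
The polynomial part of the Pell families: if `y ^ 2` divides `x ^ M + y ^ M - X ^ (m M)`, where
`y` is the complex conjugate of the polynomial `x` of degree `2 m` with non-zero constant term,
then `ρ̄ x ^ 2 + ρ y ^ 2 = X ^ (2 m)` for a root of unity `ρ`.
-/

namespace Glaisher

open Polynomial

theorem pell_alg {m M : ℕ} (hm : 0 < m) (hM : 0 < M) {x y : ℂ[X]}
    (hy : y = x.map (starRingEnd ℂ)) (hdeg : x.natDegree = 2 * m) (h0 : x.coeff 0 ≠ 0)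
    (hdvd : y ^ 2 ∣ x ^ (2 * M) + y ^ (2 * M) - X ^ (m * (2 * M))) :
    (4 * x.leadingCoeff * x.coeff 0) ^ M = 1 ∧
    C ((starRingEnd ℂ) (4 * x.leadingCoeff * x.coeff 0)) * x ^ 2 +
      C (4 * x.leadingCoeff * x.coeff 0) * y ^ 2 = X ^ (2 * m) := by
  have hx0 : x ≠ 0 := by intro h; rw [h] at h0; simp at h0
  have hycoeff : ∀ i, y.coeff i = (starRingEnd ℂ) (x.coeff i) := by
    intro i; rw [hy, coeff_map]
  have hy0 : y.coeff 0 ≠ 0 := by
    rw [hycoeff]; simpa using h0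
  have hydeg : y.natDegree = 2 * m := by
    rw [hy, natDegree_map_eq_of_injective (starRingEnd ℂ).injective, hdeg]
  have hyne : y ≠ 0 := by intro h; rw [h] at hy0; simp at hy0
  -- coprimality with `X`
  have hcopX : IsCoprime y X := by
    have h1 : ¬ (X : ℂ[X]) ∣ y := by rw [X_dvd_iff]; exact hy0
    exact ((irreducible_X.coprime_iff_not_dvd).mpr h1).symm
  obtain ⟨h, hh⟩ := hdvd
  -- `x ^ (2 M) - X ^ (m (2 M)) = y ^ 2 * h'`
  obtain ⟨h', hh'⟩ : ∃ h', x ^ (2 * M) - X ^ (m * (2 * M)) = y ^ 2 * h' := by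
    obtain ⟨k, hk⟩ : ∃ k, 2 * M = 2 + k := ⟨2 * M - 2, by omega⟩
    refine ⟨h - y ^ k, ?_⟩
    have : y ^ (2 * M) = y ^ 2 * y ^ k := by rw [hk, pow_add]
    rw [this] at hh
    linear_combination hh
  have hcop : IsCoprime y x := by
    have h1 : IsCoprime y (X ^ (m * (2 * M))) := hcopX.pow_right
    have h2 : IsCoprime y (x ^ (2 * M)) := by
      have h3 : x ^ (2 * M) = X ^ (m * (2 * M)) + y * (y * h') := by linear_combination hh'
      rw [h3]
      exact h1.add_mul_left_right _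
    exact (IsCoprime.pow_right_iff (by omega)).mp h2
  -- derivative
  have hder : y ∣ x ^ (2 * M - 1) * (X * derivative x - C (m : ℂ) * x) := by
    have h1 := congrArg derivative hh'
    simp only [derivative_sub, derivative_mul, derivative_pow, derivative_X, mul_one] at h1
    have hMc : (2 * M : ℂ) ≠ 0 := by
      have : (M : ℂ) ≠ 0 := by exact_mod_cast hM.ne'
      simp [this]
    have e1 : x ^ (2 * M) = x ^ (2 * M - 1) * x := by
      rw [← pow_succ]; congr 1; omega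
    have e2 : (X : ℂ[X]) ^ (m * (2 * M)) = X ^ (m * (2 * M) - 1) * X := by
      rw [← pow_succ]; congr 1
      have : 0 < m * (2 * M) := by positivity
      omega
    have h2 : C ((2 * M : ℕ) : ℂ) * (x ^ (2 * M - 1) * (X * derivative x - C (m : ℂ) * x)) =
        y * (X * (2 * derivative y * h' + y * derivative h') - C ((2 * M : ℕ) : ℂ) * C (m : ℂ) *
          (y * h')) := by
      have e3 : C ((m * (2 * M) : ℕ) : ℂ) = C (m : ℂ) * C ((2 * M : ℕ) : ℂ) := by
        rw [← C_mul]; push_cast; rfl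
      rw [e3] at h1
      have e4 : C ((2 : ℕ) : ℂ) = 2 := by
        push_cast
        exact map_ofNat C 2
      rw [e4] at h1
      simp only [pow_one, Nat.add_one_sub_one] at h1
      linear_combination X * h1 - C ((2 * M : ℕ) : ℂ) * C (m : ℂ) * (hh' - e1 + e2) 
    have h3 : y ∣ C ((2 * M : ℕ) : ℂ) * (x ^ (2 * M - 1) * (X * derivative x - C (m : ℂ) * x)) :=
      ⟨_, h2⟩
    have h4 : IsUnit (C ((2 * M : ℕ) : ℂ)) := by
      rw [isUnit_C]; exact (by exact_mod_cast (by omega : 2 * M ≠ 0) : ((2 * M : ℕ) : ℂ) ≠ 0).isUnit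
    exact (h4.dvd_mul_left).mp h3
  have hdvd2 : y ∣ X * derivative x - C (m : ℂ) * x := (hcop.pow_right).dvd_of_dvd_mul_left hder
  -- the quotient is a constant
  set δ : ℂ[X] := X * derivative x - C (m : ℂ) * x with hδ
  have hδcoeff : ∀ i : ℕ, δ.coeff i = ((i : ℂ) - m) * x.coeff i := by
    intro i
    rw [hδ, coeff_sub, coeff_C_mul]
    rcases i with _ | i
    · simp
    · rw [coeff_X_mul, coeff_derivative]; push_cast; ring
  have hδdeg : δ.natDegree ≤ 2 * m := by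
    rw [natDegree_le_iff_coeff_eq_zero]
    intro i hi
    rw [hδcoeff, coeff_eq_zero_of_natDegree_lt (by rw [hdeg]; exact hi), mul_zero]
  obtain ⟨q, hq⟩ := hdvd2
  have hδ0 : δ ≠ 0 := by
    intro h0'
    have h1 := hδcoeff 0
    rw [h0', coeff_zero] at h1
    have hm' : (m : ℂ) ≠ 0 := by exact_mod_cast hm.ne'
    have h2 : (m : ℂ) * x.coeff 0 = 0 := by push_cast at h1; linear_combination h1
    rcases mul_eq_zero.mp h2 with h3 | h3
    · exact hm' h3
    · exact h0 h3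
  have hq0 : q ≠ 0 := by intro h; rw [h, mul_zero] at hq; exact hδ0 hq
  have hqdeg : q.natDegree = 0 := by
    have h1 := natDegree_mul hyne hq0
    rw [← hq, hydeg] at h1
    omega
  obtain ⟨κ, hκ⟩ : ∃ κ : ℂ, q = C κ := ⟨q.coeff 0, eq_C_of_natDegree_eq_zero hqdeg⟩
  have hrel : ∀ i : ℕ, ((i : ℂ) - m) * x.coeff i = κ * (starRingEnd ℂ) (x.coeff i) := by
    intro i
    rw [← hδcoeff, hq, hκ, mul_comm y (C κ), coeff_C_mul, hycoeff]
  have hmC : (m : ℂ) ≠ 0 := by exact_mod_cast hm.ne'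
  set α := x.leadingCoeff with hα
  set β := x.coeff 0 with hβ
  have hαne : α ≠ 0 := by rw [hα]; exact leadingCoeff_ne_zero.mpr hx0
  have hrel0 : -(m : ℂ) * β = κ * (starRingEnd ℂ) β := by
    have := hrel 0
    push_cast at this
    rw [← this]; ring
  have hrel2 : (m : ℂ) * α = κ * (starRingEnd ℂ) α := by
    have := hrel (2 * m)
    rw [← hdeg, coeff_natDegree, hdeg] at this
    push_cast at this
    rw [← this]; ring
  -- `|κ| = m`
  have hκm : κ * (starRingEnd ℂ) κ = (m : ℂ) ^ 2 := by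
    have h1 := congrArg (starRingEnd ℂ) hrel2
    simp only [map_mul, Complex.conj_natCast, Complex.conj_conj] at h1
    have h2 : (κ * (starRingEnd ℂ) κ) * α = (m : ℂ) ^ 2 * α := by
      linear_combination (-κ) * h1 - (m : ℂ) * hrel2
    exact mul_right_cancel₀ hαne h2
  have hmid : ∀ i : ℕ, i ≠ 0 → i ≠ 2 * m → x.coeff i = 0 := by
    intro i hi0 hi2
    have h1 := hrel i
    have h2 := congrArg (starRingEnd ℂ) h1
    simp only [map_mul, map_sub, Complex.conj_natCast, Complex.conj_conj] at h2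
    have h3 : (((i : ℂ) - m) ^ 2 - (m : ℂ) ^ 2) * x.coeff i = 0 := by
      linear_combination ((i : ℂ) - m) * h1 + κ * h2 + x.coeff i * hκm
    rcases mul_eq_zero.mp h3 with h4 | h4
    · exfalso
      have h5 : (i : ℂ) * ((i : ℂ) - 2 * m) = 0 := by linear_combination h4
      rcases mul_eq_zero.mp h5 with h6 | h6
      · exact hi0 (by exact_mod_cast h6)
      · apply hi2
        have : (i : ℂ) = ((2 * m : ℕ) : ℂ) := by push_cast; linear_combination h6
        exact_mod_cast this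
    · exact h4
  have hxeq : x = C α * X ^ (2 * m) + C β := by
    ext i
    rw [coeff_add, coeff_C_mul, coeff_X_pow, coeff_C]
    by_cases hi0 : i = 0
    · subst hi0
      rw [if_neg (by omega), if_pos rfl]; simp [hβ]
    · by_cases hi2 : i = 2 * m
      · rw [if_pos hi2, if_neg hi0, hi2, hα, ← hdeg]; simp
      · rw [if_neg hi2, if_neg hi0, hmid i hi0 hi2]; simp
  have hyeq : C κ * y = C (m : ℂ) * (C α * X ^ (2 * m) - C β) := by
    rw [hy, hxeq]
    simp only [Polynomial.map_add, Polynomial.map_mul, map_C, Polynomial.map_pow, map_X]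
    rw [mul_add, ← mul_assoc, ← C_mul, ← C_mul, ← hrel2, ← hrel0]
    simp only [C_mul, C_neg]
    ring
  set ρ : ℂ := 4 * α * β with hρ
  have hsq : C ((m : ℂ) ^ 2) * (x ^ 2 - C ρ * X ^ (2 * m)) = (C κ * y) ^ 2 := by
    rw [hyeq, hρ]
    conv_lhs => rw [hxeq]
    simp only [C_mul, C_pow]
    have e4 : (C (4 : ℂ) : ℂ[X]) = 4 := map_ofNat C 4
    rw [e4]
    ring
  have hm2u : IsUnit (C ((m : ℂ) ^ 2)) := by
    rw [isUnit_C]; exact (pow_ne_zero 2 hmC).isUnit
  have hd1 : y ^ 2 ∣ x ^ 2 - C ρ * X ^ (2 * m) := by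
    refine (hm2u.dvd_mul_left).mp ⟨C κ ^ 2, ?_⟩
    rw [hsq]; ring
  have hd2 : y ^ 2 ∣ x ^ (2 * M) - C (ρ ^ M) * X ^ (m * (2 * M)) := by
    have h1 := hd1.trans (sub_dvd_pow_sub_pow (x ^ 2) (C ρ * X ^ (2 * m)) M)
    have e1 : (x ^ 2) ^ M - (C ρ * X ^ (2 * m)) ^ M = x ^ (2 * M) - C (ρ ^ M) * X ^ (m * (2 * M)) := by
      rw [← pow_mul, mul_pow, ← pow_mul, C_pow]
      congr 2
      ring
    rwa [e1] at h1
  have hd3 : y ^ 2 ∣ C (ρ ^ M - 1) * X ^ (m * (2 * M)) := by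
    have h1 : y ^ 2 ∣ x ^ (2 * M) - X ^ (m * (2 * M)) := ⟨h', hh'⟩
    have h2 := dvd_sub h1 hd2
    have e1 : x ^ (2 * M) - X ^ (m * (2 * M)) - (x ^ (2 * M) - C (ρ ^ M) * X ^ (m * (2 * M))) =
        C (ρ ^ M - 1) * X ^ (m * (2 * M)) := by
      rw [C_sub, C_1]; ring
    rwa [e1] at h2
  have hρM : ρ ^ M = 1 := by
    have h1 : IsCoprime (y ^ 2) (X ^ (m * (2 * M))) := hcopX.pow
    have h2 := h1.dvd_of_dvd_mul_right hd3
    by_contra hne
    have h3 : C (ρ ^ M - 1) ≠ 0 := by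
      rw [Ne, C_eq_zero]; exact sub_ne_zero.mpr hne
    have h4 := natDegree_le_of_dvd h2 h3
    rw [natDegree_C, natDegree_pow, hydeg] at h4
    omega
  refine ⟨hρM, ?_⟩
  -- `κ ^ 2 ρ̄ = - m ^ 2 ρ`
  have hρbar : κ ^ 2 * (starRingEnd ℂ) ρ = -(m : ℂ) ^ 2 * ρ := by
    rw [hρ]
    simp only [map_mul]
    have e4 : (starRingEnd ℂ) (4 : ℂ) = 4 := map_ofNat _ 4
    rw [e4]
    linear_combination (-4 * κ * (starRingEnd ℂ) β) * hrel2 - (4 * (m : ℂ) * α) * hrel0
  have hρ1 : ρ * (starRingEnd ℂ) ρ = 1 := by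
    rw [Complex.mul_conj]
    have h1 : ‖ρ‖ = 1 := by
      have h2 : ‖ρ‖ ^ M = 1 := by rw [← norm_pow, hρM, norm_one]
      exact (pow_eq_one_iff_of_nonneg (norm_nonneg _) hM.ne').mp h2
    rw [Complex.normSq_eq_norm_sq, h1]; simp
  -- conclusion
  have hfin : C ((m : ℂ) ^ 2) * (C ((starRingEnd ℂ) ρ) * x ^ 2 + C ρ * y ^ 2) =
      C ((m : ℂ) ^ 2) * X ^ (2 * m) := by
    have e1 : C (κ ^ 2) * C ((starRingEnd ℂ) ρ) = -C ((m : ℂ) ^ 2) * C ρ := by
      rw [← C_mul, hρbar, C_mul, C_neg]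
    have e2 : C ρ * C ((starRingEnd ℂ) ρ) = 1 := by rw [← C_mul, hρ1, C_1]
    rw [mul_pow, ← C_pow] at hsq
    linear_combination (C ((starRingEnd ℂ) ρ)) * hsq + (y ^ 2) * e1 +
      (C ((m : ℂ) ^ 2) * X ^ (2 * m)) * e2
  exact mul_left_cancel₀ hm2u.ne_zero hfin

end Glaisher
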