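import Pool.Agent.Glaisher.Lucas
import Pool.Agent.Glaisher.PellAlg
import Pool.Agent.Glaisher.Hat

/-!
Pell families: on `x ^ 2 - d y ^ 2 = 1`, `T = f1(x) + f2(x) y`, `S = g1(x) + g2(x) y`.
-/

namespace Glaisher

open Polynomial

/-- rational roots of unity in `ℚ(√-3)` -/
theorem root_of_unity {θ : ℂ} (hθ : θ ^ 2 = -3) (hθc : (starRingEnd ℂ) θ = -θ) {r1 r2 : ℚ} {M : ℕ}
    (hM : 0 < M) (h : ((r1 : ℂ) + r2 * θ) ^ M = 1) :
    ∃ E F : ℤ, 2 * r1 = E ∧ 2 * r2 = F ∧ E ^ 2 + 3 * F ^ 2 = 4 := by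
  have hconj : (starRingEnd ℂ) ((r1 : ℂ) + r2 * θ) = r1 - r2 * θ := by
    simp [hθc]; ring
  have h' : ((r1 : ℂ) - r2 * θ) ^ M = 1 := by
    rw [← hconj, ← map_pow, h, map_one]
  have hnorm : ((r1 : ℂ) + r2 * θ) * ((r1 : ℂ) - r2 * θ) = 1 := by
    rw [← hconj, Complex.mul_conj]
    have h1 : ‖((r1 : ℂ) + r2 * θ)‖ = 1 := by
      have h2 : ‖((r1 : ℂ) + r2 * θ)‖ ^ M = 1 := by rw [← norm_pow, h, norm_one]
      exact (pow_eq_one_iff_of_nonneg (norm_nonneg _) hM.ne').mp h2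
    rw [Complex.normSq_eq_norm_sq, h1]; simp
  have hN : r1 ^ 2 + 3 * r2 ^ 2 = 1 := by
    have : ((r1 : ℂ)) ^ 2 + 3 * (r2 : ℂ) ^ 2 = 1 := by linear_combination hnorm + (r2 : ℂ) ^ 2 * hθ
    exact_mod_cast this
  have hi1 : IsIntegral ℤ ((r1 : ℂ) + r2 * θ) := IsIntegral.of_pow hM (by rw [h]; exact isIntegral_one)
  have hi2 : IsIntegral ℤ ((r1 : ℂ) - r2 * θ) := IsIntegral.of_pow hM (by rw [h']; exact isIntegral_one)
  have hi3 : IsIntegral ℤ (algebraMap ℚ ℂ (2 * r1)) := by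
    have := hi1.add hi2
    have e : ((r1 : ℂ) + r2 * θ) + ((r1 : ℂ) - r2 * θ) = algebraMap ℚ ℂ (2 * r1) := by
      simp; ring
    rwa [e] at this
  have hi4 : IsIntegral ℤ (2 * r1 : ℚ) :=
    (isIntegral_algebraMap_iff (FaithfulSMul.algebraMap_injective ℚ ℂ)).mp hi3
  obtain ⟨E, hE⟩ := IsIntegrallyClosed.isIntegral_iff.mp hi4
  have hE' : 2 * r1 = E := by rw [← hE]; simp
  have hsum : (E : ℚ) ^ 2 + 3 * (2 * r2) ^ 2 = 4 := by rw [← hE']; linear_combination 4 * hN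
  have hE1 : (-2 : ℤ) ≤ E := by
    have : (-2 : ℚ) ≤ E := by nlinarith [sq_nonneg (2 * r2)]
    exact_mod_cast this
  have hE2 : E ≤ 2 := by
    have : (E : ℚ) ≤ 2 := by nlinarith [sq_nonneg (2 * r2)]
    exact_mod_cast this
  have hcase : (2 * r2 = 0 ∧ E ^ 2 = 4) ∨ ((2 * r2 = 1 ∨ 2 * r2 = -1) ∧ E ^ 2 = 1) := by
    interval_cases E
    · left
      refine ⟨?_, by norm_num⟩
      have : (2 * r2) ^ 2 = 0 := by push_cast at hsum; linarith
      exact pow_eq_zero_iff two_ne_zero |>.mp this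
    · right
      refine ⟨?_, by norm_num⟩
      have h5 : (2 * r2 - 1) * (2 * r2 + 1) = 0 := by push_cast at hsum; linarith
      rcases mul_eq_zero.mp h5 with h6 | h6
      · left; linarith
      · right; linarith
    · exfalso
      have h3 : IsSquare ((3 : ℕ) : ℚ) := ⟨3 * (2 * r2) / 2, by push_cast at hsum ⊢; linarith⟩
      rw [Rat.isSquare_natCast_iff] at h3
      obtain ⟨r, hr⟩ := h3
      have hr2 : r < 2 := by nlinarith
      interval_cases r <;> omega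
    · right
      refine ⟨?_, by norm_num⟩
      have h5 : (2 * r2 - 1) * (2 * r2 + 1) = 0 := by push_cast at hsum; linarith
      rcases mul_eq_zero.mp h5 with h6 | h6
      · left; linarith
      · right; linarith
    · left
      refine ⟨?_, by norm_num⟩
      have : (2 * r2) ^ 2 = 0 := by push_cast at hsum; linarith
      exact pow_eq_zero_iff two_ne_zero |>.mp this
  rcases hcase with ⟨h1, h2⟩ | ⟨h1 | h1, h2⟩
  · exact ⟨E, 0, hE', by rw [h1]; simp, by rw [h2]; norm_num⟩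
  · exact ⟨E, 1, hE', by rw [h1]; simp, by rw [h2]; norm_num⟩
  · exact ⟨E, -1, hE', by rw [h1]; simp, by rw [h2]; norm_num⟩

theorem cd_of_identity {p : ℕ} {T S E F : ℤ} (h : 4 * (p : ℤ) = T ^ 2 + 3 * S ^ 2)
    (hEF : E ^ 2 + 3 * F ^ 2 = 4) (hid : E * (T ^ 2 - 3 * S ^ 2) + 6 * F * T * S = 4) : CD p := by
  set Z : ℤ := 2 * E * T * S - F * (T ^ 2 - 3 * S ^ 2) with hZ
  have h1 : 3 * Z ^ 2 = 16 * (4 * (p : ℤ) ^ 2 - 1) := by
    have e1 : (E * (T ^ 2 - 3 * S ^ 2) + 6 * F * T * S) ^ 2 + 3 * Z ^ 2 =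
        (E ^ 2 + 3 * F ^ 2) * (T ^ 2 + 3 * S ^ 2) ^ 2 := by rw [hZ]; ring
    rw [hid, hEF, ← h] at e1
    linarith
  have h2 : (4 : ℤ) ^ 2 ∣ Z ^ 2 := by
    have h3 : (16 : ℤ) ∣ 3 * Z ^ 2 := ⟨_, h1⟩
    have h4 : IsCoprime (16 : ℤ) 3 := ⟨1, -5, by norm_num⟩
    have := h4.dvd_of_dvd_mul_left h3
    norm_num
    exact this
  rw [Int.pow_dvd_pow_iff two_ne_zero] at h2
  obtain ⟨Q, hQ⟩ := h2
  have h3 : 4 * (p : ℤ) ^ 2 = 1 + 3 * Q ^ 2 := by rw [hQ] at h1; linarith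
  rcases Int.even_or_odd Q with ⟨q, hq⟩ | ⟨q, hq⟩
  · exfalso; rw [hq] at h3; ring_nf at h3; omega
  · exact ⟨q, by rw [hq] at h3; linarith⟩

theorem sqrt_indep {d : ℕ} (hd : ¬ IsSquare d) {s : ℝ} (hs : s ^ 2 = d) {a b : ℚ}
    (h : (a : ℝ) + b / s = 0) : a = 0 ∧ b = 0 := by
  have hd0 : d ≠ 0 := by rintro rfl; exact hd ⟨0, rfl⟩
  have hs0 : s ≠ 0 := by
    rintro rfl
    apply hd0
    have : (d : ℝ) = 0 := by rw [← hs]; ring
    exact_mod_cast this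
  have h1 : (b : ℝ) = -a * s := by field_simp at h; linarith
  have h2 : b ^ 2 = a ^ 2 * d := by
    have : ((b : ℝ)) ^ 2 = (a : ℝ) ^ 2 * d := by rw [h1, ← hs]; ring
    exact_mod_cast this
  by_cases ha : a = 0
  · refine ⟨ha, ?_⟩
    rw [ha] at h2
    have : b ^ 2 = 0 := by rw [h2]; ring
    exact pow_eq_zero_iff two_ne_zero |>.mp this
  · exfalso
    apply hd
    rw [← Rat.isSquare_natCast_iff]
    refine ⟨b / a, ?_⟩
    field_simp
    linarith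

/-- degree data -/
theorem degree_data (f1 f2 g1 g2 : ℚ[X]) :
    (∃ a b : ℚ, f1 = C a ∧ g1 = C b ∧ f2 = 0 ∧ g2 = 0) ∨
    ∃ m : ℕ, 1 ≤ m ∧ f1.natDegree ≤ m ∧ g1.natDegree ≤ m ∧ f2.natDegree ≤ m - 1 ∧
      g2.natDegree ≤ m - 1 ∧
      (f1.coeff m ≠ 0 ∨ g1.coeff m ≠ 0 ∨ f2.coeff (m - 1) ≠ 0 ∨ g2.coeff (m - 1) ≠ 0) := by
  classical
  have hex : ∃ m : ℕ, 1 ≤ m ∧ f1.natDegree ≤ m ∧ g1.natDegree ≤ m ∧ f2.natDegree ≤ m - 1 ∧
      g2.natDegree ≤ m - 1 :=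
    ⟨f1.natDegree + g1.natDegree + f2.natDegree + g2.natDegree + 1, by omega, by omega, by omega,
      by omega, by omega⟩
  obtain ⟨hm1, h1, h2, h3, h4⟩ := Nat.find_spec hex
  set m := Nat.find hex with hm
  by_cases htop : f1.coeff m ≠ 0 ∨ g1.coeff m ≠ 0 ∨ f2.coeff (m - 1) ≠ 0 ∨ g2.coeff (m - 1) ≠ 0
  · right; exact ⟨m, hm1, h1, h2, h3, h4, htop⟩
  · left
    push Not at htop
    obtain ⟨t1, t2, t3, t4⟩ := htop
    have hlow : ∀ (f : ℚ[X]) (k : ℕ), f.natDegree ≤ k + 1 → f.coeff (k + 1) = 0 →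
        f.natDegree ≤ k := by
      intro f k hk hc
      rw [natDegree_le_iff_coeff_eq_zero]
      intro N hN
      by_cases hN' : N = k + 1
      · rw [hN']; exact hc
      · exact coeff_eq_zero_of_natDegree_lt (by omega)
    by_cases hm' : m = 1
    · rw [hm'] at t1 t2 t3 t4 h1 h2 h3 h4
      have e1 := hlow f1 0 h1 t1
      have e2 := hlow g1 0 h2 t2
      refine ⟨f1.coeff 0, g1.coeff 0, eq_C_of_natDegree_le_zero e1, eq_C_of_natDegree_le_zero e2,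
        ?_, ?_⟩
      · rw [eq_C_of_natDegree_le_zero (p := f2) (by simpa using h3)]
        simpa using t3
      · rw [eq_C_of_natDegree_le_zero (p := g2) (by simpa using h4)]
        simpa using t4
    · exfalso
      obtain ⟨k, hk⟩ : ∃ k, m = k + 2 := ⟨m - 2, by omega⟩
      refine Nat.find_min hex (m := k + 1) (by rw [← hm]; omega) ⟨by omega, ?_, ?_, ?_, ?_⟩
      · rw [hk] at h1 t1; exact hlow _ _ h1 t1
      · rw [hk] at h2 t2; exact hlow _ _ h2 t2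
      · rw [hk] at h3 t3
        have : k + 2 - 1 = k + 1 := by omega
        rw [this] at h3 t3
        simpa using hlow _ _ h3 t3
      · rw [hk] at h4 t4
        have : k + 2 - 1 = k + 1 := by omega
        rw [this] at h4 t4
        simpa using hlow _ _ h4 t4

/-- The algebraic part: from `W = P ^ 2 H` in the coordinate ring, a rational identity holds at all
integral points. -/
theorem pell_identity {d : ℕ} (hd : ¬ IsSquare d) (hd0 : 0 < d) (τ σ H : PA d) {M : ℕ} (hM : 0 < M)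
    {m : ℕ} (hm : 1 ≤ m) (h1 : τ.re.natDegree ≤ m) (h2 : σ.re.natDegree ≤ m)
    (h3 : τ.im.natDegree ≤ m - 1) (h4 : σ.im.natDegree ≤ m - 1)
    (htop : τ.re.coeff m ≠ 0 ∨ σ.re.coeff m ≠ 0 ∨ τ.im.coeff (m - 1) ≠ 0 ∨
      σ.im.coeff (m - 1) ≠ 0)
    (P : PA d) (hP : 4 * P = τ ^ 2 + 3 * σ ^ 2)
    (hW : luc τ P (2 * M) - 1 = P ^ 2 * H) :
    ∃ E F : ℤ, E ^ 2 + 3 * F ^ 2 = 4 ∧ ∀ (x y T S : ℤ), x ^ 2 - d * y ^ 2 = 1 →
      (T : ℚ) = τ.re.eval (x : ℚ) + τ.im.eval (x : ℚ) * y →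
      (S : ℚ) = σ.re.eval (x : ℚ) + σ.im.eval (x : ℚ) * y →
      E * (T ^ 2 - 3 * S ^ 2) + 6 * F * T * S = 4 := by
  obtain ⟨s, hs0, hs⟩ : ∃ s : ℝ, 0 < s ∧ s ^ 2 = d := ⟨Real.sqrt d, Real.sqrt_pos.mpr (by
    exact_mod_cast hd0), Real.sq_sqrt (by positivity)⟩
  have hsC : (s : ℂ) ^ 2 = d := by exact_mod_cast hs
  have hsne : (s : ℂ) ≠ 0 := by exact_mod_cast hs0.ne'
  set θ : ℂ := Complex.I * (Real.sqrt 3 : ℝ) with hθdef
  have hθ : θ ^ 2 = -3 := by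
    rw [hθdef, mul_pow, Complex.I_sq, ← Complex.ofReal_pow, Real.sq_sqrt (by norm_num)]; norm_num
  have hθc : (starRingEnd ℂ) θ = -θ := by rw [hθdef]; simp
  -- the two polynomials
  set xh : ℂ[X] := C (1 / 2) * (hat s τ m + C θ * hat s σ m) with hxh
  set yh : ℂ[X] := xh.map (starRingEnd ℂ) with hyh
  have h2c : (starRingEnd ℂ) (2 : ℂ) = 2 := map_ofNat _ 2
  have hyh' : yh = C (1 / 2) * (hat s τ m - C θ * hat s σ m) := by
    rw [hyh, hxh, Polynomial.map_mul, Polynomial.map_add, Polynomial.map_mul, hat_conj, hat_conj,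
      map_C, map_C, hθc]
    simp only [map_div₀, map_one, h2c, C_neg]
    ring
  -- top and bottom coefficients
  set a : ℚ := τ.re.coeff m with ha
  set b : ℚ := τ.im.coeff (m - 1) with hb
  set a' : ℚ := σ.re.coeff m with ha'
  set b' : ℚ := σ.im.coeff (m - 1) with hb'
  have h2m : ((2 : ℂ) ^ m) ≠ 0 := pow_ne_zero _ two_ne_zero
  have htopc : xh.coeff (2 * m) = 1 / 2 * (((a : ℂ) + b / s) / 2 ^ m + θ * (((a' : ℂ) + b' / s) / 2 ^ m)) := by
    rw [hxh, coeff_C_mul, coeff_add, coeff_C_mul, hat_coeff_top s τ hm, hat_coeff_top s σ hm]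
  have hbotc : xh.coeff 0 = 1 / 2 * (((a : ℂ) - b / s) / 2 ^ m + θ * (((a' : ℂ) - b' / s) / 2 ^ m)) := by
    rw [hxh, coeff_C_mul, coeff_add, coeff_C_mul, hat_coeff_zero s τ hm, hat_coeff_zero s σ hm]
  have hreal : ∀ u v : ℝ, (u : ℂ) + θ * v = 0 → u = 0 ∧ v = 0 := by
    intro u v huv
    have hre := congrArg Complex.re huv
    have him := congrArg Complex.im huv
    have h3' : Real.sqrt 3 ≠ 0 := by positivity
    simp [hθdef] at hre him
    refine ⟨hre, ?_⟩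
    exact him
  have hnz : ∀ ε : ℚ, (ε = 1 ∨ ε = -1) →
      ((a : ℂ) + ε * b / s) + θ * ((a' : ℂ) + ε * b' / s) ≠ 0 := by
    intro ε hε h0
    have h0' : (((a : ℝ) + (ε * b : ℚ) / s : ℝ) : ℂ) + θ * (((a' : ℝ) + (ε * b' : ℚ) / s : ℝ) : ℂ) = 0 := by
      rw [← h0]; push_cast; ring
    obtain ⟨e1, e2⟩ := hreal _ _ h0'
    obtain ⟨q1, q2⟩ := sqrt_indep hd hs e1
    obtain ⟨q3, q4⟩ := sqrt_indep hd hs e2
    have hε0 : ε ≠ 0 := by rcases hε with h | h <;> rw [h] <;> norm_num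
    rcases htop with h | h | h | h
    · exact h q1
    · exact h q3
    · exact h ((mul_eq_zero.mp q2).resolve_left hε0)
    · exact h ((mul_eq_zero.mp q4).resolve_left hε0)
  have htop0 : xh.coeff (2 * m) ≠ 0 := by
    rw [htopc]
    have h := hnz 1 (Or.inl rfl)
    intro h0
    apply h
    push_cast
    field_simp at h0 ⊢
    linear_combination h0
  have hbot0 : xh.coeff 0 ≠ 0 := by
    rw [hbotc]
    have h := hnz (-1) (Or.inr rfl)
    intro h0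
    apply h
    push_cast
    field_simp at h0 ⊢
    linear_combination h0
  have hdegle : xh.natDegree ≤ 2 * m := by
    rw [hxh]
    refine (natDegree_C_mul_le _ _).trans ((natDegree_add_le _ _).trans (max_le
      (hat_natDegree s τ hm) ((natDegree_C_mul_le _ _).trans (hat_natDegree s σ hm))))
  have hdeg : xh.natDegree = 2 * m := le_antisymm hdegle (le_natDegree_of_ne_zero htop0)
  have hlead : xh.leadingCoeff = xh.coeff (2 * m) := by rw [leadingCoeff, hdeg]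
  -- evaluation at `u`
  have hconic : ∀ u : ℂ, u ≠ 0 → ((u + u⁻¹) / 2) ^ 2 - d * ((u - u⁻¹) / (2 * s)) ^ 2 = 1 := by
    intro u hu
    rw [← hsC]; field_simp; ring
  obtain ⟨N, hN1, hN2, hN3⟩ : ∃ N : ℕ, 1 ≤ N ∧ H.re.natDegree ≤ N ∧ H.im.natDegree ≤ N - 1 :=
    ⟨H.re.natDegree + H.im.natDegree + 1, by omega, by omega, by omega⟩
  have hxe : ∀ (u : ℂ) (hu : u ≠ 0), xh.eval u = u ^ m * ((ev hd0 (hconic u hu) τ +
      θ * ev hd0 (hconic u hu) σ) / 2) := by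
    intro u hu
    rw [hxh, eval_mul, eval_C, eval_add, eval_mul, eval_C, hat_eval hs0.ne' τ hm h1 h3 u hu,
      hat_eval hs0.ne' σ hm h2 h4 u hu, ev_apply, ev_apply]
    ring
  have hye : ∀ (u : ℂ) (hu : u ≠ 0), yh.eval u = u ^ m * ((ev hd0 (hconic u hu) τ -
      θ * ev hd0 (hconic u hu) σ) / 2) := by
    intro u hu
    rw [hyh', eval_mul, eval_C, eval_sub, eval_mul, eval_C, hat_eval hs0.ne' τ hm h1 h3 u hu,
      hat_eval hs0.ne' σ hm h2 h4 u hu, ev_apply, ev_apply]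
    ring
  have hpoly : (xh ^ (2 * M) + yh ^ (2 * M) - X ^ (m * (2 * M))) * X ^ (4 * m + N) =
      X ^ (m * (2 * M)) * ((xh * yh) ^ 2 * hat s H N) := by
    refine eq_of_infinite_eval_eq _ _ ?_
    have hinf : ({0}ᶜ : Set ℂ).Infinite := Set.Finite.infinite_compl (Set.finite_singleton 0)
    refine hinf.mono fun u hu => ?_
    have hu0 : u ≠ 0 := hu
    show eval u _ = eval u _
    have hE := congrArg (ev hd0 (hconic u hu0)) hW
    have hP' := congrArg (ev hd0 (hconic u hu0)) hP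
    have e4 : ∀ k : ℕ, [k.AtLeastTwo] → ev hd0 (hconic u hu0) (OfNat.ofNat k) = OfNat.ofNat k :=
      fun k _ => map_ofNat _ k
    rw [map_mul, map_add, map_mul, map_pow, map_pow] at hP'
    rw [map_sub, map_one, map_mul, map_pow, map_luc] at hE
    have hfour : ev hd0 (hconic u hu0) 4 = 4 := map_ofNat _ 4
    have hthree : ev hd0 (hconic u hu0) 3 = 3 := map_ofNat _ 3
    rw [hfour, hthree] at hP'
    set t := ev hd0 (hconic u hu0) τ with ht
    set v := ev hd0 (hconic u hu0) σ with hv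
    set q := ev hd0 (hconic u hu0) P with hq
    set hh := ev hd0 (hconic u hu0) H with hhh
    have hxy1 : (t + θ * v) / 2 + (t - θ * v) / 2 = t := by ring
    have hxy2 : (t + θ * v) / 2 * ((t - θ * v) / 2) = q := by
      linear_combination (-(1 / 4 : ℂ)) * hP' - (v ^ 2 / 4) * hθ
    rw [luc_eq t q _ _ hxy1 hxy2] at hE
    have hHe : (hat s H N).eval u = u ^ N * hh := by
      rw [hat_eval hs0.ne' H hN1 hN2 hN3 u hu0, hhh, ev_apply]
    simp only [eval_mul, eval_sub, eval_add, eval_pow, eval_X, hxe u hu0, hye u hu0, hHe]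
    rw [← ht, ← hv]
    have e1 : u ^ (4 * m + N) = u ^ N * (u ^ m) ^ 4 := by rw [pow_add, mul_comm, ← pow_mul]; ring_nf
    have e2 : u ^ (m * (2 * M)) = (u ^ m) ^ (2 * M) := by rw [pow_mul]
    rw [e1, e2, mul_pow, mul_pow]
    set A := ((t + θ * v) / 2) with hA
    set B := ((t - θ * v) / 2) with hB
    have hE' : A ^ (2 * M) + B ^ (2 * M) - 1 = (A * B) ^ 2 * hh := by rw [hE, hxy2]
    linear_combination ((u ^ m) ^ (2 * M) * u ^ N * (u ^ m) ^ 4) * hE'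
  -- divisibility
  have hy0 : yh.coeff 0 ≠ 0 := by
    rw [hyh, coeff_map]; simpa using hbot0
  have hcopX : IsCoprime yh X := by
    have h1 : ¬ (X : ℂ[X]) ∣ yh := by rw [X_dvd_iff]; exact hy0
    exact ((irreducible_X.coprime_iff_not_dvd).mpr h1).symm
  have hdvd : yh ^ 2 ∣ xh ^ (2 * M) + yh ^ (2 * M) - X ^ (m * (2 * M)) := by
    have h1 : yh ^ 2 ∣ (xh ^ (2 * M) + yh ^ (2 * M) - X ^ (m * (2 * M))) * X ^ (4 * m + N) := by
      rw [hpoly]
      exact ⟨X ^ (m * (2 * M)) * (xh ^ 2 * hat s H N), by ring⟩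
    exact (hcopX.pow).dvd_of_dvd_mul_right h1
  obtain ⟨hρM, hid⟩ := pell_alg (by omega : 0 < m) hM hyh hdeg hbot0 hdvd
  set ρ : ℂ := 4 * xh.leadingCoeff * xh.coeff 0 with hρ
  -- `ρ` is rational over `ℚ(θ)`
  set r1 : ℚ := (a ^ 2 - b ^ 2 / d - 3 * (a' ^ 2 - b' ^ 2 / d)) / 4 ^ m with hr1
  set r2 : ℚ := (2 * (a * a' - b * b' / d)) / 4 ^ m with hr2
  have hdC : (d : ℂ) ≠ 0 := by exact_mod_cast hd0.ne'
  have h4m : (4 : ℂ) ^ m = 2 ^ m * 2 ^ m := by rw [← mul_pow]; norm_num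
  have hρr : ρ = (r1 : ℂ) + r2 * θ := by
    have hi : ((s : ℂ)⁻¹) ^ 2 = (d : ℂ)⁻¹ := by rw [inv_pow, hsC]
    have hw : ((4 : ℂ) ^ m)⁻¹ = (((2 : ℂ) ^ m)⁻¹) ^ 2 := by rw [h4m, mul_inv, pow_two]
    rw [hρ, hlead, htopc, hbotc, hr1, hr2]
    push_cast
    simp only [div_eq_mul_inv]
    rw [hw]
    generalize ((2 : ℂ) ^ m)⁻¹ = w
    linear_combination (w ^ 2 * (-(b : ℂ) ^ 2 + 3 * (b' : ℂ) ^ 2 - 2 * θ * b * b')) * hi +
      (w ^ 2 * ((a' : ℂ) ^ 2 - (b' : ℂ) ^ 2 * ((s : ℂ)⁻¹) ^ 2)) * hθ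
  have hρc : (starRingEnd ℂ) ρ = (r1 : ℂ) - r2 * θ := by
    rw [hρr]; simp [hθc]; ring
  rw [hρr] at hρM
  obtain ⟨E, F, hE, hF, hEF⟩ := root_of_unity hθ hθc hM hρM
  refine ⟨E, F, hEF, fun x y T S hpt hT hS => ?_⟩
  -- the point `u = x + y s`
  set u : ℂ := (x : ℂ) + y * s with hu
  have hptC : (x : ℂ) ^ 2 - d * (y : ℂ) ^ 2 = 1 := by
    have := congrArg (fun z : ℤ => (z : ℂ)) hpt
    push_cast at this
    exact this
  have huv : u * ((x : ℂ) - y * s) = 1 := by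
    rw [hu]; linear_combination hptC - (y : ℂ) ^ 2 * hsC
  have hu0 : u ≠ 0 := left_ne_zero_of_mul_eq_one huv
  have huinv : u⁻¹ = (x : ℂ) - y * s := inv_eq_of_mul_eq_one_right huv
  have hX : (u + u⁻¹) / 2 = (x : ℂ) := by rw [huinv, hu]; ring
  have hY : (u - u⁻¹) / (2 * s) = (y : ℂ) := by rw [huinv, hu]; field_simp; ring
  have haev : ∀ f : ℚ[X], aeval ((u + u⁻¹) / 2) f = ((f.eval (x : ℚ) : ℚ) : ℂ) := by
    intro f
    rw [hX]
    have e1 : (x : ℂ) = algebraMap ℚ ℂ (x : ℚ) := by simp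
    rw [e1, aeval_algebraMap_apply, coe_aeval_eq_eval]
    simp
  have hτ : ev hd0 (hconic u hu0) τ = (T : ℂ) := by
    rw [ev_apply, haev, haev, hY]
    have := congrArg (fun z : ℚ => (z : ℂ)) hT
    push_cast at this
    exact this.symm
  have hσ : ev hd0 (hconic u hu0) σ = (S : ℂ) := by
    rw [ev_apply, haev, haev, hY]
    have := congrArg (fun z : ℚ => (z : ℂ)) hS
    push_cast at this
    exact this.symm
  have hfin := congrArg (eval u) hid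
  simp only [eval_add, eval_mul, eval_C, eval_pow, eval_X, hxe u hu0, hye u hu0, hτ, hσ] at hfin
  have hum : (u ^ m) ^ 2 ≠ 0 := pow_ne_zero 2 (pow_ne_zero m hu0)
  have e2 : u ^ (2 * m) = (u ^ m) ^ 2 := by rw [← pow_mul, mul_comm]
  rw [e2, hρc, hρr] at hfin
  have hfin2 : ((r1 : ℂ) - r2 * θ) * ((T + θ * S) / 2) ^ 2 + ((r1 : ℂ) + r2 * θ) *
      ((T - θ * S) / 2) ^ 2 = 1 := by
    refine mul_left_cancel₀ hum ?_
    linear_combination hfin
  have hEC : (2 * r1 : ℂ) = E := by exact_mod_cast congrArg (fun z : ℚ => (z : ℂ)) hE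
  have hFC : (2 * r2 : ℂ) = F := by exact_mod_cast congrArg (fun z : ℚ => (z : ℂ)) hF
  have hfin3 : (E : ℂ) * ((T : ℂ) ^ 2 - 3 * (S : ℂ) ^ 2) + 6 * F * T * S = 4 := by
    rw [← hEC, ← hFC]
    linear_combination 4 * hfin2 - (2 * r1 * (S : ℂ) ^ 2 - 4 * r2 * T * S) * hθ
  exact_mod_cast hfin3

/-- **Pell families.** -/
theorem pell_family {d : ℕ} (hd : ¬ IsSquare d) (f1 f2 g1 g2 : ℚ[X]) (n : ℕ) :
    {p : ℕ | p.Prime ∧ p % 3 = 1 ∧ ¬ CD p ∧ orderOf ((cc p : ℕ) : ZMod (p ^ 2)) ≤ n ∧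
      ∃ x y T S : ℤ, x ^ 2 - d * y ^ 2 = 1 ∧
        (T : ℚ) = f1.eval (x : ℚ) + f2.eval (x : ℚ) * y ∧
        (S : ℚ) = g1.eval (x : ℚ) + g2.eval (x : ℚ) * y ∧
        4 * (p : ℤ) = T ^ 2 + 3 * S ^ 2}.Finite := by
  by_contra hinf
  have hd0 : 0 < d := Nat.pos_of_ne_zero (by rintro rfl; exact hd ⟨0, rfl⟩)
  set PP := {p : ℕ | p.Prime ∧ p % 3 = 1 ∧ ¬ CD p ∧ orderOf ((cc p : ℕ) : ZMod (p ^ 2)) ≤ n ∧
      ∃ x y T S : ℤ, x ^ 2 - d * y ^ 2 = 1 ∧
        (T : ℚ) = f1.eval (x : ℚ) + f2.eval (x : ℚ) * y ∧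
        (S : ℚ) = g1.eval (x : ℚ) + g2.eval (x : ℚ) * y ∧
        4 * (p : ℤ) = T ^ 2 + 3 * S ^ 2} with hPP
  set SS : Set (ℤ × ℤ) := {s | IsPt d s ∧ ∃ (p : ℕ) (T S : ℤ), p.Prime ∧ p % 3 = 1 ∧ ¬ CD p ∧
      orderOf ((cc p : ℕ) : ZMod (p ^ 2)) ≤ n ∧
        (T : ℚ) = f1.eval (s.1 : ℚ) + f2.eval (s.1 : ℚ) * s.2 ∧
        (S : ℚ) = g1.eval (s.1 : ℚ) + g2.eval (s.1 : ℚ) * s.2 ∧
        4 * (p : ℤ) = T ^ 2 + 3 * S ^ 2} with hSS
  have hSSinf : SS.Infinite := by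
    intro hfin
    apply hinf
    -- each point determines `p`
    have hsub : PP ⊆ (fun s : ℤ × ℤ => (((f1.eval (s.1 : ℚ) + f2.eval (s.1 : ℚ) * s.2) ^ 2 +
        3 * (g1.eval (s.1 : ℚ) + g2.eval (s.1 : ℚ) * s.2) ^ 2) / 4).num.toNat) '' SS := by
      rintro p ⟨hp, h3, hcd, hord, x, y, T, S, hpt, hT, hS, hTS⟩
      refine ⟨(x, y), ⟨hpt, p, T, S, hp, h3, hcd, hord, hT, hS, hTS⟩, ?_⟩
      simp only
      rw [← hT, ← hS]
      have : ((T : ℚ) ^ 2 + 3 * (S : ℚ) ^ 2) / 4 = ((p : ℕ) : ℚ) := by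
        have := congrArg (fun z : ℤ => (z : ℚ)) hTS
        push_cast at this
        linarith
      rw [this]
      simp
    exact (hfin.image _).subset hsub
  rcases degree_data f1 f2 g1 g2 with ⟨a, b, rfl, rfl, rfl, rfl⟩ | ⟨m, hm, h1, h2, h3, h4, htop⟩
  · -- constant family
    apply hinf
    have hsub : PP ⊆ {((a ^ 2 + 3 * b ^ 2) / 4).num.toNat} := by
      rintro p ⟨hp, h3, hcd, hord, x, y, T, S, hpt, hT, hS, hTS⟩
      simp only [eval_C, eval_zero, zero_mul, add_zero] at hT hS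
      rw [Set.mem_singleton_iff, ← hT, ← hS]
      have : ((T : ℚ) ^ 2 + 3 * (S : ℚ) ^ 2) / 4 = ((p : ℕ) : ℚ) := by
        have := congrArg (fun z : ℤ => (z : ℚ)) hTS
        push_cast at this
        linarith
      rw [this]
      simp
    exact (Set.finite_singleton _).subset hsub
  · set τ : PA d := ⟨f1, f2⟩ with hτ
    set σ : PA d := ⟨g1, g2⟩ with hσ
    set P : PA d := algebraMap ℚ[X] (PA d) (C (1 / 4)) * (τ ^ 2 + 3 * σ ^ 2) with hPdef
    have hP4 : 4 * P = τ ^ 2 + 3 * σ ^ 2 := by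
      have e1 : (4 : PA d) * algebraMap ℚ[X] (PA d) (C (1 / 4)) = 1 := by
        have e2 : (4 : PA d) = algebraMap ℚ[X] (PA d) (C 4) := by
          have : (C (4 : ℚ) : ℚ[X]) = 4 := map_ofNat C 4
          rw [this, map_ofNat]
        rw [e2, ← map_mul, ← C_mul]
        norm_num
      rw [hPdef, ← mul_assoc, e1, one_mul]
    obtain ⟨M, hM0, hM⟩ : ∃ M, 0 < M ∧ 6 * n.factorial = 2 * M :=
      ⟨3 * n.factorial, by have := Nat.factorial_pos n; omega, by ring⟩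
    set W : PA d := luc τ P (2 * M) - 1 with hW
    -- evaluation at the points
    have hev : ∀ s ∈ SS, ∃ (hpt : IsPt d s) (p : ℕ) (k : ℤ), p.Prime ∧
        ev hd0 (hpt.cast (K := ℚ)) P = p ∧ ev hd0 (hpt.cast (K := ℚ)) W = (p : ℚ) ^ 2 * k := by
      rintro s ⟨hpt, p, T, S, hp, h3, hcd, hord, hT, hS, hTS⟩
      have e1 : ev hd0 (hpt.cast (K := ℚ)) τ = T := by
        rw [ev_apply, aeval_rat, aeval_rat, hT]
      have e2 : ev hd0 (hpt.cast (K := ℚ)) σ = S := by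
        rw [ev_apply, aeval_rat, aeval_rat, hS]
      have e3 : ev hd0 (hpt.cast (K := ℚ)) P = p := by
        have h5 : ev hd0 (hpt.cast (K := ℚ)) 4 * ev hd0 (hpt.cast (K := ℚ)) P =
            ev hd0 (hpt.cast (K := ℚ)) τ ^ 2 +
              ev hd0 (hpt.cast (K := ℚ)) 3 * ev hd0 (hpt.cast (K := ℚ)) σ ^ 2 := by
          rw [← map_mul, hP4, map_add, map_mul, map_pow, map_pow]
        rw [e1, e2, map_ofNat, map_ofNat] at h5
        have h6 := congrArg (fun z : ℤ => (z : ℚ)) hTS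
        push_cast at h6
        linarith
      obtain ⟨k, hk⟩ := luc_modEq hp h3 hTS hord
      refine ⟨hpt, p, k, hp, e3, ?_⟩
      rw [hW, map_sub, map_one, map_luc, e1, e3, ← hM]
      have h7 := map_luc (Int.castRingHom ℚ) T (p : ℤ) (6 * n.factorial)
      simp only [eq_intCast, Int.cast_natCast] at h7
      rw [← h7, hk]
      push_cast
      ring
    have hPne : P ≠ 0 := by
      obtain ⟨s, hs⟩ := hSSinf.nonempty
      obtain ⟨hpt, p, k, hp, e3, -⟩ := hev s hs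
      intro h0
      rw [h0, map_zero] at e3
      exact hp.ne_zero (by exact_mod_cast e3.symm)
    have hevr : ∀ (s : ℤ × ℤ) (hpt : IsPt d s) (z : PA d), ev hd0 (hpt.cast (K := ℚ)) z =
        z.re.eval (s.1 : ℚ) + z.im.eval (s.1 : ℚ) * s.2 := by
      intro s hpt z
      rw [ev_apply, aeval_rat, aeval_rat]
    obtain ⟨H, hH⟩ := div_of_infinite hd hd0 W P hPne SS hSSinf (fun s hs => by
      obtain ⟨hpt, p, k, hp, e3, e4⟩ := hev s hs
      refine ⟨hpt, k, ?_⟩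
      rw [← hevr s hpt, ← hevr s hpt, e3, e4])
    obtain ⟨E, F, hEF, hid⟩ := pell_identity hd hd0 τ σ H hM0 hm h1 h2 h3 h4
      (by
        rcases htop with h | h | h | h
        · exact Or.inl h
        · exact Or.inr (Or.inl h)
        · exact Or.inr (Or.inr (Or.inl h))
        · exact Or.inr (Or.inr (Or.inr h))) P hP4 hH
    obtain ⟨s, hpt, p, T, S, hp, h3', hcd, hord, hT, hS, hTS⟩ := hSSinf.nonempty
    exact hcd (cd_of_identity hTS hEF (hid s.1 s.2 T S hpt hT hS))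

end Glaisher
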