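import Pool.Agent.Glaisher.Final
import Pool.Agent.Glaisher.NoFamily
import Pool.Agent.Glaisher.Families
import Pool.Agent.Glaisher.Pell

/-!
The family theorems, stated for the primes `p` with `G_{p-1} ≡ 0 (mod p ^ 2)`.
-/

namespace Glaisher

open Finset Polynomial

/-- Plane curves. -/
theorem curve_q1 (F : MvPolynomial (Fin 2) ℤ) (hF : F ≠ 0) : ∃ c : ℝ, 0 < c ∧
    ∀ p : ℕ, p.Prime → p % 3 = 1 → ∀ T S : ℤ, 4 * (p : ℤ) = T ^ 2 + 3 * S ^ 2 →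
      MvPolynomial.eval ![T, S] F = 0 → CongSq p (glaisher (p - 1)) 0 →
      CD p ∨ c * Real.log p ≤ orderOf ((cc p : ℕ) : ZMod p) ∨
        (4 ≤ F.totalDegree ∧
          (Nat.lcm (orderOf ((cc p : ℕ) : ZMod p)) 6).totient ≤ 2 * F.totalDegree) := by
  obtain ⟨c, hc, h⟩ := no_family F hF
  refine ⟨c, hc, fun p hp h3 T S hTS h0 hq => ?_⟩
  rw [← (q1_iff_order hp h3).mp hq]
  exact h p hp h3 T S hTS h0

/-- Polynomial families. -/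
theorem families_q1 (f g : ℤ[X]) (hfg : 0 < f.natDegree ∨ 0 < g.natDegree) (n : ℕ) :
    {t : ℤ | ∃ p : ℕ, p.Prime ∧ p % 3 = 1 ∧ 4 * (p : ℤ) = (f.eval t) ^ 2 + 3 * (g.eval t) ^ 2 ∧
      CongSq p (glaisher (p - 1)) 0 ∧ orderOf ((cc p : ℕ) : ZMod p) ≤ n}.Finite := by
  refine (families f g hfg n).subset ?_
  rintro t ⟨p, hp, h3, h4, hq, hord⟩
  exact ⟨p, hp, h3, h4, by rw [(q1_iff_order hp h3).mp hq]; exact hord⟩

/-- Pell families. -/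
theorem pell_q1 {d : ℕ} (hd : ¬ IsSquare d) (f1 f2 g1 g2 : ℚ[X]) (n : ℕ) :
    {p : ℕ | p.Prime ∧ p % 3 = 1 ∧ CongSq p (glaisher (p - 1)) 0 ∧
      orderOf ((cc p : ℕ) : ZMod p) ≤ n ∧ ¬ CD p ∧
      ∃ x y T S : ℤ, x ^ 2 - d * y ^ 2 = 1 ∧
        (T : ℚ) = f1.eval (x : ℚ) + f2.eval (x : ℚ) * y ∧
        (S : ℚ) = g1.eval (x : ℚ) + g2.eval (x : ℚ) * y ∧
        4 * (p : ℤ) = T ^ 2 + 3 * S ^ 2}.Finite := by
  refine (pell_family hd f1 f2 g1 g2 n).subset ?_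
  rintro p ⟨hp, h3, hq, hord, hcd, hex⟩
  exact ⟨hp, h3, hcd, by rw [(q1_iff_order hp h3).mp hq]; exact hord, hex⟩

end Glaisher
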