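import Pool.Agent.Glaisher.Curve

/-!
Primes on an arbitrary plane curve.
-/

namespace Glaisher

open Finset Polynomial

theorem gen_core (k : ℤ[X]) (hk : k ≠ 0) (hres : ResB k) :
    ∃ δ : ℝ, 0 < δ ∧ ∃ B : ℕ, ∀ p : ℕ, p.Prime → p % 3 = 1 → ∀ T S : ℤ,
      4 * (p : ℤ) = T ^ 2 + 3 * S ^ 2 →
      (k.map (Int.castRingHom (ZMod p))).eval (T : ZMod p) = 0 →
      δ * Real.log p ≤ orderOf ((cc p : ℕ) : ZMod (p ^ 2)) ∨
        orderOf ((cc p : ℕ) : ZMod (p ^ 2)) ≤ B := by
  classical
  obtain ⟨K, hK1, hK⟩ := hres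
  have hlogK : 0 < Real.log K := Real.log_pos hK1
  set B0 : ℕ := ∑ z ∈ (k.map (Int.castRingHom ℂ)).roots.toFinset, orderOf z with hB0
  refine ⟨min 1 (1 / (6 * Real.log K)), lt_min one_pos (by positivity), 6 * B0, ?_⟩
  intro p hp h3 T S hTS hg
  have : Fact p.Prime := ⟨hp⟩
  have h7 := seven_le hp h3
  obtain ⟨hT, hS, hC6⟩ := cc_six_modp h3 hTS
  set n := orderOf ((cc p : ℕ) : ZMod (p ^ 2)) with hn
  have hn0 : 0 < n := orderOf_pos_cc h3
  have hlogp : 0 ≤ Real.log p := Real.log_nonneg (by exact_mod_cast hp.one_lt.le)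
  have hlogpp : Real.log p ≤ p := (Real.log_le_sub_one_of_pos (by exact_mod_cast hp.pos)).trans
    (by linarith)
  have hbig : p ≤ n → min 1 (1 / (6 * Real.log K)) * Real.log p ≤ n := by
    intro h
    calc min 1 (1 / (6 * Real.log K)) * Real.log p ≤ 1 * Real.log p :=
          mul_le_mul_of_nonneg_right (min_le_left _ _) hlogp
      _ ≤ p := by linarith
      _ ≤ n := by exact_mod_cast h
  have hT6n : (T : ZMod p) ^ (6 * n) = 1 := by
    rw [pow_mul, ← hC6, ← pow_mul, mul_comm, pow_mul]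
    have h1 : ((cc p : ℕ) : ZMod p) ^ n = 1 := by
      have h2 := congrArg (red p) (pow_orderOf_eq_one ((cc p : ℕ) : ZMod (p ^ 2)))
      rw [map_pow, map_natCast, map_one] at h2
      exact h2
    rw [h1, one_pow]
  set m := orderOf (T : ZMod p) with hm
  have hmdvd : m ∣ 6 * n := orderOf_dvd_of_pow_eq_one hT6n
  have hm0 : 0 < m := Nat.pos_of_dvd_of_pos hmdvd (by omega)
  have hmle : m ≤ 6 * n := Nat.le_of_dvd (by omega) hmdvd
  by_cases hroot : ∀ ζ : ℂ, IsPrimitiveRoot ζ m → Polynomial.aeval ζ k ≠ 0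
  · left
    have h1 := hK m hm0 hroot p (T : ZMod p) hm.symm hg
    have h2 : (p : ℝ) ≤ K ^ (6 * n) := h1.trans (pow_le_pow_right₀ hK1.le hmle)
    have h4 : Real.log p ≤ (6 * n : ℕ) * Real.log K := by
      rw [← Real.log_pow]
      exact Real.log_le_log (by exact_mod_cast hp.pos) h2
    calc min 1 (1 / (6 * Real.log K)) * Real.log p ≤ (1 / (6 * Real.log K)) * Real.log p :=
          mul_le_mul_of_nonneg_right (min_le_right _ _) hlogp
      _ ≤ (1 / (6 * Real.log K)) * ((6 * n : ℕ) * Real.log K) :=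
          mul_le_mul_of_nonneg_left h4 (by positivity)
      _ = n := by push_cast; field_simp
  · push Not at hroot
    obtain ⟨ζ, hζ, hζ0⟩ := hroot
    have hkC : k.map (Int.castRingHom ℂ) ≠ 0 := by
      rw [Ne, Polynomial.map_eq_zero_iff (RingHom.injective_int _)]; exact hk
    have hmem : ζ ∈ (k.map (Int.castRingHom ℂ)).roots.toFinset := by
      rw [Multiset.mem_toFinset, mem_roots hkC, IsRoot.def, eval_map, ← hζ0]
      rfl
    have hmB : m ≤ B0 := by
      rw [hζ.eq_orderOf, hB0]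
      exact Finset.single_le_sum (f := fun z => orderOf z) (fun _ _ => Nat.zero_le _) hmem
    have h1 : ((cc p : ℕ) : ZMod p) ^ (6 * m) = 1 := by
      rw [pow_mul, hC6, ← pow_mul, mul_comm, pow_mul, hm, pow_orderOf_eq_one, one_pow]
    rcases lift_order h3 h1 with h2 | h2
    · right
      exact (orderOf_le_of_pow_eq_one (by omega) h2).trans (by omega)
    · left; exact hbig h2

/-- even and odd parts -/
theorem even_odd (g : ℤ[X]) : ∃ E O : ℤ[X], g = E.comp (X ^ 2) + X * O.comp (X ^ 2) := by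
  induction g using Polynomial.induction_on' with
  | add g h hg hh =>
    obtain ⟨E, O, h1⟩ := hg
    obtain ⟨E', O', h2⟩ := hh
    refine ⟨E + E', O + O', ?_⟩
    rw [h1, h2, add_comp, add_comp]; ring
  | monomial n a =>
    rcases Nat.even_or_odd' n with ⟨m, rfl | rfl⟩
    · refine ⟨C a * X ^ m, 0, ?_⟩
      rw [← C_mul_X_pow_eq_monomial]
      simp [pow_mul]
    · refine ⟨0, C a * X ^ m, ?_⟩
      rw [← C_mul_X_pow_eq_monomial]
      simp
      ring

/-- elimination of `S` -/
theorem elim (A B : ℤ[X]) (h : A ≠ 0 ∨ B ≠ 0) : ∃ k : ℤ[X], k ≠ 0 ∧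
    ∀ (p : ℕ) [Fact p.Prime] (t s : ZMod p), t ^ 2 = -3 * s ^ 2 →
      (A.map (Int.castRingHom (ZMod p))).eval s * t +
        (B.map (Int.castRingHom (ZMod p))).eval s = 0 →
      (k.map (Int.castRingHom (ZMod p))).eval t = 0 := by
  set g : ℤ[X] := B ^ 2 + 3 * X ^ 2 * A ^ 2 with hg
  have hg0 : g ≠ 0 := by
    intro h0
    have h1 : ∀ x : ℤ, (B.eval x) ^ 2 + 3 * (x * A.eval x) ^ 2 = 0 := by
      intro x
      have := congrArg (fun q => Polynomial.eval x q) h0
      simp [hg] at this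
      linarith
    have hB : ∀ x : ℤ, B.eval x = 0 := by
      intro x
      have := h1 x
      have h2 : (B.eval x) ^ 2 = 0 := by nlinarith [sq_nonneg (B.eval x), sq_nonneg (x * A.eval x)]
      exact pow_eq_zero_iff two_ne_zero |>.mp h2
    have hA : ∀ x : ℤ, x * A.eval x = 0 := by
      intro x
      have := h1 x
      have h2 : (x * A.eval x) ^ 2 = 0 := by
        nlinarith [sq_nonneg (B.eval x), sq_nonneg (x * A.eval x)]
      exact pow_eq_zero_iff two_ne_zero |>.mp h2
    have hB0 : B = 0 := Polynomial.funext (fun x => by rw [hB x, eval_zero])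
    have hA0 : X * A = 0 := Polynomial.funext (fun x => by rw [eval_mul, eval_X, hA x, eval_zero])
    have hA1 : A = 0 := (mul_eq_zero.mp hA0).resolve_left X_ne_zero
    rcases h with h | h
    · exact h hA1
    · exact h hB0
  obtain ⟨E, O, hEO⟩ := even_odd g
  set N : ℤ[X] := E ^ 2 - X * O ^ 2 with hN
  have hgneg : g.comp (-X) = E.comp (X ^ 2) - X * O.comp (X ^ 2) := by
    rw [hEO]
    simp [add_comp, mul_comp, comp_assoc]
    ring
  have hN2 : N.comp (X ^ 2) = g * g.comp (-X) := by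
    rw [hgneg, hEO, hN]
    simp [sub_comp, mul_comp]
    ring
  have hN0 : N ≠ 0 := by
    intro h0
    rw [h0, zero_comp] at hN2
    rcases mul_eq_zero.mp hN2.symm with h1 | h1
    · exact hg0 h1
    · apply hg0
      have : (g.comp (-X)).comp (-X) = g := by rw [comp_assoc]; simp
      rw [← this, h1, zero_comp]
  refine ⟨(scaleRoots N (-3)).comp (X ^ 2), ?_, ?_⟩
  · intro h0
    rw [← expand_eq_comp_X_pow, expand_eq_zero (by norm_num)] at h0
    exact scaleRoots_ne_zero hN0 _ h0
  · intro p _ t s hts hR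
    set f := Int.castRingHom (ZMod p) with hf
    have h1 : eval₂ f (s ^ 2) N = 0 := by
      have e1 : eval₂ f (s ^ 2) N = eval₂ f s (N.comp (X ^ 2)) := by
        rw [eval₂_comp]; simp
      have e2 : eval₂ f s g = 0 := by
        have e3 : eval₂ f s g = (eval₂ f s B) ^ 2 + 3 * s ^ 2 * (eval₂ f s A) ^ 2 := by
          rw [hg]
          simp [eval₂_add, eval₂_mul, eval₂_pow]
        rw [eval_map, eval_map] at hR
        rw [e3]
        linear_combination (eval₂ f s B - eval₂ f s A * t) * hR + (eval₂ f s A) ^ 2 * hts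
      rw [e1, hN2, eval₂_mul, e2, zero_mul]
    rw [eval_map, eval₂_comp]
    have e4 : eval₂ f t (X ^ 2 : ℤ[X]) = f (-3) * s ^ 2 := by
      simp [hts]
    rw [e4, scaleRoots_eval₂_mul, h1, mul_zero]

/-- **Arbitrary curves.** -/
theorem curve_general (hres : ∀ g : ℤ[X], ResB g) (F : ℤ[X][X]) (hF : F ≠ 0) :
    ∃ δ : ℝ, 0 < δ ∧ ∃ B : ℕ, ∀ p : ℕ, p.Prime → p % 3 = 1 → ∀ T S : ℤ,
      4 * (p : ℤ) = T ^ 2 + 3 * S ^ 2 → F.evalEval S T = 0 →
      δ * Real.log p ≤ orderOf ((cc p : ℕ) : ZMod (p ^ 2)) ∨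
        orderOf ((cc p : ℕ) : ZMod (p ^ 2)) ≤ B := by
  induction hd : F.natDegree using Nat.strong_induction_on generalizing F with
  | _ d ih =>
    set D : ℤ[X][X] := X ^ 2 + C (3 * X ^ 2) with hD
    have hDm : D.Monic := monic_X_pow_add_C _ (by norm_num)
    have hDd : D.natDegree = 2 := natDegree_X_pow_add_C
    have hdiv := modByMonic_add_div F D
    have hDev : ∀ T S : ℤ, D.evalEval S T = T ^ 2 + 3 * S ^ 2 := by
      intro T S
      simp [hD, evalEval]
    by_cases hR : F %ₘ D = 0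
    · have hFQ : F = D * (F /ₘ D) := by rw [hR, zero_add] at hdiv; exact hdiv.symm
      have hQ : F /ₘ D ≠ 0 := by
        intro h0; rw [h0, mul_zero] at hFQ; exact hF hFQ
      have hdeg : F.natDegree = 2 + (F /ₘ D).natDegree := by
        conv_lhs => rw [hFQ]
        rw [hDm.natDegree_mul' hQ, hDd]
      obtain ⟨δ, hδ, B, h⟩ := ih (F /ₘ D).natDegree (by omega) (F /ₘ D) hQ rfl
      refine ⟨δ, hδ, B, fun p hp h3 T S hTS hev => h p hp h3 T S hTS ?_⟩
      have hp0 : (4 * (p : ℤ)) ≠ 0 := by have := hp.pos; positivity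
      rw [hFQ, evalEval_mul, hDev, ← hTS] at hev
      exact (mul_eq_zero.mp hev).resolve_left hp0
    · have hlt : (F %ₘ D).degree < 2 := by
        have := degree_modByMonic_lt F hDm
        rwa [degree_eq_natDegree hDm.ne_zero, hDd] at this
      have hRe : F %ₘ D = C ((F %ₘ D).coeff 1) * X + C ((F %ₘ D).coeff 0) :=
        eq_X_add_C_of_degree_le_one (Order.le_of_lt_succ hlt)
      set A := (F %ₘ D).coeff 1 with hA
      set B := (F %ₘ D).coeff 0 with hB
      have hAB : A ≠ 0 ∨ B ≠ 0 := by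
        by_contra hcon
        push Not at hcon
        apply hR
        rw [hRe, hcon.1, hcon.2]; simp
      obtain ⟨k, hk, hk'⟩ := elim A B hAB
      obtain ⟨δ, hδ, B', h⟩ := gen_core k hk (hres k)
      refine ⟨δ, hδ, B', fun p hp h3 T S hTS hev => h p hp h3 T S hTS ?_⟩
      have : Fact p.Prime := ⟨hp⟩
      refine hk' p (T : ZMod p) (S : ZMod p) ?_ ?_
      · have e := congrArg (fun z : ℤ => (z : ZMod p)) hTS
        push_cast at e
        rw [CharP.cast_eq_zero (ZMod p) p] at e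
        linear_combination -e
      · have e1 : F.evalEval S T = (A.eval S * T + B.eval S) + (T ^ 2 + 3 * S ^ 2) *
            (F /ₘ D).evalEval S T := by
          conv_lhs => rw [← hdiv]
          rw [evalEval_add, evalEval_mul, hDev, hRe]
          simp [evalEval]
        rw [hev, ← hTS] at e1
        have e2 := congrArg (fun z : ℤ => (z : ZMod p)) e1
        push_cast at e2
        rw [CharP.cast_eq_zero (ZMod p) p] at e2
        have e3 : ∀ Q : ℤ[X], (Q.map (Int.castRingHom (ZMod p))).eval (S : ZMod p) =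
            ((Q.eval S : ℤ) : ZMod p) := by
          intro Q
          rw [eval_intCast_map]; simp
        rw [e3, e3]
        linear_combination -e2

end Glaisher
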