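import Pool.Agent.Glaisher.Curve

/-!
Lucas sequences: `V_n(T, P) = x ^ n + y ^ n` for `x + y = T`, `x y = P`.
-/

namespace Glaisher

/-- The Lucas sequence. -/
def luc {R : Type*} [CommRing R] (T P : R) : ℕ → R
  | 0 => 2
  | 1 => T
  | (n + 2) => T * luc T P (n + 1) - P * luc T P n

theorem luc_eq {R : Type*} [CommRing R] (T P x y : R) (h1 : x + y = T) (h2 : x * y = P) (n : ℕ) :
    luc T P n = x ^ n + y ^ n := by
  induction n using Nat.twoStepInduction with
  | zero => simp [luc]; norm_num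
  | one => simp [luc, h1]
  | more n ih1 ih2 =>
    rw [luc, ih1, ih2, ← h1, ← h2]; ring

theorem map_luc {R S : Type*} [CommRing R] [CommRing S] (f : R →+* S) (T P : R) (n : ℕ) :
    f (luc T P n) = luc (f T) (f P) n := by
  induction n using Nat.twoStepInduction with
  | zero => exact map_ofNat f 2
  | one => simp [luc]
  | more n ih1 ih2 => simp [luc, ih1, ih2]

/-- If the order of `C` is at most `n` then `V_{6 n!}(T, p) ≡ 1` modulo `p ^ 2`. -/
theorem luc_modEq {p : ℕ} (hp : p.Prime) (h3 : p % 3 = 1) {T S : ℤ}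
    (h : 4 * (p : ℤ) = T ^ 2 + 3 * S ^ 2) {n : ℕ}
    (hn : orderOf ((cc p : ℕ) : ZMod (p ^ 2)) ≤ n) :
    ∃ k : ℤ, luc T (p : ℤ) (6 * n.factorial) = 1 + (p : ℤ) ^ 2 * k := by
  have : Fact p.Prime := ⟨hp⟩
  have h7 := seven_le hp h3
  obtain ⟨D⟩ := exists_data h h7
  have hc := cc_pow_six (jacobiHyp h3) h7 h D
  have h0 := orderOf_pos_cc (p := p) h3
  have hdvd : orderOf ((cc p : ℕ) : ZMod (p ^ 2)) ∣ n.factorial := Nat.dvd_factorial h0 hn
  have hu : D.u ^ (6 * n.factorial) = 1 := by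
    rw [pow_mul, ← hc, ← pow_mul, mul_comm, pow_mul, orderOf_dvd_iff_pow_eq_one.mp hdvd, one_pow]
  have hv : D.v ^ (6 * n.factorial) = 0 := by
    obtain ⟨k, hk⟩ : ∃ k, 6 * n.factorial = 2 + k := ⟨6 * n.factorial - 2, by
      have := Nat.factorial_pos n; omega⟩
    rw [hk, pow_add, D.v2, zero_mul]
  have h1 : ((luc T (p : ℤ) (6 * n.factorial) : ℤ) : ZMod (p ^ 2)) = ((1 : ℤ) : ZMod (p ^ 2)) := by
    have := map_luc (Int.castRingHom (ZMod (p ^ 2))) T (p : ℤ) (6 * n.factorial)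
    simp only [eq_intCast, Int.cast_natCast] at this
    rw [this, luc_eq (T : ZMod (p ^ 2)) (p : ZMod (p ^ 2)) D.u D.v D.add D.uv, hu, hv]
    simp
  exact int_of_zmod h1

end Glaisher
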