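import Pool.Agent.Glaisher.Rep
import Mathlib.NumberTheory.FLT.Three

/-!
The order classification: `C ^ 12 = 1`, `C ^ 18 = 1` or `C ^ 24 = 1` modulo `p ^ 2` if and only
if `p ^ 2 = 3 x ^ 2 + 3 x + 1`.
-/

set_option linter.unusedSectionVars false

namespace Glaisher

theorem one_sub_pow_nil {R : Type*} [CommRing R] (x : R) (h : x * x = 0) (n : ℕ) :
    (1 - x) ^ n = 1 - n * x := by
  induction n with
  | zero => simp
  | succ n ih => rw [pow_succ, ih]; push_cast; linear_combination n * h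

section Ring

variable {p : ℕ} [hp : Fact p.Prime]

/-- every element is a unit or a multiple of `p` -/
theorem unit_or (x : ZMod (p ^ 2)) : IsUnit x ∨ ∃ y, x = (p : ZMod (p ^ 2)) * y := by
  obtain ⟨n, rfl⟩ := ZMod.intCast_surjective x
  by_cases h : (p : ℤ) ∣ n
  · obtain ⟨m, hm⟩ := h
    right
    exact ⟨(m : ZMod (p ^ 2)), by rw [hm]; push_cast; ring⟩
  · left; exact isUnit_int h

theorem not_isUnit_p_mul (y : ZMod (p ^ 2)) : ¬ IsUnit ((p : ZMod (p ^ 2)) * y) := by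
  intro h
  have h1 : ((p : ZMod (p ^ 2)) * y) * ((p : ZMod (p ^ 2)) * y) = 0 := by
    have := p_mul_self (p := p)
    linear_combination (y * y) * this
  have h2 := (h.mul_right_eq_zero).mp h1
  rw [h2] at h
  have h3 : (0 : ZMod (p ^ 2)) = 1 := by
    rcases h with ⟨u, hu⟩
    have := u.mul_inv
    rw [hu, zero_mul] at this
    exact this
  have h4 : ((1 : ℕ) : ZMod (p ^ 2)) = 0 := by rw [Nat.cast_one, ← h3]
  rw [ZMod.natCast_eq_zero_iff] at h4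
  have h5 := hp.out.one_lt
  have h6 : p ^ 2 = 1 := Nat.dvd_one.mp h4
  nlinarith

/-- a weak zero-product rule -/
theorem zero_product {a b c : ZMod (p ^ 2)} (h : a * b = 0) (hu : IsUnit (b - a * c)) :
    a = 0 ∨ b = 0 := by
  rcases unit_or a with ha | ⟨y, hy⟩
  · right; exact (ha.mul_right_eq_zero).mp h
  · left
    have hb : IsUnit b := by
      rcases unit_or b with hb | ⟨z, hz⟩
      · exact hb
      · exfalso
        refine not_isUnit_p_mul (p := p) (z - y * c) ?_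
        have : (p : ZMod (p ^ 2)) * (z - y * c) = b - a * c := by rw [hy, hz]; ring
        rw [this]; exact hu
    exact (hb.mul_left_eq_zero).mp h

theorem isUnit_two (h : 7 ≤ p) : IsUnit (2 : ZMod (p ^ 2)) := by
  have := isUnit_nat (p := p) (a := 2) (fun hd => by
    have := Nat.le_of_dvd (by norm_num) hd; omega)
  simpa using this

theorem isUnit_three (h : 7 ≤ p) : IsUnit (3 : ZMod (p ^ 2)) := by
  have := isUnit_nat (p := p) (a := 3) (fun hd => by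
    have := Nat.le_of_dvd (by norm_num) hd; omega)
  simpa using this

theorem sq_eq_one (h7 : 7 ≤ p) {x : ZMod (p ^ 2)} (h : x ^ 2 = 1) : x = 1 ∨ x = -1 := by
  have h1 : (x - 1) * (x + 1) = 0 := by linear_combination h
  have h2 : IsUnit ((x + 1) - (x - 1) * 1) := by
    have : (x + 1) - (x - 1) * 1 = 2 := by ring
    rw [this]; exact isUnit_two h7
  rcases zero_product h1 h2 with h | h
  · left; linear_combination h
  · right; linear_combination h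

/-- sixth roots of unity -/
theorem six_eq_one (h7 : 7 ≤ p) {x w : ZMod (p ^ 2)} (hw : w ^ 2 + w + 1 = 0) (h : x ^ 6 = 1) :
    (x = 1 ∨ x = -1) ∨ (x * w = 1 ∨ x * w = -1) ∨ (x * w ^ 2 = 1 ∨ x * w ^ 2 = -1) := by
  have hw3 : w ^ 3 = 1 := by linear_combination (w - 1) * hw
  -- `x ^ 2` is a cube root of unity
  have h1 : (x ^ 2 - 1) * (x ^ 4 + x ^ 2 + 1) = 0 := by linear_combination h
  have h2 : IsUnit ((x ^ 4 + x ^ 2 + 1) - (x ^ 2 - 1) * (x ^ 2 + 2)) := by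
    have : (x ^ 4 + x ^ 2 + 1) - (x ^ 2 - 1) * (x ^ 2 + 2) = 3 := by ring
    rw [this]; exact isUnit_three h7
  rcases zero_product h1 h2 with h3 | h3
  · left; exact sq_eq_one h7 (by linear_combination h3)
  · right
    have h4 : (x ^ 2 - w) * (x ^ 2 - w ^ 2) = 0 := by
      linear_combination h3 - x ^ 2 * hw + hw3
    have hwu : IsUnit w := IsUnit.of_mul_eq_one (w ^ 2) (by linear_combination hw3)
    have h1w : IsUnit (1 - w) := by
      have h5 : (1 - w) * (2 + w) = 3 := by linear_combination -hw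
      have h6 : IsUnit ((1 - w) * (2 + w)) := by rw [h5]; exact isUnit_three h7
      exact isUnit_of_mul_isUnit_left h6
    have h5 : IsUnit ((x ^ 2 - w ^ 2) - (x ^ 2 - w) * 1) := by
      have : (x ^ 2 - w ^ 2) - (x ^ 2 - w) * 1 = w * (1 - w) := by ring
      rw [this]; exact hwu.mul h1w
    rcases zero_product h4 h5 with h6 | h6
    · left; exact sq_eq_one h7 (by linear_combination w ^ 2 * h6 + hw3)
    · right; exact sq_eq_one h7 (by linear_combination w ^ 4 * h6 + (w ^ 3 + 1) * hw3)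

/-- The data attached to a representation `4 p = T ^ 2 + 3 S ^ 2`. -/
structure Data (p : ℕ) (T S : ℤ) where
  u : ZMod (p ^ 2)
  v : ZMod (p ^ 2)
  θ : ZMod (p ^ 2)
  uT : u * T = (T : ZMod (p ^ 2)) ^ 2 - p
  uv : u * v = p
  add : u + v = T
  v2 : v ^ 2 = 0
  θ2 : θ ^ 2 = -3
  Sθ : (S : ZMod (p ^ 2)) * θ = u - v

theorem not_dvd_of_rep {T S : ℤ} (h : 4 * (p : ℤ) = T ^ 2 + 3 * S ^ 2) (h7 : 7 ≤ p) :
    ¬ (p : ℤ) ∣ T ∧ ¬ (p : ℤ) ∣ S := by
  have hpp := Nat.prime_iff_prime_int.mp hp.out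
  have hp7 : (7 : ℤ) ≤ p := by exact_mod_cast h7
  have hT : ¬ (p : ℤ) ∣ T := by
    rintro ⟨a, ha⟩
    have h1 : (p : ℤ) ∣ 3 * S ^ 2 := ⟨4 - p * a ^ 2, by rw [ha] at h; linear_combination -h⟩
    have h2 : (p : ℤ) ∣ S := by
      rcases hpp.dvd_or_dvd h1 with h2 | h2
      · exfalso
        have := Int.le_of_dvd (by norm_num) h2
        linarith
      · exact hpp.dvd_of_dvd_pow h2
    obtain ⟨b, hb⟩ := h2
    have h3 : (p : ℤ) * (a ^ 2 + 3 * b ^ 2) = 4 := by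
      have h4 : (p : ℤ) * (p * (a ^ 2 + 3 * b ^ 2)) = p * 4 := by
        rw [ha, hb] at h; linear_combination -h
      exact mul_left_cancel₀ hpp.ne_zero h4
    have h5 : (p : ℤ) ∣ 4 := ⟨_, h3.symm⟩
    have := Int.le_of_dvd (by norm_num) h5
    linarith
  refine ⟨hT, ?_⟩
  rintro ⟨a, ha⟩
  apply hT
  have h1 : (p : ℤ) ∣ T ^ 2 := ⟨4 - 3 * p * a ^ 2, by rw [ha] at h; linear_combination -h⟩
  exact hpp.dvd_of_dvd_pow h1

theorem exists_data {T S : ℤ} (h : 4 * (p : ℤ) = T ^ 2 + 3 * S ^ 2) (h7 : 7 ≤ p) :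
    Nonempty (Data p T S) := by
  obtain ⟨hT, hS⟩ := not_dvd_of_rep h h7
  have hTu := isUnit_int hT
  have hSu := isUnit_int hS
  obtain ⟨Ti, hTi⟩ := hTu.exists_right_inv
  obtain ⟨Si, hSi⟩ := hSu.exists_right_inv
  have hpp := p_mul_self (p := p)
  have hR : 4 * (p : ZMod (p ^ 2)) = (T : ZMod (p ^ 2)) ^ 2 + 3 * (S : ZMod (p ^ 2)) ^ 2 := by
    have := congrArg (fun z : ℤ => (z : ZMod (p ^ 2))) h
    push_cast at this
    exact this
  refine ⟨⟨((T : ZMod (p ^ 2)) ^ 2 - p) * Ti, p * Ti, Si * (((T : ZMod (p ^ 2)) ^ 2 - p) * Ti - p * Ti),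
    ?_, ?_, ?_, ?_, ?_, ?_⟩⟩
  · linear_combination ((T : ZMod (p ^ 2)) ^ 2 - p) * hTi
  · linear_combination (p * ((T : ZMod (p ^ 2)) * Ti + 1)) * hTi - Ti ^ 2 * hpp
  · linear_combination (T : ZMod (p ^ 2)) * hTi
  · linear_combination Ti ^ 2 * hpp
  · have e1 : (((T : ZMod (p ^ 2)) ^ 2 - p) * Ti - p * Ti) ^ 2 = (T : ZMod (p ^ 2)) ^ 2 - 4 * p := by
      linear_combination (((T : ZMod (p ^ 2)) ^ 2 - 4 * p) * ((T : ZMod (p ^ 2)) * Ti + 1)) * hTi +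
        4 * Ti ^ 2 * hpp
    have e2 : (Si * (((T : ZMod (p ^ 2)) ^ 2 - p) * Ti - p * Ti)) ^ 2 =
        Si ^ 2 * ((T : ZMod (p ^ 2)) ^ 2 - 4 * p) := by rw [mul_pow, e1]
    rw [e2]
    linear_combination Si ^ 2 * hR * (-1) + (-3) * ((S : ZMod (p ^ 2)) * Si + 1) * hSi
  · linear_combination (((T : ZMod (p ^ 2)) ^ 2 - p) * Ti - p * Ti) * hSi

omit hp in
theorem int_of_zmod {A : ℤ} {e : ℤ} (h : (A : ZMod (p ^ 2)) = (e : ZMod (p ^ 2))) :
    ∃ k : ℤ, A = e + (p : ℤ) ^ 2 * k := by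
  have h1 : ((A - e : ℤ) : ZMod (p ^ 2)) = 0 := by push_cast; rw [h]; ring
  rw [ZMod.intCast_zmod_eq_zero_iff_dvd] at h1
  obtain ⟨k, hk⟩ := h1
  push_cast at hk
  exact ⟨k, by linarith⟩

theorem small_trace {A B M : ℤ} (h7 : 7 ≤ p) (h : A ^ 2 + 3 * B ^ 2 = 4 * M)
    (hM : 4 * M < ((p : ℤ) ^ 2 - 1) ^ 2)
    (hA : (A : ZMod (p ^ 2)) = 1 ∨ (A : ZMod (p ^ 2)) = -1) : 4 * M = 1 + 3 * B ^ 2 := by
  have hp7 : (7 : ℤ) ≤ p := by exact_mod_cast h7
  have hp49 : (49 : ℤ) ≤ (p : ℤ) ^ 2 := by nlinarith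
  have h1 : ∃ e : ℤ, (e = 1 ∨ e = -1) ∧ ∃ k : ℤ, A = e + (p : ℤ) ^ 2 * k := by
    rcases hA with hA | hA
    · exact ⟨1, Or.inl rfl, int_of_zmod (by rw [hA]; push_cast; rfl)⟩
    · exact ⟨-1, Or.inr rfl, int_of_zmod (by rw [hA]; push_cast; rfl)⟩
  obtain ⟨e, he, k, hk⟩ := h1
  have hA2 : A ^ 2 < ((p : ℤ) ^ 2 - 1) ^ 2 := by nlinarith [sq_nonneg B]
  have hA3 : |A| < (p : ℤ) ^ 2 - 1 := by
    refine abs_lt_of_sq_lt_sq hA2 (by linarith)
  rw [abs_lt] at hA3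
  have hk0 : k = 0 := by
    rcases lt_trichotomy k 0 with h0 | h0 | h0
    · exfalso
      have : (p : ℤ) ^ 2 * k ≤ (p : ℤ) ^ 2 * (-1) := by
        apply mul_le_mul_of_nonneg_left <;> [linarith; positivity]
      rcases he with he | he <;> linarith
    · exact h0
    · exfalso
      have : (p : ℤ) ^ 2 * 1 ≤ (p : ℤ) ^ 2 * k := by
        apply mul_le_mul_of_nonneg_left <;> [linarith; positivity]
      rcases he with he | he <;> linarith
  rw [hk0, mul_zero, add_zero] at hk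
  have : A ^ 2 = 1 := by rcases he with he | he <;> rw [hk, he] <;> norm_num
  linarith

/-- a sixth root of unity `x = φ(A,B)` forces `4 M = 1 + 3 Q ^ 2`. -/
theorem trace_one {T S : ℤ} (D : Data p T S) {A B M : ℤ} {x : ZMod (p ^ 2)} (h7 : 7 ≤ p)
    (h : A ^ 2 + 3 * B ^ 2 = 4 * M) (hM : 4 * M < ((p : ℤ) ^ 2 - 1) ^ 2)
    (hA : (A : ZMod (p ^ 2)) = x) (hB : (B : ZMod (p ^ 2)) * D.θ = x) (hx : x ^ 6 = 1) :
    ∃ Q : ℤ, 4 * M = 1 + 3 * Q ^ 2 := by
  obtain ⟨r, hr⟩ := (isUnit_two (p := p) h7).exists_right_inv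
  have hθ := D.θ2
  set w : ZMod (p ^ 2) := (D.θ - 1) * r with hw
  have hw1 : w ^ 2 + w + 1 = 0 := by
    rw [hw]
    linear_combination r ^ 2 * hθ - (r * (1 + D.θ) + 1) * hr
  have h2u := isUnit_two (p := p) h7
  have hpar := parity_rep (p := M) (T := A) (S := B) h.symm
  have h3 : ¬ Even (3 : ℤ) := by decide
  rcases six_eq_one h7 hw1 hx with hc | hc | hc
  · exact ⟨B, small_trace h7 h hM (by rw [hA]; exact hc)⟩
  · obtain ⟨A', hA'⟩ : Even (-3 * B - A) := by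
      simp only [Int.even_sub, Int.even_mul, even_neg, h3, hpar]; tauto
    obtain ⟨B', hB'⟩ : Even (A - B) := by
      simp only [Int.even_sub, hpar]
    have e1 : A' ^ 2 + 3 * B' ^ 2 = 4 * M := by
      have : 4 * (A' ^ 2 + 3 * B' ^ 2) = 4 * (4 * M) := by
        have e2 : 4 * (A' ^ 2 + 3 * B' ^ 2) = (A' + A') ^ 2 + 3 * (B' + B') ^ 2 := by ring
        rw [e2, ← hA', ← hB', ← h]; ring
      linarith
    refine ⟨B', small_trace h7 e1 hM ?_⟩
    have e3 : (A' : ZMod (p ^ 2)) = x * w := by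
      refine h2u.mul_left_cancel ?_
      have e4 := congrArg (fun z : ℤ => (z : ZMod (p ^ 2))) hA'
      push_cast at e4
      rw [hw]
      linear_combination -e4 - hA + D.θ * hB - (B : ZMod (p ^ 2)) * hθ - (x * D.θ - x) * hr
    rw [e3]; exact hc
  · obtain ⟨A', hA'⟩ : Even (3 * B - A) := by
      simp only [Int.even_sub, Int.even_mul, h3, hpar]; tauto
    obtain ⟨B', hB'⟩ : Even (A + B) := by
      simp only [Int.even_add, hpar]
    have e1 : A' ^ 2 + 3 * B' ^ 2 = 4 * M := by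
      have : 4 * (A' ^ 2 + 3 * B' ^ 2) = 4 * (4 * M) := by
        have e2 : 4 * (A' ^ 2 + 3 * B' ^ 2) = (A' + A') ^ 2 + 3 * (B' + B') ^ 2 := by ring
        rw [e2, ← hA', ← hB', ← h]; ring
      linarith
    refine ⟨B', small_trace h7 e1 hM ?_⟩
    have e3 : (A' : ZMod (p ^ 2)) = x * w ^ 2 := by
      refine h2u.mul_left_cancel ?_
      have e4 := congrArg (fun z : ℤ => (z : ZMod (p ^ 2))) hA'
      push_cast at e4
      have e5 : w ^ 2 = -1 - w := by linear_combination hw1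
      rw [e5, hw]
      linear_combination -e4 - hA - D.θ * hB + (B : ZMod (p ^ 2)) * hθ + (x * D.θ - x) * hr
    rw [e3]; exact hc

/-- `u ^ 2` as an integer trace. -/
theorem Data.u2 {T S : ℤ} (D : Data p T S) :
    ((T ^ 2 - 2 * p : ℤ) : ZMod (p ^ 2)) = D.u ^ 2 := by
  push_cast
  linear_combination (-(D.u + D.v + T)) * D.add + 2 * D.uv + D.v2

theorem Data.u2' {T S : ℤ} (D : Data p T S) :
    ((T * S : ℤ) : ZMod (p ^ 2)) * D.θ = D.u ^ 2 := by
  push_cast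
  linear_combination (T : ZMod (p ^ 2)) * D.Sθ - (D.u - D.v) * D.add - D.v2

theorem Data.u3 {T S : ℤ} (D : Data p T S) :
    ((T * (T ^ 2 - 3 * p) : ℤ) : ZMod (p ^ 2)) = D.u ^ 3 := by
  have h1 := D.u2
  have h2 : D.v ^ 3 = 0 := by linear_combination D.v * D.v2
  push_cast at h1 ⊢
  have h3 := D.add
  have h4 := D.uv
  have h5 : (T : ZMod (p ^ 2)) = D.u + D.v := h3.symm
  rw [h5, ← h4]
  linear_combination h2

theorem Data.u3' {T S : ℤ} (D : Data p T S) :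
    ((S * (T ^ 2 - p) : ℤ) : ZMod (p ^ 2)) * D.θ = D.u ^ 3 := by
  have h2 : D.v ^ 3 = 0 := by linear_combination D.v * D.v2
  push_cast
  have h5 : (T : ZMod (p ^ 2)) = D.u + D.v := D.add.symm
  rw [h5, ← D.uv]
  linear_combination ((D.u + D.v) ^ 2 - D.u * D.v) * D.Sθ - h2

theorem bound_two (h7 : 7 ≤ p) : 4 * (p : ℤ) ^ 2 < ((p : ℤ) ^ 2 - 1) ^ 2 := by
  have hp7 : (7 : ℤ) ≤ p := by exact_mod_cast h7
  have h1 : (49 : ℤ) ≤ (p : ℤ) ^ 2 := by nlinarith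
  nlinarith

theorem bound_three (h7 : 7 ≤ p) : 4 * (p : ℤ) ^ 3 < ((p : ℤ) ^ 2 - 1) ^ 2 := by
  have hp7 : (7 : ℤ) ≤ p := by exact_mod_cast h7
  have h1 : (49 : ℤ) ≤ (p : ℤ) ^ 2 := by nlinarith
  have h2 : 4 * (p : ℤ) ^ 3 + 2 * (p : ℤ) ^ 2 ≤ (p : ℤ) ^ 2 * (p : ℤ) ^ 2 := by
    have : (p : ℤ) ^ 3 = (p : ℤ) ^ 2 * p := by ring
    rw [this]
    have h3 : (p : ℤ) ^ 2 * (4 * p + 2) ≤ (p : ℤ) ^ 2 * (p : ℤ) ^ 2 := by
      apply mul_le_mul_of_nonneg_left _ (by positivity)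
      nlinarith
    linarith
  nlinarith

theorem case_twelve {T S : ℤ} (h : 4 * (p : ℤ) = T ^ 2 + 3 * S ^ 2) (h7 : 7 ≤ p) (D : Data p T S)
    (hu : D.u ^ 12 = 1) : ∃ Q : ℤ, 4 * (p : ℤ) ^ 2 = 1 + 3 * Q ^ 2 := by
  refine trace_one D (A := T ^ 2 - 2 * p) (B := T * S) (x := D.u ^ 2) h7 ?_ (bound_two h7)
    D.u2 D.u2' (by rw [← pow_mul]; exact hu)
  linear_combination (-(T ^ 2)) * h

theorem case_eighteen {T S : ℤ} (h : 4 * (p : ℤ) = T ^ 2 + 3 * S ^ 2) (h7 : 7 ≤ p) (D : Data p T S)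
    (hu : D.u ^ 18 = 1) : False := by
  obtain ⟨Q, hQ⟩ := trace_one D (A := T * (T ^ 2 - 3 * p)) (B := S * (T ^ 2 - p)) (x := D.u ^ 3)
    (M := (p : ℤ) ^ 3) h7 (by linear_combination (-(T ^ 2 - p) ^ 2) * h) (bound_three h7)
    D.u3 D.u3' (by rw [← pow_mul]; exact hu)
  have hodd : Odd Q := by
    rcases Int.even_or_odd Q with ⟨q, hq⟩ | h
    · exfalso; rw [hq] at hQ; ring_nf at hQ; omega
    · exact h
  obtain ⟨q, hq⟩ := hodd
  have h1 : (q + 1) ^ 3 = q ^ 3 + (p : ℤ) ^ 3 := by rw [hq] at hQ; linarith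
  have hflt := fermatLastTheoremThree
  rw [fermatLastTheoremFor_iff_int] at hflt
  have hp0 : (p : ℤ) ≠ 0 := by have := hp.out.pos; positivity
  by_cases hq0 : q = 0
  · rw [hq0] at h1
    have : (p : ℤ) ^ 3 = 1 := by linarith
    have hp7 : (7 : ℤ) ≤ p := by exact_mod_cast h7
    nlinarith [sq_nonneg (p : ℤ)]
  by_cases hq1 : q + 1 = 0
  · have hq2 : q = -1 := by linarith
    rw [hq2] at h1
    have : (p : ℤ) ^ 3 = 1 := by linarith
    have hp7 : (7 : ℤ) ≤ p := by exact_mod_cast h7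
    nlinarith [sq_nonneg (p : ℤ)]
  exact hflt q p (q + 1) hq0 hp0 hq1 h1.symm

/-- `w ^ 4 - 2 v ^ 2 = 1` has only the trivial solution. -/
theorem quartic {w v : ℤ} (h : w ^ 4 - 2 * v ^ 2 = 1) : v = 0 := by
  have hw : Odd w := by
    rcases Int.even_or_odd w with ⟨a, ha⟩ | h1
    · exfalso
      rw [ha] at h
      have : (2 : ℤ) ∣ 1 := ⟨8 * a ^ 4 - v ^ 2, by linear_combination -h⟩
      omega
    · exact h1
  obtain ⟨a, ha⟩ := hw
  -- w ^ 2 = 4 b + 1, b = a (a + 1)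
  set b := a * (a + 1) with hb
  have h1 : w ^ 2 = 4 * b + 1 := by rw [ha, hb]; ring
  have hb0 : 0 ≤ b := by
    have : 0 ≤ w ^ 2 := sq_nonneg w
    omega
  have h2 : v ^ 2 = 4 * (b * (2 * b + 1)) := by
    have : w ^ 4 = (4 * b + 1) ^ 2 := by rw [← h1]; ring
    rw [this] at h
    linarith
  have h3 : Even v := by
    have : Even (v ^ 2) := ⟨2 * (b * (2 * b + 1)), by rw [h2]; ring⟩
    rw [Int.even_pow] at this; exact this.1
  obtain ⟨c, hc⟩ := h3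
  have h4 : b * (2 * b + 1) = c ^ 2 := by rw [hc] at h2; linarith
  have h5 : IsCoprime b (2 * b + 1) := ⟨-2, 1, by ring⟩
  obtain ⟨d, hd⟩ := Int.sq_of_isCoprime h5 h4
  rcases hd with hd | hd
  · -- w ^ 2 = 4 d ^ 2 + 1
    have h6 : w ^ 2 = (2 * d) ^ 2 + 1 := by rw [h1, hd]; ring
    have h7 : (w - 2 * d) * (w + 2 * d) = 1 := by linear_combination h6
    have h8 : d = 0 := by
      rcases Int.mul_eq_one_iff_eq_one_or_neg_one.mp h7 with ⟨e1, e2⟩ | ⟨e1, e2⟩ <;> linarith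
    rw [h8] at hd
    have hb1 : b = 0 := by rw [hd]; norm_num
    rw [hb1] at h2
    have : v ^ 2 = 0 := by rw [h2]; ring
    exact pow_eq_zero_iff (two_ne_zero) |>.mp this
  · have h6 : b = 0 := by nlinarith [sq_nonneg d]
    rw [h6] at h2
    have : v ^ 2 = 0 := by rw [h2]; ring
    exact pow_eq_zero_iff (two_ne_zero) |>.mp this

theorem no_sq_between {a b : ℤ} (hb : 0 ≤ b) (h1 : b ^ 2 < a ^ 2) (h2 : a ^ 2 < (b + 1) ^ 2) :
    False := by
  have h3 : |b| < |a| := sq_lt_sq.mp h1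
  have h4 : |a| < |b + 1| := sq_lt_sq.mp h2
  rw [abs_of_nonneg hb] at h3
  rw [abs_of_nonneg (by linarith : (0 : ℤ) ≤ b + 1)] at h4
  linarith

theorem final_cases {T S : ℤ} (h : 4 * (p : ℤ) = T ^ 2 + 3 * S ^ 2) (h7 : 7 ≤ p)
    (h3 : p % 3 = 1)
    (hu : ((T ^ 2 - 2 * p : ℤ) : ZMod (p ^ 2)) ^ 2 = 1 ∨
      ((T ^ 2 - 2 * p : ℤ) : ZMod (p ^ 2)) ^ 2 = -1) :
    ∃ Q : ℤ, 4 * (p : ℤ) ^ 2 = 1 + 3 * Q ^ 2 := by
  have hp7 : (7 : ℤ) ≤ p := by exact_mod_cast h7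
  have hp49 : (49 : ℤ) ≤ (p : ℤ) ^ 2 := by nlinarith
  set t : ℤ := T ^ 2 - 2 * p with ht
  set q : ℤ := T * S with hq
  have hN : t ^ 2 + 3 * q ^ 2 = 4 * (p : ℤ) ^ 2 := by
    rw [ht, hq]; linear_combination (-(T ^ 2)) * h
  obtain ⟨m, hm⟩ : ∃ m : ℤ, (p : ℤ) = 3 * m + 1 := ⟨(p / 3 : ℕ), by
    have : p = 3 * (p / 3) + 1 := by omega
    exact_mod_cast this⟩
  have ht0 : 0 ≤ t ^ 2 := sq_nonneg t
  have hq0 : 0 ≤ q ^ 2 := sq_nonneg q
  rcases hu with hu | hu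
  · obtain ⟨k, hk⟩ := int_of_zmod (p := p) (A := t ^ 2) (e := 1) (by push_cast; exact_mod_cast hu)
    have hk0 : 0 ≤ k := by
      by_contra hneg
      push Not at hneg
      have : (p : ℤ) ^ 2 * k ≤ (p : ℤ) ^ 2 * (-1) :=
        mul_le_mul_of_nonneg_left (by linarith) (by positivity)
      linarith
    have hk3 : k ≤ 3 := by
      by_contra hneg
      push Not at hneg
      have : (p : ℤ) ^ 2 * 4 ≤ (p : ℤ) ^ 2 * k :=
        mul_le_mul_of_nonneg_left (by linarith) (by positivity)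
      linarith
    interval_cases k
    · exact ⟨q, by linarith⟩
    · exfalso
      exact no_sq_between (a := t) (b := p) (by linarith) (by linarith) (by nlinarith)
    · exfalso
      have h4 : 3 * q ^ 2 = 2 * (3 * m + 1) ^ 2 - 1 := by rw [← hm]; linarith
      have h5 : 3 * (q ^ 2 - 6 * m ^ 2 - 4 * m) = 1 := by linear_combination h4
      omega
    · exfalso
      have h4 : 3 * q ^ 2 = (p : ℤ) ^ 2 - 1 := by linarith
      have h5 : t ^ 2 = 9 * q ^ 2 + 4 := by linarith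
      have h6 : q ≠ 0 := by
        intro h0; rw [h0] at h4; nlinarith
      have h7' : 1 ≤ |q| := Int.one_le_abs h6
      have h8 : |q| ^ 2 = q ^ 2 := sq_abs q
      exact no_sq_between (a := t) (b := 3 * |q|) (by positivity) (by nlinarith) (by nlinarith)
  · obtain ⟨k, hk⟩ := int_of_zmod (p := p) (A := t ^ 2) (e := -1) (by push_cast; exact_mod_cast hu)
    have hk0 : 1 ≤ k := by
      by_contra hneg
      push Not at hneg
      have : (p : ℤ) ^ 2 * k ≤ (p : ℤ) ^ 2 * 0 :=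
        mul_le_mul_of_nonneg_left (by linarith) (by positivity)
      linarith
    have hk3 : k ≤ 4 := by
      by_contra hneg
      push Not at hneg
      have : (p : ℤ) ^ 2 * 5 ≤ (p : ℤ) ^ 2 * k :=
        mul_le_mul_of_nonneg_left (by linarith) (by positivity)
      linarith
    interval_cases k
    · exfalso
      exact no_sq_between (a := t) (b := p - 1) (by linarith) (by nlinarith) (by nlinarith)
    · exfalso
      have h4 : T ^ 4 - 2 * (p - T ^ 2) ^ 2 = 1 := by rw [ht] at hk; linear_combination -hk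
      have h5 := quartic h4
      have h6 : T ^ 2 = p := by linarith
      have h8 : T ^ 4 = (p : ℤ) ^ 2 := by rw [← h6]; ring
      rw [h5, h8] at h4
      linarith
    · exfalso
      have h4 : 3 * ((p : ℤ) ^ 2) = t ^ 2 + 1 := by linarith
      have h5 : (t ^ 2 + 1) % 3 = 0 := by rw [← h4]; omega
      have h6 : t % 3 = 0 ∨ t % 3 = 1 ∨ t % 3 = 2 := by omega
      rcases h6 with h6 | h6 | h6 <;> simp [pow_two, Int.add_emod, Int.mul_emod, h6] at h5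
    · exfalso
      exact no_sq_between (a := t) (b := 2 * p - 1) (by linarith) (by nlinarith) (by nlinarith)

theorem case_24 {T S : ℤ} (h : 4 * (p : ℤ) = T ^ 2 + 3 * S ^ 2) (h7 : 7 ≤ p) (h3 : p % 3 = 1)
    (D : Data p T S) (hu : D.u ^ 24 = 1) : ∃ Q : ℤ, 4 * (p : ℤ) ^ 2 = 1 + 3 * Q ^ 2 := by
  obtain ⟨r, hr⟩ := (isUnit_two (p := p) h7).exists_right_inv
  have hθ := D.θ2
  obtain ⟨w, hw⟩ : ∃ w : ZMod (p ^ 2), w = (D.θ - 1) * r := ⟨_, rfl⟩
  have h2w : 2 * w = D.θ - 1 := by rw [hw]; linear_combination (D.θ - 1) * hr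
  have hw1 : w ^ 2 + w + 1 = 0 := by
    rw [hw]
    linear_combination r ^ 2 * hθ - (r * (1 + D.θ) + 1) * hr
  have hw3 : w ^ 3 = 1 := by linear_combination (w - 1) * hw1
  have h2u := isUnit_two (p := p) h7
  have h4u : IsUnit (4 : ZMod (p ^ 2)) := by
    have : (4 : ZMod (p ^ 2)) = 2 * 2 := by norm_num
    rw [this]; exact h2u.mul h2u
  have hpar := parity_rep (p := p) (T := T) (S := S) h
  have h3' : ¬ Even (3 : ℤ) := by decide
  have hadd := D.add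
  have huv := D.uv
  have hv2 := D.v2
  have hS := D.Sθ
  have hx : (D.u ^ 4) ^ 6 = 1 := by rw [← pow_mul]; exact hu
  rcases six_eq_one h7 hw1 hx with hc | hc | hc
  · refine final_cases h h7 h3 ?_
    rw [D.u2, ← pow_mul]; exact hc
  · obtain ⟨T', hT'⟩ : Even (-T - 3 * S) := by
      simp only [Int.even_sub, Int.even_mul, even_neg, h3', hpar]; tauto
    obtain ⟨S', hS'⟩ : Even (T - S) := by
      simp only [Int.even_sub, hpar]
    have e1 : 4 * (p : ℤ) = T' ^ 2 + 3 * S' ^ 2 := by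
      have : 4 * (T' ^ 2 + 3 * S' ^ 2) = 4 * (4 * (p : ℤ)) := by
        have e2 : 4 * (T' ^ 2 + 3 * S' ^ 2) = (T' + T') ^ 2 + 3 * (S' + S') ^ 2 := by ring
        rw [e2, ← hT', ← hS', h]; ring
      linarith
    refine final_cases e1 h7 h3 ?_
    have e3 : (T' : ZMod (p ^ 2)) = w * D.u + w ^ 2 * D.v := by
      refine h2u.mul_left_cancel ?_
      have e4 := congrArg (fun z : ℤ => (z : ZMod (p ^ 2))) hT'
      push_cast at e4
      linear_combination -e4 + hadd - (S : ZMod (p ^ 2)) * hθ + D.θ * hS - D.u * h2w +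
        D.v * h2w - 2 * D.v * hw1
    have e5 : ((T' ^ 2 - 2 * p : ℤ) : ZMod (p ^ 2)) = (w * D.u) ^ 2 := by
      push_cast
      rw [e3]
      linear_combination w ^ 4 * hv2 + 2 * w ^ 3 * huv + 2 * (p : ZMod (p ^ 2)) * hw3
    rw [e5]
    have e6 : ((w * D.u) ^ 2) ^ 2 = D.u ^ 4 * w := by linear_combination w * D.u ^ 4 * hw3
    rw [e6]; exact hc
  · obtain ⟨T', hT'⟩ : Even (-T + 3 * S) := by
      simp only [Int.even_add, Int.even_mul, even_neg, h3', hpar]; tauto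
    obtain ⟨S', hS'⟩ : Even (-T - S) := by
      simp only [Int.even_sub, even_neg, hpar]
    have e1 : 4 * (p : ℤ) = T' ^ 2 + 3 * S' ^ 2 := by
      have : 4 * (T' ^ 2 + 3 * S' ^ 2) = 4 * (4 * (p : ℤ)) := by
        have e2 : 4 * (T' ^ 2 + 3 * S' ^ 2) = (T' + T') ^ 2 + 3 * (S' + S') ^ 2 := by ring
        rw [e2, ← hT', ← hS', h]; ring
      linarith
    refine final_cases e1 h7 h3 ?_
    have e3 : (T' : ZMod (p ^ 2)) = w ^ 2 * D.u + w * D.v := by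
      refine h2u.mul_left_cancel ?_
      have e4 := congrArg (fun z : ℤ => (z : ZMod (p ^ 2))) hT'
      push_cast at e4
      linear_combination -e4 + hadd + (S : ZMod (p ^ 2)) * hθ - D.θ * hS + D.u * h2w -
        D.v * h2w - 2 * D.u * hw1
    have e5 : ((T' ^ 2 - 2 * p : ℤ) : ZMod (p ^ 2)) = (w ^ 2 * D.u) ^ 2 := by
      push_cast
      rw [e3]
      linear_combination w ^ 2 * hv2 + 2 * w ^ 3 * huv + 2 * (p : ZMod (p ^ 2)) * hw3
    rw [e5]
    have e6 : ((w ^ 2 * D.u) ^ 2) ^ 2 = D.u ^ 4 * w ^ 2 := by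
      linear_combination D.u ^ 4 * w ^ 2 * (w ^ 3 + 1) * hw3
    rw [e6]; exact hc

/-- the converse: `4 p ^ 2 = 1 + 3 Q ^ 2` forces `u ^ 12 = 1`. -/
theorem u12_of_pell {T S : ℤ} (h : 4 * (p : ℤ) = T ^ 2 + 3 * S ^ 2) (h7 : 7 ≤ p)
    (D : Data p T S) {Q : ℤ} (hQ : 4 * (p : ℤ) ^ 2 = 1 + 3 * Q ^ 2) : D.u ^ 12 = 1 := by
  have h2u := isUnit_two (p := p) h7
  have hθ := D.θ2
  have hA := D.u2
  have hB := D.u2'
  have hpp := Nat.prime_iff_prime_int.mp hp.out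
  set A : ℤ := T ^ 2 - 2 * p with hA0
  set B : ℤ := T * S with hB0
  have hN : A ^ 2 + 3 * B ^ 2 = 4 * (p : ℤ) ^ 2 := by
    rw [hA0, hB0]; linear_combination (-(T ^ 2)) * h
  have hQR : (Q : ZMod (p ^ 2)) ^ 2 * 3 = -1 := by
    have e := congrArg (fun z : ℤ => (z : ZMod (p ^ 2))) hQ
    push_cast at e
    have := p_sq (p := p)
    linear_combination -e + 4 * this
  -- choose the sign of `Q`
  have key : ∀ Q : ℤ, 4 * (p : ℤ) ^ 2 = 1 + 3 * Q ^ 2 → (Q : ZMod (p ^ 2)) * D.θ = 1 →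
      D.u ^ 12 = 1 := by
    intro Q hQ hQθ
    have d1 : ((A + 3 * Q * B : ℤ) : ZMod (p ^ 2)) = 0 := by
      push_cast
      rw [hA]
      linear_combination (Q : ZMod (p ^ 2)) * B * hθ - (B : ZMod (p ^ 2)) * D.θ * hQθ - hB
    have hθu : IsUnit D.θ := IsUnit.of_mul_eq_one (Q : ZMod (p ^ 2)) (by rw [mul_comm]; exact hQθ)
    have d2 : ((Q * A - B : ℤ) : ZMod (p ^ 2)) = 0 := by
      refine hθu.mul_left_cancel ?_
      push_cast
      rw [hA]
      linear_combination D.u ^ 2 * hQθ - hB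
    rw [ZMod.intCast_zmod_eq_zero_iff_dvd] at d1 d2
    obtain ⟨E, hE⟩ := d1
    obtain ⟨F, hF⟩ := d2
    push_cast at hE hF
    have hEF : E ^ 2 + 3 * F ^ 2 = 16 := by
      have e1 : (A + 3 * Q * B) ^ 2 + 3 * (Q * A - B) ^ 2 = 16 * (p : ℤ) ^ 4 := by
        have : (A + 3 * Q * B) ^ 2 + 3 * (Q * A - B) ^ 2 = (1 + 3 * Q ^ 2) * (A ^ 2 + 3 * B ^ 2) := by
          ring
        rw [this, ← hQ, hN]; ring
      rw [hE, hF] at e1
      have e2 : (p : ℤ) ^ 4 * (E ^ 2 + 3 * F ^ 2) = (p : ℤ) ^ 4 * 16 := by linear_combination e1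
      exact mul_left_cancel₀ (pow_ne_zero 4 hpp.ne_zero) e2
    have h4A : 4 * A = E + 3 * Q * F := by
      have e1 : (p : ℤ) ^ 2 * (4 * A) = (p : ℤ) ^ 2 * (E + 3 * Q * F) := by
        linear_combination A * hQ + hE + 3 * Q * hF
      exact mul_left_cancel₀ (pow_ne_zero 2 hpp.ne_zero) e1
    have h4u : 4 * D.u ^ 2 = E - F * D.θ := by
      have e := congrArg (fun z : ℤ => (z : ZMod (p ^ 2))) h4A
      push_cast at e
      rw [hA] at e
      linear_combination e + (Q : ZMod (p ^ 2)) * F * hθ - (F : ZMod (p ^ 2)) * D.θ * hQθ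
    have h4uu : IsUnit (4 : ZMod (p ^ 2)) := by
      have : (4 : ZMod (p ^ 2)) = 2 * 2 := by norm_num
      rw [this]; exact h2u.mul h2u
    have hcube : (4 * D.u ^ 2) ^ 6 = 4 ^ 6 := by
      rw [h4u]
      have hF1 : -2 ≤ F := by nlinarith [sq_nonneg E]
      have hF2 : F ≤ 2 := by nlinarith [sq_nonneg E]
      have hz3 : ((E : ZMod (p ^ 2)) - F * D.θ) ^ 3 = ((E * (E ^ 2 - 9 * F ^ 2) : ℤ) : ZMod (p ^ 2)) +
          3 * D.θ * ((F * (F ^ 2 - E ^ 2) : ℤ) : ZMod (p ^ 2)) := by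
        push_cast
        linear_combination (3 * (E : ZMod (p ^ 2)) * F ^ 2 - (F : ZMod (p ^ 2)) ^ 3 * D.θ) * hθ
      have hz6 : ((E : ZMod (p ^ 2)) - F * D.θ) ^ 6 =
          (((E : ZMod (p ^ 2)) - F * D.θ) ^ 3) ^ 2 := by ring
      have hcases : (F = 0 ∧ E ^ 2 = 16) ∨ (F ^ 2 = 4 ∧ E ^ 2 = 4) := by
        have hE1 : -4 ≤ E := by nlinarith [sq_nonneg F]
        have hE2 : E ≤ 4 := by nlinarith [sq_nonneg F]
        interval_cases F <;> interval_cases E <;> simp_all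
      rw [hz6, hz3]
      rcases hcases with ⟨hf, he⟩ | ⟨hf, he⟩
      · have e1 : E * (E ^ 2 - 9 * F ^ 2) = 16 * E := by rw [hf, he]; ring
        have e2 : F * (F ^ 2 - E ^ 2) = 0 := by rw [hf]; ring
        rw [e1, e2]
        have e3 := congrArg (fun z : ℤ => (z : ZMod (p ^ 2))) he
        push_cast at e3 ⊢
        linear_combination 256 * e3
      · have e1 : E * (E ^ 2 - 9 * F ^ 2) = -32 * E := by rw [hf, he]; ring
        have e2 : F * (F ^ 2 - E ^ 2) = 0 := by rw [hf, he]; ring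
        rw [e1, e2]
        have e3 := congrArg (fun z : ℤ => (z : ZMod (p ^ 2))) he
        push_cast at e3 ⊢
        linear_combination 1024 * e3
    have h46 : IsUnit ((4 : ZMod (p ^ 2)) ^ 6) := h4uu.pow 6
    refine h46.mul_left_cancel ?_
    linear_combination hcube
  have hQθ2 : ((Q : ZMod (p ^ 2)) * D.θ) ^ 2 = 1 := by
    linear_combination (Q : ZMod (p ^ 2)) ^ 2 * hθ - hQR
  rcases sq_eq_one h7 hQθ2 with h1 | h1
  · exact key Q hQ h1
  · exact key (-Q) (by rw [hQ]; ring) (by push_cast; linear_combination -h1)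

/-- The input from Jacobi sums. -/
def JacobiHyp (p : ℕ) : Prop :=
  ∃ T S : ℤ, 4 * (p : ℤ) = T ^ 2 + 3 * S ^ 2 ∧
    (T : ZMod (p ^ 2)) * ((cc p : ℕ) : ZMod (p ^ 2)) = -((T : ZMod (p ^ 2)) ^ 2 - p)

/-- For every representation, `C ^ 6 = u ^ 6`. -/
theorem cc_pow_six (hJ : JacobiHyp p) (h7 : 7 ≤ p) {T S : ℤ}
    (h : 4 * (p : ℤ) = T ^ 2 + 3 * S ^ 2) (D : Data p T S) :
    ((cc p : ℕ) : ZMod (p ^ 2)) ^ 6 = D.u ^ 6 := by
  obtain ⟨T0, S0, h0, hC⟩ := hJ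
  obtain ⟨D0⟩ := exists_data h0 h7
  have hodd : ¬ Even (p : ℤ) := by
    intro he
    have : Even p := by exact_mod_cast he
    rcases hp.out.eq_two_or_odd' with h2 | h2
    · omega
    · exact (Nat.not_even_iff_odd.mpr h2) this
  have hV := rep_unique (Nat.prime_iff_prime_int.mp hp.out) hodd h h0
  have hT0 := isUnit_int (not_dvd_of_rep h0 h7).1
  have e1 : ((cc p : ℕ) : ZMod (p ^ 2)) = -D0.u := by
    refine hT0.mul_left_cancel ?_
    rw [hC, ← D0.uT]; ring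
  have e2 := D0.u3
  have e3 := D.u3
  have e4 := congrArg (fun z : ℤ => (z : ZMod (p ^ 2))) hV
  simp only [Int.cast_pow] at e4
  rw [e2, e3] at e4
  rw [e1]
  linear_combination -e4

/-- **Evaluation.** -/
theorem cc_pow (hJ : JacobiHyp p) (h7 : 7 ≤ p) (h6 : 6 ∣ p - 1) {T S : ℤ}
    (h : 4 * (p : ℤ) = T ^ 2 + 3 * S ^ 2) :
    (T : ZMod (p ^ 2)) ^ 2 * ((cc p : ℕ) : ZMod (p ^ 2)) ^ (p - 1) =
      (T : ZMod (p ^ 2)) ^ (p + 1) + p := by
  obtain ⟨D⟩ := exists_data h h7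
  have hc := cc_pow_six hJ h7 h D
  obtain ⟨k, hk⟩ := h6
  have h1 : ((cc p : ℕ) : ZMod (p ^ 2)) ^ (p - 1) = D.u ^ (p - 1) := by
    rw [hk, pow_mul, pow_mul, hc]
  have hT := (not_dvd_of_rep h h7).1
  have hTu := isUnit_int hT
  obtain ⟨y, hy⟩ := fermat_int hT
  have hpp := p_mul_self (p := p)
  -- `u = T (1 - b p)` with `b T ^ 2 = 1`
  obtain ⟨Ti, hTi⟩ := hTu.exists_right_inv
  have hu : D.u = T * (1 - Ti ^ 2 * p) := by
    refine hTu.mul_left_cancel ?_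
    have := D.uT
    linear_combination this + (p * ((T : ZMod (p ^ 2)) * Ti + 1)) * hTi
  have hpow : ∀ n : ℕ, (1 - Ti ^ 2 * (p : ZMod (p ^ 2))) ^ n = 1 - n * (Ti ^ 2 * p) := fun n =>
    one_sub_pow_nil _ (by linear_combination Ti ^ 4 * hpp) n
  rw [h1, hu, mul_pow, hpow]
  have hp1 : ((p - 1 : ℕ) : ZMod (p ^ 2)) = (p : ZMod (p ^ 2)) - 1 := by
    rw [Nat.cast_sub hp.out.one_lt.le, Nat.cast_one]
  rw [hp1]
  have hs : (T : ZMod (p ^ 2)) ^ (p + 1) = (T : ZMod (p ^ 2)) ^ 2 * T ^ (p - 1) := by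
    rw [← pow_add]; congr 1; have := hp.out.one_lt; omega
  rw [hs]
  have e1 : (T : ZMod (p ^ 2)) ^ 2 * ((T : ZMod (p ^ 2)) ^ (p - 1) *
      (1 - ((p : ZMod (p ^ 2)) - 1) * (Ti ^ 2 * p))) = (T : ZMod (p ^ 2)) ^ 2 * T ^ (p - 1) +
      (T : ZMod (p ^ 2)) ^ (p - 1) * p := by
    linear_combination (-(T : ZMod (p ^ 2)) ^ 2 * T ^ (p - 1) * Ti ^ 2) * hpp +
      ((T : ZMod (p ^ 2)) ^ (p - 1) * p * ((T : ZMod (p ^ 2)) * Ti + 1)) * hTi
  rw [e1, hy]
  linear_combination y * hpp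

/-- **Order classification.** -/
theorem order_iff (hJ : JacobiHyp p) (h7 : 7 ≤ p) (h3 : p % 3 = 1) :
    (((cc p : ℕ) : ZMod (p ^ 2)) ^ 12 = 1 ∨ ((cc p : ℕ) : ZMod (p ^ 2)) ^ 18 = 1 ∨
      ((cc p : ℕ) : ZMod (p ^ 2)) ^ 24 = 1) ↔ ∃ x : ℤ, (p : ℤ) ^ 2 = 3 * x ^ 2 + 3 * x + 1 := by
  obtain ⟨T, S, h, hC⟩ := id hJ
  obtain ⟨D⟩ := exists_data h h7
  have hc := cc_pow_six hJ h7 h D
  have hpell : (∃ Q : ℤ, 4 * (p : ℤ) ^ 2 = 1 + 3 * Q ^ 2) ↔
      ∃ x : ℤ, (p : ℤ) ^ 2 = 3 * x ^ 2 + 3 * x + 1 := by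
    constructor
    · rintro ⟨Q, hQ⟩
      rcases Int.even_or_odd Q with ⟨q, hq⟩ | ⟨q, hq⟩
      · exfalso; rw [hq] at hQ; ring_nf at hQ; omega
      · exact ⟨q, by rw [hq] at hQ; linarith⟩
    · rintro ⟨x, hx⟩
      exact ⟨2 * x + 1, by rw [hx]; ring⟩
  rw [← hpell]
  constructor
  · rintro (h1 | h1 | h1)
    · refine case_twelve h h7 D ?_
      have : D.u ^ 12 = (D.u ^ 6) ^ 2 := by ring
      rw [this, ← hc, ← pow_mul]; exact h1
    · exfalso
      refine case_eighteen h h7 D ?_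
      have : D.u ^ 18 = (D.u ^ 6) ^ 3 := by ring
      rw [this, ← hc, ← pow_mul]; exact h1
    · refine case_24 h h7 h3 D ?_
      have : D.u ^ 24 = (D.u ^ 6) ^ 4 := by ring
      rw [this, ← hc, ← pow_mul]; exact h1
  · rintro ⟨Q, hQ⟩
    left
    have := u12_of_pell h h7 D hQ
    have e : ((cc p : ℕ) : ZMod (p ^ 2)) ^ 12 = (((cc p : ℕ) : ZMod (p ^ 2)) ^ 6) ^ 2 := by ring
    rw [e, hc, ← pow_mul]; exact this

end Ring

end Glaisher
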