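import Mathlib

/-!
The coordinate ring `ℚ[X] ⊕ ℚ[X] Y` of the Pell conic `X ^ 2 - d Y ^ 2 = 1`, and a divisibility
criterion: if `P ^ 2` divides `W` at infinitely many integral points of the conic then `P ^ 2`
divides `W`.
-/

namespace Glaisher

open Polynomial

/-- `Y ^ 2 = (X ^ 2 - 1) / d`. -/
noncomputable def cP (d : ℕ) : ℚ[X] := C (1 / (d : ℚ)) * (X ^ 2 - 1)

/-- The coordinate ring of the Pell conic. -/
abbrev PA (d : ℕ) := QuadraticAlgebra ℚ[X] (cP d) 0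

/-- Evaluation at a point of the conic. -/
noncomputable def ev {K : Type*} [Field K] [CharZero K] {d : ℕ} (hd : 0 < d) {x y : K}
    (h : x ^ 2 - d * y ^ 2 = 1) : PA d →+* K where
  toFun z := aeval x z.re + aeval x z.im * y
  map_one' := by simp [QuadraticAlgebra.re_one, QuadraticAlgebra.im_one]
  map_zero' := by simp
  map_add' z w := by simp; ring
  map_mul' z w := by
    have hd' : (d : K) ≠ 0 := by exact_mod_cast hd.ne'
    have h1 : (aeval x) (cP d) = y ^ 2 := by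
      simp [cP]
      field_simp
      linear_combination h
    simp only [QuadraticAlgebra.re_mul, QuadraticAlgebra.im_mul, map_add, map_mul, map_zero, h1]
    ring

theorem ev_apply {K : Type*} [Field K] [CharZero K] {d : ℕ} (hd : 0 < d) {x y : K}
    (h : x ^ 2 - d * y ^ 2 = 1) (z : PA d) :
    ev hd h z = aeval x z.re + aeval x z.im * y := rfl

theorem aeval_rat (x : ℚ) (q : ℚ[X]) :
    (@aeval ℚ ℚ _ _ (DivisionRing.toRatAlgebra) x) q = q.eval x := by
  rw [aeval_def]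
  have h : (@algebraMap ℚ ℚ _ _ (DivisionRing.toRatAlgebra)) = RingHom.id ℚ := Subsingleton.elim _ _
  rw [h, eval₂_id]

theorem aniso {d : ℕ} (hd : ¬ IsSquare d) (hd0 : 0 < d) {a b : ℚ[X]} (h : a ^ 2 = cP d * b ^ 2) :
    a = 0 ∧ b = 0 := by
  by_cases hb : b = 0
  · subst hb
    refine ⟨?_, rfl⟩
    simpa using h
  · exfalso
    have hd' : (d : ℚ) ≠ 0 := by exact_mod_cast hd0.ne'
    have hlc : (cP d).leadingCoeff = 1 / (d : ℚ) := by
      rw [cP, leadingCoeff_mul, leadingCoeff_C]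
      have : (X ^ 2 - 1 : ℚ[X]) = X ^ 2 - C 1 := by simp
      rw [this, leadingCoeff_X_pow_sub_C (by norm_num), mul_one]
    have h1 := congrArg leadingCoeff h
    rw [leadingCoeff_pow, leadingCoeff_mul, leadingCoeff_pow, hlc] at h1
    have hbl : b.leadingCoeff ≠ 0 := leadingCoeff_ne_zero.mpr hb
    have hal : a.leadingCoeff ≠ 0 := by
      intro h0
      rw [h0] at h1
      have : (1 / (d : ℚ)) * b.leadingCoeff ^ 2 ≠ 0 := by positivity
      exact this (by rw [← h1]; ring)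
    apply hd
    rw [← Rat.isSquare_natCast_iff]
    refine ⟨b.leadingCoeff / a.leadingCoeff, ?_⟩
    field_simp
    field_simp at h1
    linarith

theorem norm_ne_zero {d : ℕ} (hd : ¬ IsSquare d) (hd0 : 0 < d) {z : PA d} (hz : z ≠ 0) :
    QuadraticAlgebra.norm z ≠ 0 := by
  intro h
  apply hz
  rw [QuadraticAlgebra.norm_def] at h
  have h1 : z.re ^ 2 = cP d * z.im ^ 2 := by linear_combination h
  obtain ⟨h2, h3⟩ := aniso hd hd0 h1
  ext1 <;> assumption

theorem PA_mul_eq_zero {d : ℕ} (hd : ¬ IsSquare d) (hd0 : 0 < d) {z w : PA d} (h : z * w = 0) :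
    z = 0 ∨ w = 0 := by
  by_contra hcon
  push Not at hcon
  have h1 : QuadraticAlgebra.norm z * QuadraticAlgebra.norm w = 0 := by
    rw [← map_mul, h, QuadraticAlgebra.norm_zero]
  rcases mul_eq_zero.mp h1 with h2 | h2
  · exact norm_ne_zero hd hd0 hcon.1 h2
  · exact norm_ne_zero hd hd0 hcon.2 h2

/-- integral points -/
def IsPt (d : ℕ) (s : ℤ × ℤ) : Prop := s.1 ^ 2 - d * s.2 ^ 2 = 1

theorem IsPt.cast {K : Type*} [Field K] {d : ℕ} {s : ℤ × ℤ} (h : IsPt d s) :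
    (s.1 : K) ^ 2 - d * (s.2 : K) ^ 2 = 1 := by
  have := congrArg (fun z : ℤ => (z : K)) h
  push_cast at this
  exact this

/-- A set of points of the conic with bounded `x` is finite. -/
theorem finite_of_bounded {d : ℕ} (hd0 : 0 < d) (S : Set (ℤ × ℤ)) (hS : ∀ s ∈ S, IsPt d s)
    (F : Set ℤ) (hF : F.Finite) (hSF : ∀ s ∈ S, s.1 ∈ F) : S.Finite := by
  obtain ⟨M, hM⟩ : ∃ M : ℤ, ∀ x ∈ F, |x| ≤ M := by
    obtain ⟨M, hM⟩ := hF.bddAbove.exists_ge 0 |>.imp fun _ h => h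
    obtain ⟨M', hM'⟩ := hF.bddBelow.exists_le 0 |>.imp fun _ h => h
    refine ⟨max M (-M'), fun x hx => abs_le.mpr ⟨?_, ?_⟩⟩
    · have := hM'.2 x hx
      have h2 : -M' ≤ max M (-M') := le_max_right _ _
      linarith
    · exact (hM.2 x hx).trans (le_max_left _ _)
  refine ((Set.finite_Icc (-M) M).prod (Set.finite_Icc (-M) M)).subset ?_
  intro s hs
  have h1 := hM _ (hSF s hs)
  have h2 := hS s hs
  rw [IsPt] at h2
  have hd1 : (1 : ℤ) ≤ d := by exact_mod_cast hd0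
  have h3 : s.2 ^ 2 ≤ s.1 ^ 2 := by nlinarith [sq_nonneg s.2]
  have h4 : |s.2| ≤ |s.1| := sq_le_sq.mp h3
  rw [Set.mem_prod, Set.mem_Icc, Set.mem_Icc]
  exact ⟨abs_le.mp h1, abs_le.mp (h4.trans h1)⟩

/-- An element of the coordinate ring vanishing at infinitely many integral points is zero. -/
theorem zero_of_infinite {d : ℕ} (hd : ¬ IsSquare d) (hd0 : 0 < d) (z : PA d) (S : Set (ℤ × ℤ))
    (hS : S.Infinite) (hS' : ∀ s ∈ S, IsPt d s ∧
      (z.re.eval (s.1 : ℚ) + z.im.eval (s.1 : ℚ) * s.2 = 0)) : z = 0 := by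
  by_contra hz
  have hn := norm_ne_zero hd hd0 hz
  set n := QuadraticAlgebra.norm z with hn'
  apply hS
  refine finite_of_bounded hd0 S (fun s hs => (hS' s hs).1)
    {x : ℤ | n.eval (x : ℚ) = 0} ?_ ?_
  · have h1 : {x : ℚ | n.eval x = 0}.Finite := by
      refine (n.roots.toFinset.finite_toSet).subset ?_
      intro x hx
      simp only [Finset.mem_coe, Multiset.mem_toFinset]
      exact (mem_roots hn).mpr hx
    exact h1.preimage (fun a _ b _ h => by exact_mod_cast h)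
  · intro s hs
    obtain ⟨h1, h2⟩ := hS' s hs
    have h3 := h1.cast (K := ℚ)
    have hd' : (d : ℚ) ≠ 0 := by exact_mod_cast hd0.ne'
    show n.eval (s.1 : ℚ) = 0
    rw [hn', QuadraticAlgebra.norm_def]
    have h4 : (cP d).eval (s.1 : ℚ) = (s.2 : ℚ) ^ 2 := by
      simp [cP]; field_simp; linear_combination h3
    simp only [eval_sub, eval_add, eval_mul, h4, eval_zero]
    linear_combination (z.re.eval (s.1 : ℚ) - z.im.eval (s.1 : ℚ) * s.2) * h2

/-- common denominators -/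
theorem exists_denom (f : ℚ[X]) : ∃ D : ℕ, 0 < D ∧ ∀ x : ℤ, ∃ k : ℤ, (D : ℚ) * f.eval (x : ℚ) = k := by
  induction f using Polynomial.induction_on' with
  | add f g hf hg =>
    obtain ⟨D, hD, h1⟩ := hf
    obtain ⟨E, hE, h2⟩ := hg
    refine ⟨D * E, by positivity, fun x => ?_⟩
    obtain ⟨k, hk⟩ := h1 x
    obtain ⟨l, hl⟩ := h2 x
    refine ⟨E * k + D * l, ?_⟩
    push_cast
    rw [eval_add, ← hk, ← hl]; ring
  | monomial n a =>
    refine ⟨a.den, a.den_pos, fun x => ⟨a.num * x ^ n, ?_⟩⟩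
    rw [eval_monomial]
    push_cast
    have := Rat.den_mul_eq_num a
    rw [← mul_assoc, this]

/-- growth comparison at integers -/
theorem growth (f g : ℚ[X]) (h : f.degree ≤ g.degree) :
    ∃ C : ℝ, {x : ℤ | ¬ |((f.eval (x : ℚ) : ℚ) : ℝ)| ≤ C * |((g.eval (x : ℚ) : ℚ) : ℝ)|}.Finite := by
  have h1 : (f.map (algebraMap ℚ ℝ)).degree ≤ (g.map (algebraMap ℚ ℝ)).degree := by
    rw [degree_map, degree_map]; exact h
  have h2 := isBigO_cobounded_of_degree_le h1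
  obtain ⟨C, hC⟩ := h2.bound
  refine ⟨C, ?_⟩
  have h3 : Filter.Tendsto ((↑) : ℤ → ℝ) Filter.cofinite (Bornology.cobounded ℝ) := by
    rw [Metric.cobounded_eq_cocompact]; exact Int.tendsto_coe_cofinite
  have h4 := h3.eventually hC
  rw [Filter.eventually_cofinite] at h4
  refine h4.subset ?_
  intro x hx hcon
  apply hx
  simp only [Real.norm_eq_abs] at hcon
  have e1 : ∀ q : ℚ[X], ((q.map (algebraMap ℚ ℝ)).eval (x : ℝ)) = ((q.eval (x : ℚ) : ℚ) : ℝ) := by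
    intro q
    rw [eval_map_algebraMap, aeval_def]
    have : (x : ℝ) = algebraMap ℚ ℝ (x : ℚ) := by simp
    rw [this, eval₂_at_apply]; rfl
  rw [e1, e1] at hcon
  exact hcon

/-- **Divisibility criterion.** -/
theorem div_of_infinite {d : ℕ} (hd : ¬ IsSquare d) (hd0 : 0 < d) (W P : PA d) (hP : P ≠ 0)
    (S : Set (ℤ × ℤ)) (hS : S.Infinite)
    (h : ∀ s ∈ S, IsPt d s ∧ ∃ q : ℤ, W.re.eval (s.1 : ℚ) + W.im.eval (s.1 : ℚ) * s.2 =
      (P.re.eval (s.1 : ℚ) + P.im.eval (s.1 : ℚ) * s.2) ^ 2 * q) :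
    ∃ H : PA d, W = P ^ 2 * H := by
  have hn := norm_ne_zero hd hd0 hP
  set n := QuadraticAlgebra.norm P with hn'
  have hnP : algebraMap ℚ[X] (PA d) n = P * star P := QuadraticAlgebra.algebraMap_norm_eq_mul_star P
  have hn2 : n ^ 2 ≠ 0 := pow_ne_zero 2 hn
  set Z : PA d := W * (star P) ^ 2 with hZ
  set a1 := Z.re / n ^ 2 with ha1
  set a0 := Z.re % n ^ 2 with ha0
  set b1 := Z.im / n ^ 2 with hb1
  set b0 := Z.im % n ^ 2 with hb0
  have ha : n ^ 2 * a1 + a0 = Z.re := EuclideanDomain.div_add_mod _ _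
  have hb : n ^ 2 * b1 + b0 = Z.im := EuclideanDomain.div_add_mod _ _
  have ha0d : a0.degree < (n ^ 2).degree := EuclideanDomain.mod_lt _ hn2
  have hb0d : b0.degree < (n ^ 2).degree := EuclideanDomain.mod_lt _ hn2
  obtain ⟨D1, hD1, hD1'⟩ := exists_denom a1
  obtain ⟨D2, hD2, hD2'⟩ := exists_denom b1
  set D : ℕ := D1 * D2 with hD
  have hD0 : 0 < D := by positivity
  -- the key relation
  have hkey : ∀ s ∈ S, ∃ z : ℤ, (D : ℚ) * (a0.eval (s.1 : ℚ) + b0.eval (s.1 : ℚ) * s.2) =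
      (n ^ 2).eval (s.1 : ℚ) * z := by
    intro s hs
    obtain ⟨hpt, q, hq⟩ := h s hs
    have hpt' := hpt.cast (K := ℚ)
    obtain ⟨k, hk⟩ := hD1' s.1
    obtain ⟨l, hl⟩ := hD2' s.1
    refine ⟨D * q - D2 * k - D1 * l * s.2, ?_⟩
    have e1 : ∀ w : PA d, ev hd0 hpt' w = w.re.eval (s.1 : ℚ) + w.im.eval (s.1 : ℚ) * s.2 := by
      intro w; rw [ev_apply, aeval_rat, aeval_rat]
    have e2 : ev hd0 hpt' Z = (n ^ 2).eval (s.1 : ℚ) * q := by
      rw [hZ, map_mul, e1 W, hq, ← e1 P, map_pow]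
      have e3 : ev hd0 hpt' (algebraMap ℚ[X] (PA d) n) = n.eval (s.1 : ℚ) := by
        rw [e1]; simp [QuadraticAlgebra.algebraMap_re, QuadraticAlgebra.algebraMap_im]
      rw [hnP, map_mul] at e3
      rw [eval_pow, ← e3]; ring
    rw [e1 Z, ← ha, ← hb] at e2
    simp only [eval_add, eval_mul] at e2
    push_cast
    have e4 : (D : ℚ) = D1 * D2 := by rw [hD]; push_cast; rfl
    rw [e4]
    linear_combination (D1 * D2 : ℚ) * e2 - (n ^ 2).eval (s.1 : ℚ) * D2 * hk -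
      (n ^ 2).eval (s.1 : ℚ) * D1 * s.2 * hl
  -- growth
  have hdeg1 : (C (D : ℚ) * a0).degree ≤ (n ^ 2).degree := by
    rw [degree_C_mul (by exact_mod_cast hD0.ne')]; exact ha0d.le
  have hdeg2 : (C (D : ℚ) * (b0 * X)).degree ≤ (n ^ 2).degree := by
    rw [degree_C_mul (by exact_mod_cast hD0.ne')]
    by_cases hb00 : b0 = 0
    · rw [hb00, zero_mul, degree_zero]; exact bot_le
    · rw [degree_mul, degree_X]
      rw [degree_eq_natDegree hb00, degree_eq_natDegree hn2] at hb0d ⊢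
      norm_cast at hb0d ⊢
  obtain ⟨C1, hC1⟩ := growth _ _ hdeg1
  obtain ⟨C2, hC2⟩ := growth _ _ hdeg2
  set B1 := {x : ℤ | ¬ |(((C (D : ℚ) * a0).eval (x : ℚ) : ℚ) : ℝ)| ≤
    C1 * |(((n ^ 2).eval (x : ℚ) : ℚ) : ℝ)|} with hB1
  set B2 := {x : ℤ | ¬ |(((C (D : ℚ) * (b0 * X)).eval (x : ℚ) : ℚ) : ℝ)| ≤
    C2 * |(((n ^ 2).eval (x : ℚ) : ℚ) : ℝ)|} with hB2
  have hB3 : {x : ℤ | (n ^ 2).eval (x : ℚ) = 0}.Finite := by
    have h1 : {x : ℚ | (n ^ 2).eval x = 0}.Finite := by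
      refine ((n ^ 2).roots.toFinset.finite_toSet).subset ?_
      intro x hx
      simp only [Finset.mem_coe, Multiset.mem_toFinset]
      exact (mem_roots hn2).mpr hx
    exact h1.preimage (fun a _ b _ h => by exact_mod_cast h)
  set B3 := {x : ℤ | (n ^ 2).eval (x : ℚ) = 0} with hB3'
  have hBfin : (B1 ∪ B2 ∪ B3).Finite := (hC1.union hC2).union hB3
  set S' := {s ∈ S | s.1 ∉ B1 ∪ B2 ∪ B3} with hS'
  have hS'inf : S'.Infinite := by
    intro hfin
    apply hS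
    have h1 : {s ∈ S | s.1 ∈ B1 ∪ B2 ∪ B3}.Finite :=
      finite_of_bounded hd0 _ (fun s hs => (h s hs.1).1) _ hBfin (fun s hs => hs.2)
    refine (hfin.union h1).subset fun s hs => ?_
    by_cases hb : s.1 ∈ B1 ∪ B2 ∪ B3
    · right; exact ⟨hs, hb⟩
    · left; exact ⟨hs, hb⟩
  obtain ⟨K, hK⟩ := exists_nat_gt (C1 + C2)
  -- fibres
  have hcover : S' ⊆ ⋃ z ∈ Set.Icc (-(K : ℤ)) K, {s ∈ S' | (D : ℚ) * (a0.eval (s.1 : ℚ) +
      b0.eval (s.1 : ℚ) * s.2) = (n ^ 2).eval (s.1 : ℚ) * z} := by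
    intro s hs
    obtain ⟨z, hz⟩ := hkey s hs.1
    have hsB := hs.2
    simp only [Set.mem_union, not_or] at hsB
    obtain ⟨⟨hs1, hs2⟩, hs3⟩ := hsB
    have hs1' : |(((C (D : ℚ) * a0).eval (s.1 : ℚ) : ℚ) : ℝ)| ≤
      C1 * |(((n ^ 2).eval (s.1 : ℚ) : ℚ) : ℝ)| := by
      by_contra hcon; exact hs1 hcon
    have hs2' : |(((C (D : ℚ) * (b0 * X)).eval (s.1 : ℚ) : ℚ) : ℝ)| ≤
      C2 * |(((n ^ 2).eval (s.1 : ℚ) : ℚ) : ℝ)| := by
      by_contra hcon; exact hs2 hcon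
    have hs3' : (n ^ 2).eval (s.1 : ℚ) ≠ 0 := hs3
    have hzR : ((D : ℝ) * (((a0.eval (s.1 : ℚ) : ℚ) : ℝ) + ((b0.eval (s.1 : ℚ) : ℚ) : ℝ) * s.2)) =
        (((n ^ 2).eval (s.1 : ℚ) : ℚ) : ℝ) * z := by
      have := congrArg (fun q : ℚ => (q : ℝ)) hz
      push_cast at this
      push_cast
      exact this
    set N : ℝ := (((n ^ 2).eval (s.1 : ℚ) : ℚ) : ℝ) with hN
    have hN0 : 0 < |N| := abs_pos.mpr (by rw [hN]; exact_mod_cast hs3')
    simp only [eval_mul, eval_C, eval_X] at hs1' hs2'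
    push_cast at hs1' hs2'
    set A : ℝ := ((a0.eval (s.1 : ℚ) : ℚ) : ℝ) with hA
    set B : ℝ := ((b0.eval (s.1 : ℚ) : ℚ) : ℝ) with hB
    have hyx : |(s.2 : ℝ)| ≤ |(s.1 : ℝ)| := by
      have hpt := (h s hs.1).1
      rw [IsPt] at hpt
      have hd1 : (1 : ℤ) ≤ d := by exact_mod_cast hd0
      have h3 : s.2 ^ 2 ≤ s.1 ^ 2 := by nlinarith [sq_nonneg s.2]
      exact_mod_cast sq_le_sq.mp h3
    have h1 : |N| * |(z : ℝ)| ≤ (C1 + C2) * |N| := by
      rw [← abs_mul, ← hzR]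
      have e1 : (D : ℝ) * (A + B * s.2) = D * A + D * B * s.2 := by ring
      rw [e1]
      refine (abs_add_le _ _).trans ?_
      have e2 : |(D : ℝ) * B * s.2| ≤ |(D : ℝ) * (B * s.1)| := by
        rw [abs_mul, ← mul_assoc, abs_mul (D * B) (s.1 : ℝ)]
        exact mul_le_mul_of_nonneg_left hyx (abs_nonneg _)
      linarith
    have h2 : |(z : ℝ)| ≤ C1 + C2 := by
      by_contra hcon
      push Not at hcon
      have := mul_lt_mul_of_pos_left hcon hN0
      linarith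
    have h4 : |z| ≤ (K : ℤ) := by
      have : (|z| : ℝ) < K := by push_cast; linarith
      exact_mod_cast this.le
    simp only [Set.mem_iUnion]
    exact ⟨z, abs_le.mp h4, hs, hz⟩
  obtain ⟨z, hzinf⟩ : ∃ z : ℤ, {s ∈ S' | (D : ℚ) * (a0.eval (s.1 : ℚ) +
      b0.eval (s.1 : ℚ) * s.2) = (n ^ 2).eval (s.1 : ℚ) * z}.Infinite := by
    by_contra hcon
    push Not at hcon
    apply hS'inf
    refine ((Set.finite_Icc (-(K : ℤ)) K).biUnion fun z _ => ?_).subset hcover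
    exact hcon z
  have hE := zero_of_infinite hd hd0 (⟨C (D : ℚ) * a0 - C (z : ℚ) * n ^ 2, C (D : ℚ) * b0⟩ : PA d) _
    hzinf (fun s hs => ⟨(h s hs.1.1).1, by
      simp only [eval_sub, eval_mul, eval_C]
      linear_combination hs.2⟩)
  have hE1 := congrArg QuadraticAlgebra.re hE
  have hE2 := congrArg QuadraticAlgebra.im hE
  simp only [QuadraticAlgebra.re_zero, QuadraticAlgebra.im_zero] at hE1 hE2
  have hDC : (C (D : ℚ) : ℚ[X]) ≠ 0 := by
    rw [Ne, C_eq_zero]; exact_mod_cast hD0.ne'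
  have hb00 : b0 = 0 := (mul_eq_zero.mp hE2).resolve_left hDC
  have ha00 : a0 = 0 := by
    by_contra hne
    have h1 : C (D : ℚ) * a0 = C (z : ℚ) * n ^ 2 := sub_eq_zero.mp hE1
    have hz0 : (z : ℚ) ≠ 0 := by
      intro h0
      rw [h0, C_0, zero_mul] at h1
      exact hne ((mul_eq_zero.mp h1).resolve_left hDC)
    have h2 := congrArg degree h1
    rw [degree_C_mul (by exact_mod_cast hD0.ne'), degree_C_mul hz0] at h2
    rw [h2] at ha0d
    exact lt_irrefl _ ha0d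
  rw [ha00, add_zero] at ha
  rw [hb00, add_zero] at hb
  refine ⟨⟨a1, b1⟩, ?_⟩
  have hstar : (star P) ^ 2 ≠ 0 := by
    intro h0
    have h1 : star P * star P = 0 := by rw [← pow_two]; exact h0
    have h2 : star P = 0 := by rcases PA_mul_eq_zero hd hd0 h1 with h | h <;> exact h
    apply hP
    rw [← star_star P, h2, star_zero]
  have hfin : (W - P ^ 2 * (⟨a1, b1⟩ : PA d)) * (star P) ^ 2 = 0 := by
    have h1 : Z = algebraMap ℚ[X] (PA d) (n ^ 2) * (⟨a1, b1⟩ : PA d) := by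
      have e1 : ∀ q : ℚ[X], (algebraMap ℚ[X] (PA d) q * (⟨a1, b1⟩ : PA d)) = ⟨q * a1, q * b1⟩ := by
        intro q
        ext1 <;> simp [QuadraticAlgebra.algebraMap_re, QuadraticAlgebra.algebraMap_im]
      rw [e1, ha, hb]
    rw [sub_mul, ← hZ, h1, map_pow, hnP]
    ring
  rcases PA_mul_eq_zero hd hd0 hfin with h1 | h1
  · exact sub_eq_zero.mp h1
  · exact absurd h1 hstar

end Glaisher
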