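import Pool.Agent.Glaisher.Choose

/-!
Representations `4 p = T ^ 2 + 3 S ^ 2`.
-/

namespace Glaisher

/-- `E ^ 2 + 3 F ^ 2 = 4`. -/
theorem units_of_four {E F : ℤ} (h : E ^ 2 + 3 * F ^ 2 = 4) :
    (E = 2 ∧ F = 0) ∨ (E = -2 ∧ F = 0) ∨ (E = 1 ∧ F = 1) ∨ (E = 1 ∧ F = -1) ∨
      (E = -1 ∧ F = 1) ∨ (E = -1 ∧ F = -1) := by
  have hF : F ^ 2 ≤ 1 := by nlinarith [sq_nonneg E]
  have hF1 : -1 ≤ F := by nlinarith
  have hF2 : F ≤ 1 := by nlinarith
  have hE1 : -2 ≤ E := by nlinarith [sq_nonneg F]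
  have hE2 : E ≤ 2 := by nlinarith [sq_nonneg F]
  interval_cases F <;> interval_cases E <;> simp_all

theorem parity_rep {p T S : ℤ} (h : 4 * p = T ^ 2 + 3 * S ^ 2) : (Even T ↔ Even S) := by
  have h1 : Even (T ^ 2 + 3 * S ^ 2) := ⟨2 * p, by linarith⟩
  have h3 : ¬ Even (3 : ℤ) := by decide
  simp only [Int.even_add, Int.even_mul, Int.even_pow, h3, false_or] at h1
  simpa using h1

/-- Two representations have the same `(T (T^2 - 3p))^2`. -/
theorem rep_unique {p : ℤ} (hp : Prime p) (hodd : ¬ Even p) {T S T0 S0 : ℤ}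
    (h : 4 * p = T ^ 2 + 3 * S ^ 2) (h0 : 4 * p = T0 ^ 2 + 3 * S0 ^ 2) :
    (T * (T ^ 2 - 3 * p)) ^ 2 = (T0 * (T0 ^ 2 - 3 * p)) ^ 2 := by
  -- reduce to the case where `p` divides `T0 * S - T * S0`
  have key : ∀ S : ℤ, 4 * p = T ^ 2 + 3 * S ^ 2 → p ∣ T0 * S - T * S0 →
      (T * (T ^ 2 - 3 * p)) ^ 2 = (T0 * (T0 ^ 2 - 3 * p)) ^ 2 := by
    intro S h hd
    obtain ⟨a, ha⟩ := hd
    have h1 : (T * T0 + 3 * S * S0) ^ 2 + 3 * (T0 * S - T * S0) ^ 2 = 16 * p ^ 2 := by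
      have : (T * T0 + 3 * S * S0) ^ 2 + 3 * (T0 * S - T * S0) ^ 2 =
        (T ^ 2 + 3 * S ^ 2) * (T0 ^ 2 + 3 * S0 ^ 2) := by ring
      rw [this, ← h, ← h0]; ring
    have h2 : p ∣ (T * T0 + 3 * S * S0) ^ 2 := by
      refine ⟨16 * p - 3 * p * a ^ 2, ?_⟩
      rw [ha] at h1
      linear_combination h1
    obtain ⟨b, hb⟩ := hp.dvd_of_dvd_pow h2
    have h3 : b ^ 2 + 3 * a ^ 2 = 16 := by
      rw [ha, hb] at h1
      have h4 : p ^ 2 * (b ^ 2 + 3 * a ^ 2) = p ^ 2 * 16 := by linear_combination h1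
      exact mul_left_cancel₀ (pow_ne_zero 2 hp.ne_zero) h4
    -- parity
    have p1 := parity_rep h
    have p2 := parity_rep h0
    have h6 : Even (p * a) := by
      rw [← ha]
      simp only [Int.even_sub, Int.even_mul, p1, p2]
      tauto
    have h7 : Even a := by
      rcases Int.even_mul.mp h6 with h | h
      · exact absurd h hodd
      · exact h
    have h8 : Even b := by
      have : Even (b ^ 2) := by
        rw [show b ^ 2 = 16 - 3 * a ^ 2 by linarith]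
        have e1 : Even (a ^ 2) := by rw [Int.even_pow]; exact ⟨h7, two_ne_zero⟩
        exact Even.sub (by decide) (e1.mul_left 3)
      rw [Int.even_pow] at this
      exact this.1
    obtain ⟨a', ha'⟩ := h7
    obtain ⟨b', hb'⟩ := h8
    have h9 : b' ^ 2 + 3 * a' ^ 2 = 4 := by
      rw [ha', hb'] at h3; linarith
    have h10 : 2 * T = b' * T0 - 3 * a' * S0 := by
      have e1 : T * (T0 ^ 2 + 3 * S0 ^ 2) = T0 * (p * b) - 3 * S0 * (p * a) := by
        rw [← ha, ← hb]; ring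
      rw [← h0, ha', hb'] at e1
      have e2 : (2 * p) * (2 * T) = (2 * p) * (b' * T0 - 3 * a' * S0) := by linear_combination e1
      exact mul_left_cancel₀ (mul_ne_zero two_ne_zero hp.ne_zero) e2
    rcases units_of_four h9 with ⟨e, f⟩ | ⟨e, f⟩ | ⟨e, f⟩ | ⟨e, f⟩ | ⟨e, f⟩ | ⟨e, f⟩ <;>
      subst e <;> subst f
    · have : T = T0 := by linarith
      rw [this]
    · have : T = -T0 := by linarith
      rw [this]; ring
    · have e0 : T0 = 2 * T + 3 * S0 := by linarith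
      have e1 : p = T ^ 2 + 3 * T * S0 + 3 * S0 ^ 2 := by rw [e0] at h0; linarith
      rw [e0, e1]; ring
    · have e0 : T0 = 2 * T - 3 * S0 := by linarith
      have e1 : p = T ^ 2 - 3 * T * S0 + 3 * S0 ^ 2 := by rw [e0] at h0; linarith
      rw [e0, e1]; ring
    · have e0 : T0 = -2 * T - 3 * S0 := by linarith
      have e1 : p = T ^ 2 + 3 * T * S0 + 3 * S0 ^ 2 := by rw [e0] at h0; linarith
      rw [e0, e1]; ring
    · have e0 : T0 = -2 * T + 3 * S0 := by linarith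
      have e1 : p = T ^ 2 - 3 * T * S0 + 3 * S0 ^ 2 := by rw [e0] at h0; linarith
      rw [e0, e1]; ring
  have h1 : p ∣ (T0 * S - T * S0) * (T0 * S - T * (-S0)) := by
    refine ⟨4 * (S ^ 2 - S0 ^ 2), ?_⟩
    linear_combination S0 ^ 2 * h - S ^ 2 * h0
  rcases hp.dvd_or_dvd h1 with h2 | h2
  · exact key S h h2
  · refine key (-S) (by rw [neg_sq]; exact h) ?_
    have : T0 * -S - T * S0 = -(T0 * S - T * -S0) := by ring
    rw [this]; exact (dvd_neg).mpr h2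

end Glaisher
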