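import Pool.Agent.Glaisher.Curve
import Pool.Agent.Glaisher.CurveOrder

/-!
The resultant bound `ResB g` for every integer polynomial `g`.
-/

namespace Glaisher

open Polynomial

theorem resB (g : ℤ[X]) : ResB g := by
  refine ⟨max 2 (len g : ℝ), lt_of_lt_of_le (by norm_num) (le_max_left _ _), ?_⟩
  intro m hm hne p hp t ht hg
  have h2 : (2 : ℝ) ≤ max 2 (len g : ℝ) := le_max_left _ _
  have hprim : IsPrimitiveRoot t m := by
    rw [← ht]
    exact IsPrimitiveRoot.orderOf t
  rcases res_main g m p hm t hprim hg with h | ⟨η, hη, h0⟩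
  · refine h.trans ?_
    calc (len g : ℝ) ^ m.totient ≤ (max 2 (len g : ℝ)) ^ m.totient :=
          pow_le_pow_left₀ (Nat.cast_nonneg _) (le_max_right _ _) _
      _ ≤ (max 2 (len g : ℝ)) ^ m := pow_le_pow_right₀ (by linarith) (Nat.totient_le m)
  · exfalso
    apply hne η hη
    rw [aeval_def, ← h0, eval_map]
    rfl

end Glaisher
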