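import Mathlib

/-!
A bound for the primes which divide a value of a polynomial at an element of given order.
-/

set_option autoImplicit false

namespace Glaisher

open Polynomial

theorem res_bound (g : Polynomial ℤ) : ∃ K : ℝ, 1 < K ∧ ∀ (m : ℕ), 0 < m →
    (∀ ζ : ℂ, IsPrimitiveRoot ζ m → Polynomial.aeval ζ g ≠ 0) →
    ∀ (p : ℕ) [Fact p.Prime] (t : ZMod p), orderOf t = m →
      (g.map (Int.castRingHom (ZMod p))).eval t = 0 → (p : ℝ) ≤ K ^ m := by
  set B : ℝ := ∑ i ∈ Finset.range (g.natDegree + 1), |(g.coeff i : ℝ)| with hB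
  have hB0 : 0 ≤ B := Finset.sum_nonneg fun i _ => abs_nonneg _
  refine ⟨max B 2, lt_of_lt_of_le one_lt_two (le_max_right _ _), fun m hm hζ p hp t ht hg => ?_⟩
  set n := g.natDegree with hn
  set f := cyclotomic m ℤ with hf
  set R : ℤ := resultant f g f.natDegree n with hR
  -- the complex value
  have hRC : (R : ℂ) = ((cyclotomic m ℂ).roots.map (g.map (Int.castRingHom ℂ)).eval).prod := by
    have h1 := resultant_map_map f g f.natDegree n (Int.castRingHom ℂ)
    have h2 := resultant_eq_prod_eval (cyclotomic m ℂ) (g.map (Int.castRingHom ℂ)) n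
      natDegree_map_le (IsAlgClosed.splits _)
    rw [hf, map_cyclotomic, ← hf, show f.natDegree = (cyclotomic m ℂ).natDegree by
      rw [hf, natDegree_cyclotomic, natDegree_cyclotomic], h2,
      (cyclotomic.monic m ℂ).leadingCoeff, one_pow, one_mul] at h1
    rw [h1, hR, show f.natDegree = (cyclotomic m ℂ).natDegree by
      rw [hf, natDegree_cyclotomic, natDegree_cyclotomic]]
    rfl
  have hroot : ∀ z ∈ (cyclotomic m ℂ).roots, IsPrimitiveRoot z m := by
    intro z hz
    have : NeZero (m : ℂ) := ⟨by exact_mod_cast hm.ne'⟩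
    exact isRoot_cyclotomic_iff.1 (isRoot_of_mem_roots hz)
  have hR0 : R ≠ 0 := by
    intro h
    rw [h, Int.cast_zero] at hRC
    have h1 := Multiset.prod_eq_zero_iff.1 hRC.symm
    obtain ⟨z, hz, hz0⟩ := Multiset.mem_map.1 h1
    apply hζ z (hroot z hz)
    rw [aeval_def, eval₂_eq_eval_map]
    exact hz0
  have hval : ∀ z ∈ (cyclotomic m ℂ).roots, ‖(g.map (Int.castRingHom ℂ)).eval z‖ ≤ B := by
    intro z hz
    have hz1 : ‖z‖ = 1 := (hroot z hz).norm'_eq_one hm.ne'
    rw [eval_eq_sum_range' (lt_of_le_of_lt natDegree_map_le (Nat.lt_succ_self _))]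
    refine (norm_sum_le _ _).trans (Finset.sum_le_sum fun i _ => ?_)
    rw [norm_mul, norm_pow, hz1, one_pow, mul_one, coeff_map, eq_intCast, Complex.norm_intCast]
  have hnorm : ‖(R : ℂ)‖ ≤ B ^ m.totient := by
    rw [hRC]
    have h1 : ∀ s : Multiset ℂ, (∀ z ∈ s, ‖(g.map (Int.castRingHom ℂ)).eval z‖ ≤ B) →
        ‖(s.map (g.map (Int.castRingHom ℂ)).eval).prod‖ ≤ B ^ s.card := by
      intro s
      induction s using Multiset.induction with
      | empty => intro _; simp
      | cons a s ih =>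
        intro h
        rw [Multiset.map_cons, Multiset.prod_cons, norm_mul, Multiset.card_cons, pow_succ']
        exact mul_le_mul (h a (Multiset.mem_cons_self a s))
          (ih fun z hz => h z (Multiset.mem_cons_of_mem hz)) (norm_nonneg _) hB0
    refine (h1 _ hval).trans (le_of_eq ?_)
    rw [← (IsAlgClosed.splits (cyclotomic m ℂ)).natDegree_eq_card_roots, natDegree_cyclotomic]
  -- divisibility
  have hdvd : (p : ℤ) ∣ R := by
    have hdeg : f.natDegree ≠ 0 := by
      rw [hf, natDegree_cyclotomic]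
      exact (Nat.totient_pos.2 hm).ne'
    obtain ⟨a, b, -, -, hab⟩ := exists_mul_add_mul_eq_C_resultant f g (le_refl f.natDegree)
      (le_refl g.natDegree) (Or.inl hdeg)
    have h1 := congrArg (fun q => (q.map (Int.castRingHom (ZMod p))).eval t) hab
    simp only [Polynomial.map_add, Polynomial.map_mul, eval_add, eval_mul, hg, map_C, eval_C,
      zero_mul, add_zero] at h1
    have h2 : (f.map (Int.castRingHom (ZMod p))).eval t = 0 := by
      rw [hf, map_cyclotomic]
      have h3 : IsPrimitiveRoot t m := by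
        rw [← ht]
        exact IsPrimitiveRoot.orderOf t
      exact h3.isRoot_cyclotomic hm
    rw [h2, zero_mul] at h1
    rw [← ZMod.intCast_zmod_eq_zero_iff_dvd]
    exact h1.symm
  have hle : (p : ℤ) ≤ |R| := Int.le_of_dvd (abs_pos.2 hR0) ((dvd_abs _ _).2 hdvd)
  have h4 : (p : ℝ) ≤ ‖(R : ℂ)‖ := by
    rw [Complex.norm_intCast]
    exact_mod_cast hle
  calc (p : ℝ) ≤ B ^ m.totient := h4.trans hnorm
    _ ≤ (max B 2) ^ m.totient := pow_le_pow_left₀ hB0 (le_max_left _ _) _
    _ ≤ (max B 2) ^ m := pow_le_pow_right₀ (one_le_two.trans (le_max_right _ _)) (Nat.totient_le m)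

end Glaisher
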