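import Pool.Agent.Glaisher.Defs

/-!
`G_{p-1} ≡ ∑_{j ≤ N} (3 j)^(3 N) - ∑_{j ≤ N} (3 j - 1)^(3 N) (mod p ^ 2)` for `p = 3 N + 1`.
-/

namespace Glaisher

open PowerSeries Finset

/-- `r` is `p`-integral. -/
def PInt (p : ℕ) (r : ℚ) : Prop := r.den.Coprime p

theorem PInt.add {p : ℕ} {r s : ℚ} (hr : PInt p r) (hs : PInt p s) : PInt p (r + s) := by
  unfold PInt at *
  exact Nat.Coprime.coprime_dvd_left (Rat.add_den_dvd r s) (Nat.Coprime.mul_left hr hs)

theorem PInt.mul {p : ℕ} {r s : ℚ} (hr : PInt p r) (hs : PInt p s) : PInt p (r * s) := by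
  unfold PInt at *
  exact Nat.Coprime.coprime_dvd_left (Rat.mul_den_dvd r s) (Nat.Coprime.mul_left hr hs)

theorem PInt.int (p : ℕ) (n : ℤ) : PInt p (n : ℚ) := by
  unfold PInt; simp

theorem PInt.nat (p : ℕ) (n : ℕ) : PInt p (n : ℚ) := by
  unfold PInt; simp

theorem PInt.neg {p : ℕ} {r : ℚ} (hr : PInt p r) : PInt p (-r) := by
  unfold PInt at *; simpa using hr

theorem PInt.sub {p : ℕ} {r s : ℚ} (hr : PInt p r) (hs : PInt p s) : PInt p (r - s) := by
  rw [sub_eq_add_neg]; exact hr.add hs.neg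

theorem PInt.sum {p : ℕ} {ι : Type*} (s : Finset ι) (f : ι → ℚ)
    (h : ∀ i ∈ s, PInt p (f i)) : PInt p (∑ i ∈ s, f i) := by
  classical
  induction s using Finset.induction_on with
  | empty => simpa using PInt.nat p 0
  | insert a s ha ih =>
    rw [Finset.sum_insert ha]
    exact (h a (by simp)).add (ih (fun i hi => h i (by simp [hi])))

theorem PInt.inv_nat {p : ℕ} {n : ℕ} (h : n.Coprime p) : PInt p ((n : ℚ)⁻¹) := by
  unfold PInt
  rcases Nat.eq_zero_or_pos n with h0 | h0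
  · subst h0; simp
  · rw [Rat.inv_natCast_den_of_pos h0]; exact h

/-- `e^{a x}`. -/
noncomputable def ee (a : ℚ) : ℚ⟦X⟧ := rescale a (exp ℚ)

theorem ee_mul (a b : ℚ) : ee a * ee b = ee (a + b) := exp_mul_exp_eq_exp_add a b

theorem coeff_ee (a : ℚ) (n : ℕ) : coeff n (ee a) = a ^ n / n.factorial := by
  simp [ee, coeff_rescale, coeff_exp, div_eq_mul_inv]

theorem ee_zero : ee 0 = 1 := by
  ext n
  rw [coeff_ee, coeff_one]
  rcases Nat.eq_zero_or_pos n with h | h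
  · subst h; simp
  · simp [h.ne']

theorem evalNegHom_exp : evalNegHom (exp ℚ) = ee (-1) := rfl

theorem exp_eq_ee : exp ℚ = ee 1 := by
  simp [ee]

/-- The generating series. -/
noncomputable def GG : ℚ⟦X⟧ := PowerSeries.C (3 / 2 : ℚ) *
      (PowerSeries.exp ℚ + PowerSeries.evalNegHom (PowerSeries.exp ℚ) + 1)⁻¹

theorem glaisher_eq (n : ℕ) : glaisher n = (n.factorial : ℚ) * coeff n GG := rfl

theorem coeff_GG (n : ℕ) : coeff n GG = glaisher n / n.factorial := by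
  rw [glaisher_eq]
  field_simp

theorem GG_mul : GG * (ee 1 + ee (-1) + 1) = PowerSeries.C (3 / 2 : ℚ) := by
  have h : constantCoeff (ee 1 + ee (-1) + 1 : ℚ⟦X⟧) ≠ 0 := by
    have h1 : constantCoeff (ee 1) = (1 : ℚ) := by
      rw [← coeff_zero_eq_constantCoeff_apply, coeff_ee]; simp
    have h2 : constantCoeff (ee (-1)) = (1 : ℚ) := by
      rw [← coeff_zero_eq_constantCoeff_apply, coeff_ee]; simp
    rw [map_add, map_add, h1, h2, map_one]; norm_num
  have h3 : GG = PowerSeries.C (3 / 2 : ℚ) * (ee 1 + ee (-1) + 1)⁻¹ := by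
    rw [GG, evalNegHom_exp, exp_eq_ee]
  rw [h3, mul_assoc, PowerSeries.inv_mul_cancel _ h, mul_one]

/-- coefficient form of multiplication by an exponential. -/
theorem coeff_GG_mul_ee (a : ℚ) (n : ℕ) :
    (n.factorial : ℚ) * coeff n (GG * ee a) =
      ∑ i ∈ range (n + 1), (n.choose i : ℚ) * glaisher i * a ^ (n - i) := by
  rw [coeff_mul, Finset.Nat.sum_antidiagonal_eq_sum_range_succ_mk, Finset.mul_sum]
  refine Finset.sum_congr rfl fun i hi => ?_
  have hi' : i ≤ n := by simpa [Nat.lt_succ_iff] using hi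
  simp only
  rw [coeff_GG, coeff_ee, Nat.cast_choose ℚ hi']
  have h1 : (i.factorial : ℚ) ≠ 0 := by exact_mod_cast i.factorial_ne_zero
  have h2 : ((n - i).factorial : ℚ) ≠ 0 := by exact_mod_cast (n - i).factorial_ne_zero
  field_simp

theorem constantCoeff_ee (a : ℚ) : constantCoeff (ee a) = (1 : ℚ) := by
  rw [← coeff_zero_eq_constantCoeff_apply, coeff_ee]; simp

theorem glaisher_zero : glaisher 0 = 1 / 2 := by
  have h := congrArg (fun f => constantCoeff f) GG_mul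
  have h3 := coeff_GG 0
  simp only [coeff_zero_eq_constantCoeff_apply, Nat.factorial_zero, Nat.cast_one, div_one] at h3
  simp only [map_mul, map_add, constantCoeff_ee, map_one, h3, constantCoeff_C] at h
  linarith

theorem glaisher_rec (n : ℕ) (hn : 0 < n) :
    3 * glaisher n = - ∑ i ∈ range n, (n.choose i : ℚ) * glaisher i *
      (1 + (-1) ^ (n - i)) := by
  have h := congrArg (fun f => (n.factorial : ℚ) * coeff n f) GG_mul
  simp only [mul_add, mul_one, map_add] at h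
  rw [coeff_GG_mul_ee, coeff_GG_mul_ee, coeff_GG, coeff_C, if_neg hn.ne',
    Finset.sum_range_succ, Finset.sum_range_succ] at h
  have h1 : (n.factorial : ℚ) ≠ 0 := by exact_mod_cast n.factorial_ne_zero
  rw [mul_div_cancel₀ _ h1] at h
  simp only [mul_add, Finset.sum_add_distrib, mul_one, one_pow] at h ⊢
  simp at h
  linarith

theorem pint_glaisher {p : ℕ} (h2 : Nat.Coprime 2 p) (h3 : Nat.Coprime 3 p) (n : ℕ) :
    PInt p (glaisher n) := by
  induction n using Nat.strong_induction_on with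
  | _ n ih =>
    rcases Nat.eq_zero_or_pos n with h | h
    · subst h
      rw [glaisher_zero, one_div]
      exact_mod_cast PInt.inv_nat h2
    · have h4 := glaisher_rec n h
      have h5 : glaisher n = ((3 : ℕ) : ℚ)⁻¹ * (- ∑ i ∈ range n, (n.choose i : ℚ) * glaisher i *
          (1 + (-1) ^ (n - i))) := by
        rw [← h4]; push_cast; ring
      rw [h5]
      refine (PInt.inv_nat h3).mul (PInt.neg (PInt.sum _ _ fun i hi => ?_))
      refine ((PInt.nat p _).mul (ih i (by simpa using hi))).mul ?_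
      have h6 : (1 + (-1) ^ (n - i) : ℚ) = ((1 + (-1) ^ (n - i) : ℤ) : ℚ) := by push_cast; rfl
      rw [h6]; exact PInt.int p _

/-- The Laurent polynomial `L_N`. -/
noncomputable def LL (N : ℕ) : ℚ⟦X⟧ :=
  1 + ∑ j ∈ range N, (ee (3 * (j + 1)) + ee (-(3 * (j + 1))) -
    ee (3 * (j + 1) - 1) - ee (-(3 * (j + 1) - 1)))

theorem ee_block (z : ℚ) : (ee z + ee (-z) - ee (z - 1) - ee (-(z - 1))) *
    (ee 1 + ee (-1) + 1) = ee (z + 1) + ee (-(z + 1)) - ee (z - 2) - ee (-(z - 2)) := by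
  simp only [sub_mul, add_mul, mul_add, ee_mul, mul_one]
  have e1 : z + -1 = z - 1 := by ring
  have e2 : -z + 1 = -(z - 1) := by ring
  have e3 : -z + -1 = -(z + 1) := by ring
  have e4 : z - 1 + 1 = z := by ring
  have e5 : z - 1 + -1 = z - 2 := by ring
  have e6 : -(z - 1) + 1 = -(z - 2) := by ring
  have e7 : -(z - 1) + -1 = -z := by ring
  rw [e1, e2, e3, e4, e5, e6, e7]
  ring

theorem LL_mul (N : ℕ) : LL N * (ee 1 + ee (-1) + 1) =
    ee (3 * N + 1) + ee (-(3 * N + 1)) + 1 := by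
  induction N with
  | zero => simp [LL]
  | succ N ih =>
    have h : LL (N + 1) = LL N + (ee (3 * (N + 1)) + ee (-(3 * (N + 1))) -
      ee (3 * (N + 1) - 1) - ee (-(3 * (N + 1) - 1))) := by
      rw [LL, LL, Finset.sum_range_succ, add_assoc]
    rw [h, add_mul, ih, ee_block]
    have e1 : (3 * ((N : ℚ) + 1) + 1) = 3 * ((N + 1 : ℕ) : ℚ) + 1 := by push_cast; ring
    have e2 : (3 * ((N : ℚ) + 1) - 2) = 3 * (N : ℚ) + 1 := by ring
    rw [e1, e2]
    ring

theorem GG_mul_big (N : ℕ) : GG * (ee (3 * N + 1) + ee (-(3 * N + 1)) + 1) =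
    PowerSeries.C (3 / 2 : ℚ) * LL N := by
  rw [← LL_mul, ← GG_mul]; ring

/-- the exact identity behind the congruence -/
theorem glaisher_identity (N : ℕ) (hN : 0 < N) :
    (∑ i ∈ range (3 * N), ((3 * N).choose i : ℚ) * glaisher i *
      ((3 * N + 1) ^ (3 * N - i) + (-(3 * N + 1)) ^ (3 * N - i))) + 3 * glaisher (3 * N) =
    3 / 2 * ∑ j ∈ range N, ((3 * (j + 1) : ℚ) ^ (3 * N) + (-(3 * (j + 1) : ℚ)) ^ (3 * N) -
      (3 * (j + 1) - 1 : ℚ) ^ (3 * N) - (-(3 * (j + 1) - 1 : ℚ)) ^ (3 * N)) := by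
  set n := 3 * N with hn
  have hn0 : 0 < n := by omega
  have h := congrArg (fun f => (n.factorial : ℚ) * coeff n f) (GG_mul_big N)
  simp only [mul_add, mul_one, map_add] at h
  rw [coeff_GG_mul_ee, coeff_GG_mul_ee, coeff_GG, coeff_C_mul, LL, map_add, coeff_one,
    if_neg hn0.ne', map_sum, Finset.sum_range_succ, Finset.sum_range_succ] at h
  have h1 : (n.factorial : ℚ) ≠ 0 := by exact_mod_cast n.factorial_ne_zero
  rw [mul_div_cancel₀ _ h1] at h
  simp only [map_add, map_sub, coeff_ee, zero_add] at h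
  have h2 : (n.factorial : ℚ) * (3 / 2 * ∑ x ∈ range N, ((3 * ((x : ℚ) + 1)) ^ n / n.factorial +
      (-(3 * ((x : ℚ) + 1))) ^ n / n.factorial - (3 * ((x : ℚ) + 1) - 1) ^ n / n.factorial -
      (-(3 * ((x : ℚ) + 1) - 1)) ^ n / n.factorial)) =
      3 / 2 * ∑ j ∈ range N, ((3 * (j + 1) : ℚ) ^ n + (-(3 * (j + 1) : ℚ)) ^ n -
      (3 * (j + 1) - 1 : ℚ) ^ n - (-(3 * (j + 1) - 1 : ℚ)) ^ n) := by
    rw [mul_left_comm, Finset.mul_sum]
    congr 1
    refine Finset.sum_congr rfl fun j _ => ?_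
    field_simp
  rw [h2] at h
  rw [← h]
  simp only [mul_add, Finset.sum_add_distrib, Nat.sub_self, pow_zero, mul_one, Nat.choose_self,
    Nat.cast_one, one_mul]
  ring

/-- `CongSq` in terms of `PInt`. -/
theorem glaisher_congr (N : ℕ) (hN : 0 < N) (hev : Even N) (hp : (3 * N + 1).Prime) :
    CongSq (3 * N + 1) (glaisher (3 * N))
      (∑ j ∈ range N, ((3 * (j + 1) : ℚ) ^ (3 * N) - (3 * (j + 1) - 1 : ℚ) ^ (3 * N))) := by
  have h2 : Nat.Coprime 2 (3 * N + 1) := by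
    rw [Nat.coprime_primes Nat.prime_two hp]; omega
  have h3 : Nat.Coprime 3 (3 * N + 1) := by
    rw [Nat.coprime_primes Nat.prime_three hp]; omega
  have hid := glaisher_identity N hN
  have hev3 : Even (3 * N) := hev.mul_left 3
  have hR : 3 / 2 * ∑ j ∈ range N, ((3 * (j + 1) : ℚ) ^ (3 * N) + (-(3 * (j + 1) : ℚ)) ^ (3 * N) -
      (3 * (j + 1) - 1 : ℚ) ^ (3 * N) - (-(3 * (j + 1) - 1 : ℚ)) ^ (3 * N)) =
      3 * ∑ j ∈ range N, ((3 * (j + 1) : ℚ) ^ (3 * N) - (3 * (j + 1) - 1 : ℚ) ^ (3 * N)) := by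
    rw [Finset.mul_sum, Finset.mul_sum]
    refine Finset.sum_congr rfl fun j _ => ?_
    rw [hev3.neg_pow, hev3.neg_pow]; ring
  rw [hR] at hid
  set p : ℕ := 3 * N + 1 with hp'
  -- the first sum is `p ^ 2` times a `p`-integral number
  have hz : ∀ i ∈ range (3 * N), ∃ z : ℚ, PInt p z ∧ ((3 * N).choose i : ℚ) * glaisher i *
      ((3 * N + 1) ^ (3 * N - i) + (-(3 * N + 1)) ^ (3 * N - i)) = (p : ℚ) ^ 2 * z := by
    intro i hi
    have hi' : i < 3 * N := by simpa using hi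
    have hpc : (3 * (N : ℚ) + 1) = (p : ℚ) := by rw [hp']; push_cast; ring
    rw [hpc]
    obtain ⟨d, hd⟩ : ∃ d, 3 * N - i = d + 1 := ⟨3 * N - i - 1, by omega⟩
    rw [hd]
    rcases Nat.eq_zero_or_pos d with h0 | h0
    · subst h0
      refine ⟨0, by simpa using PInt.nat p 0, ?_⟩
      ring
    · obtain ⟨e, rfl⟩ : ∃ e, d = e + 1 := ⟨d - 1, by omega⟩
      refine ⟨((3 * N).choose i : ℚ) * glaisher i * (((p : ℤ) ^ e + (-(p : ℤ)) ^ e : ℤ) : ℚ),
        ((PInt.nat p _).mul (pint_glaisher h2 h3 i)).mul (PInt.int p _), ?_⟩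
      push_cast
      ring
  choose! z hz1 hz2 using hz
  have hs : ∑ i ∈ range (3 * N), ((3 * N).choose i : ℚ) * glaisher i *
      ((3 * N + 1) ^ (3 * N - i) + (-(3 * N + 1)) ^ (3 * N - i)) =
      (p : ℚ) ^ 2 * ∑ i ∈ range (3 * N), z i := by
    rw [Finset.mul_sum]
    exact Finset.sum_congr rfl hz2
  rw [hs] at hid
  refine ⟨((3 : ℕ) : ℚ)⁻¹ * -(∑ i ∈ range (3 * N), z i), (PInt.inv_nat h3).mul (PInt.sum _ _ hz1).neg, ?_⟩
  have h4 : glaisher (3 * N) = ∑ j ∈ range N, ((3 * (j + 1) : ℚ) ^ (3 * N) -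
      (3 * (j + 1) - 1 : ℚ) ^ (3 * N)) - (p : ℚ) ^ 2 * (∑ i ∈ range (3 * N), z i) / 3 := by
    linarith
  rw [h4]
  push_cast
  ring

end Glaisher
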